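import Pool.Agent.Helper20.Sparse.NumRel

/-!
# If all spectra are rudimentary: powers and binary digits
-/

set_option autoImplicit false

namespace Pool.Agent.Helper20.Spectra

/-- the graph of the powers is rudimentary -/
def PowRud : Prop := Rud 3 {v | v 2 = v 1 ^ v 0}

lemma so2_inr {κ : Type} {b : κ → ℕ} {k : ℕ} {s t : (Fin k → ℕ) → ℕ} (hs : IsPoly k s)
    (ht : IsPoly k t) : RudX (Sum.elim b (fun _ : Unit => 2)) k
      (fun Y v => (fun i => Y (Sum.inr i) : SOA (fun _ : Unit => 2)) () ![s v, t v]) := by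
  refine (RudX.so' (a := Sum.elim b (fun _ : Unit => 2)) (Sum.inr ()) (t := ![s, t]) ?_).congr ?_
  · intro j
    change Fin 2 at j
    fin_cases j
    · exact hs
    · exact ht
  · intro Y v
    refine Iff.of_eq (congrArg (Y (Sum.inr ())) ?_)
    funext j
    change Fin 2 at j
    fin_cases j <;> rfl

/-- the recursion for the powers -/
def PowRec (W : SOA (fun _ : Unit => 2)) (k z y : ℕ) : Prop :=
  (∀ x, x ≤ y → (W () ![0, x] ↔ x = 1)) ∧
  (∀ i, i ≤ k → (i < k → ∀ x, x ≤ y → (W () ![i + 1, x] ↔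
    ∃ x', x' ≤ y ∧ (W () ![i, x'] ∧ x = x' * z)))) ∧ W () ![k, y]

lemma exists_powRec {k z y : ℕ} (hz : 1 ≤ z) : (∃ W, PowRec W k z y) ↔ y = z ^ k := by
  constructor
  · rintro ⟨W, h0, h1, h2⟩
    have key : ∀ i, i ≤ k → ∀ x, x ≤ y → (W () ![i, x] ↔ x = z ^ i) := by
      intro i
      induction i with
      | zero =>
        intro _ x hx
        rw [h0 x hx, pow_zero]
      | succ i ih =>
        intro hi x hx
        rw [h1 i (by omega) (by omega) x hx]
        constructor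
        · rintro ⟨x', hx', h3, rfl⟩
          rw [(ih (by omega) x' hx').1 h3, pow_succ]
        · rintro rfl
          have h3 : z ^ i ≤ z ^ (i + 1) := Nat.pow_le_pow_right hz (by omega)
          exact ⟨z ^ i, h3.trans hx, (ih (by omega) _ (h3.trans hx)).2 rfl, pow_succ _ _⟩
    exact (key k le_rfl y le_rfl).1 h2
  · rintro rfl
    refine ⟨fun _ w => w 1 = z ^ w 0, fun x _ => by simp, fun i _ hi x _ => ?_, rfl⟩
    show x = z ^ (i + 1) ↔ ∃ x', x' ≤ z ^ k ∧ (x' = z ^ i ∧ x = x' * z)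
    constructor
    · intro h
      exact ⟨z ^ i, Nat.pow_le_pow_right hz (by omega), rfl, by rw [h, pow_succ]⟩
    · rintro ⟨x', _, rfl, rfl⟩
      rw [pow_succ]

lemma powRud (hQ : SRud) : PowRud := by
  have h1 : ESO none0 3 (fun _ v => ∃ W : SOA (fun _ : Unit => 2),
      (v 1 = 0 ∧ ((v 0 = 0 ∧ v 2 = 1) ∨ (1 ≤ v 0 ∧ v 2 = 0))) ∨
        (1 ≤ v 1 ∧ PowRec W (v 0) (v 1) (v 2))) := by
    have h2 : ESO (Sum.elim none0 (fun _ : Unit => 2)) 3 (fun Y v =>
        (v 1 = 0 ∧ ((v 0 = 0 ∧ v 2 = 1) ∨ (1 ≤ v 0 ∧ v 2 = 0))) ∨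
        (1 ≤ v 1 ∧ PowRec (fun i => Y (Sum.inr i)) (v 0) (v 1) (v 2))) := by
      refine ESO.of (RudX.or ?_ ?_)
      · exact (RudX.eq (IsPoly.var 1) (IsPoly.const 0)).and'
          (((RudX.eq (IsPoly.var 0) (IsPoly.const 0)).and'
            (RudX.eq (IsPoly.var 2) (IsPoly.const 1))).or
            ((RudX.le (IsPoly.const 1) (IsPoly.var 0)).and'
              (RudX.eq (IsPoly.var 2) (IsPoly.const 0))))
      · refine (RudX.le (IsPoly.const 1) (IsPoly.var 1)).and' (RudX.and' ?_ (RudX.and' ?_ ?_))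
        · exact RudX.all (IsPoly.var 2) (RudX.iff (so2_inr (IsPoly.const 0) (IsPoly.var 0))
            (RudX.eq (IsPoly.var 0) (IsPoly.const 1)))
        · refine RudX.all (IsPoly.var 0) (RudX.imp (RudX.lt (IsPoly.var 0) (IsPoly.var 1))
            (RudX.all (IsPoly.var 3) (RudX.iff
              (so2_inr ((IsPoly.var 1).add (IsPoly.const 1)) (IsPoly.var 0))
              (RudX.ex (IsPoly.var 4) ((so2_inr (IsPoly.var 2) (IsPoly.var 0)).and'
                (RudX.eq (IsPoly.var 1) ((IsPoly.var 0).mul (IsPoly.var 4))))))))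
        · exact so2_inr (IsPoly.var 0) (IsPoly.var 2)
    exact h2.exSO
  refine (rud_of_eso hQ h1).congr ?_
  ext v
  simp only [Set.mem_ofPred_eq]
  rcases Nat.eq_zero_or_pos (v 1) with h0 | h0
  · rw [h0]
    have h2 : (∃ _ : SOA (fun _ : Unit => 2), True) := ⟨fun _ _ => True, trivial⟩
    constructor
    · rintro ⟨W, ⟨_, h3 | h3⟩ | ⟨h3, _⟩⟩
      · rw [h3.1, h3.2, pow_zero]
      · rw [h3.2, zero_pow (by omega)]
      · omega
    · intro h3
      refine ⟨fun _ _ => True, Or.inl ⟨rfl, ?_⟩⟩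
      rcases Nat.eq_zero_or_pos (v 0) with h4 | h4
      · rw [h4, pow_zero] at h3
        exact Or.inl ⟨h4, h3⟩
      · rw [zero_pow (by omega)] at h3
        exact Or.inr ⟨h4, h3⟩
  · rw [← exists_powRec h0]
    constructor
    · rintro ⟨W, ⟨h3, _⟩ | ⟨_, h3⟩⟩
      · omega
      · exact ⟨W, h3⟩
    · rintro ⟨W, h3⟩
      exact ⟨W, Or.inr ⟨h0, h3⟩⟩

lemma RudX.pow {κ : Type} {b : κ → ℕ} {k : ℕ} (hP : PowRud) {s t u : (Fin k → ℕ) → ℕ}
    (hs : IsPoly k s) (ht : IsPoly k t) (hu : IsPoly k u) :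
    RudX b k (fun _ v => u v = t v ^ s v) := by
  have h1 : RudX b 3 (fun _ v => v ∈ {v : Fin 3 → ℕ | v 2 = v 1 ^ v 0}) := RudX.ofRud hP
  refine (h1.subst k ![s, t, u] ?_).congr (fun X v => ?_)
  · intro i
    fin_cases i
    · exact hs
    · exact ht
    · exact hu
  · rfl

lemma testBit_iff (i x : ℕ) : x.testBit i = true ↔ ∃ q r, r < 2 ^ i ∧ x = (2 * q + 1) * 2 ^ i + r := by
  rw [Nat.testBit_eq_decide_div_mod_eq, decide_eq_true_iff]
  constructor
  · intro h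
    refine ⟨x / 2 ^ i / 2, x % 2 ^ i, Nat.mod_lt _ (by positivity), ?_⟩
    have h1 := Nat.div_add_mod (x / 2 ^ i) 2
    rw [h] at h1
    rw [h1, mul_comm]
    exact (Nat.div_add_mod x (2 ^ i)).symm
  · rintro ⟨q, r, hr, rfl⟩
    rw [mul_comm, Nat.mul_add_div (by positivity), Nat.div_eq_of_lt hr]
    omega

lemma RudX.testBit {κ : Type} {b : κ → ℕ} {k : ℕ} (hP : PowRud) {s t : (Fin k → ℕ) → ℕ}
    (hs : IsPoly k s) (ht : IsPoly k t) : RudX b k (fun _ v => (t v).testBit (s v) = true) := by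
  have h1 : RudX b k (fun _ v => ∃ p, p ≤ t v ∧ (p = 2 ^ s v ∧ ∃ q, q ≤ t v ∧ ∃ r, r ≤ t v ∧
      (r < p ∧ t v = (2 * q + 1) * p + r))) := by
    refine RudX.ex ht ((RudX.pow hP hs.tail (IsPoly.const 2) (IsPoly.var 0)).and'
      (RudX.ex ht.tail (RudX.ex ht.tail.tail ?_)))
    exact (RudX.lt (IsPoly.var 0) (IsPoly.var 2)).and' (RudX.eq ht.tail.tail.tail
      (((((IsPoly.const 2).mul (IsPoly.var 1)).add (IsPoly.const 1)).mul (IsPoly.var 2)).add
        (IsPoly.var 0)))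
  refine h1.congr (fun X v => ?_)
  rw [testBit_iff]
  constructor
  · rintro ⟨q, r, hr, h⟩
    have h2 : 2 ^ s v ≤ t v := by
      rw [h]
      nlinarith [Nat.zero_le q, Nat.zero_le r, Nat.zero_le (q * 2 ^ s v)]
    have h3 : q ≤ t v := by
      rw [h]
      have : 1 ≤ 2 ^ s v := Nat.one_le_two_pow
      nlinarith
    exact ⟨2 ^ s v, h2, rfl, q, h3, r, by omega, hr, h⟩
  · rintro ⟨p, _, rfl, q, _, r, _, hr, h⟩
    exact ⟨q, r, hr, h⟩

end Pool.Agent.Helper20.Spectra
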