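import Pool.Agent.Helper20.Sparse.Base

/-!
# Words with few ones: definitions
-/

set_option autoImplicit false

namespace Pool.Agent.Helper20.Spectra

open FirstOrder FirstOrder.Language

/-- `W n` is, for all `n ≥ 1`, a nonempty set of words of length `n`, and it contains with a word
`P` all words with at most as many ones as `P` and without ones to the right of the last one of
`P`. -/
def LeftClosed (W : ℕ → Finset (Finset ℕ)) : Prop :=
  ∀ n, 1 ≤ n → (W n).Nonempty ∧ ∀ P ∈ W n, (∀ i ∈ P, i < n) ∧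
    ∀ Q : Finset ℕ, Q.card ≤ P.card → (∀ i ∈ Q, ∃ j ∈ P, i ≤ j) → Q ∈ W n

/-- `words ℓ h n`: the binary words of length `n` with at most `h n` ones, all of them among the
first `ℓ n` letters; a word is identified with its set of positions of ones, a subset of
`{0, …, n - 1}`. -/
def words (ℓ h : ℕ → ℕ) (n : ℕ) : Finset (Finset ℕ) :=
  {P ∈ (Finset.range (min (ℓ n) n)).powerset | P.card ≤ h n}

/-- The word `P` of length `n`, regarded as the structure `({0, …, n - 1}, ≤, P)`, has an expansion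
which satisfies the sentence `φ` (`le`, `U`: the symbols for the order and for `P`). -/
def Expands {L : FirstOrder.Language.{0, 0}} (le : L.Relations 2) (U : L.Relations 1)
    (φ : L.Sentence) (n : ℕ) (P : Finset ℕ) : Prop :=
  ∃ S : L.Structure (Fin n),
    (∀ x y : Fin n, S.RelMap le ![x, y] ↔ x ≤ y) ∧
    (∀ x : Fin n, S.RelMap U ![x] ↔ (x : ℕ) ∈ P) ∧
    @Sentence.Realize L (Fin n) S φ

/-- `T` is a generalised spectrum on the words `W n` of length `n`. -/
def GenOn (W : ℕ → Finset (Finset ℕ)) (T : ℕ → Finset ℕ → Prop) : Prop :=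
  ∃ (L : FirstOrder.Language.{0, 0}) (_ : Finite (Σ l, L.Functions l))
    (_ : Finite (Σ l, L.Relations l)) (le : L.Relations 2) (U : L.Relations 1) (φ : L.Sentence),
    ∀ n, 1 ≤ n → ∀ P ∈ W n, (T n P ↔ Expands le U φ n P)

/-- Sets of pairs `(v, P)`, `v ∈ ℕ^k`, `P` a finite set of numbers, which are definable by bounded
formulas of the language `≤, +, ·` with an additional unary predicate for `P`. -/
inductive BDef : (k : ℕ) → Set ((Fin k → ℕ) × Finset ℕ) → Prop
  | atom (k : ℕ) (p q : MvPolynomial (Fin k) ℕ) :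
      BDef k {x | MvPolynomial.eval x.1 p = MvPolynomial.eval x.1 q}
  | mem (k : ℕ) (p : MvPolynomial (Fin k) ℕ) : BDef k {x | MvPolynomial.eval x.1 p ∈ x.2}
  | compl (k : ℕ) (S : Set ((Fin k → ℕ) × Finset ℕ)) : BDef k S → BDef k Sᶜ
  | inter (k : ℕ) (S T : Set ((Fin k → ℕ) × Finset ℕ)) : BDef k S → BDef k T → BDef k (S ∩ T)
  | bex (k : ℕ) (p : MvPolynomial (Fin k) ℕ) (S : Set ((Fin (k + 1) → ℕ) × Finset ℕ)) :
      BDef (k + 1) S →
      BDef k {x | ∃ y : ℕ, y ≤ MvPolynomial.eval x.1 p ∧ (Fin.cons y x.1, x.2) ∈ S}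

/-- `T` is definable by a bounded formula `ψ(n, P)` on the words `W n` of length `n`. -/
def BddOn (W : ℕ → Finset (Finset ℕ)) (T : ℕ → Finset ℕ → Prop) : Prop :=
  ∃ B, BDef 1 B ∧ ∀ n, 1 ≤ n → ∀ P ∈ W n, (T n P ↔ ((fun _ => n, P) : (Fin 1 → ℕ) × Finset ℕ) ∈ B)

/-! ## Working form -/

/-- the signature of one unary predicate -/
abbrev one : Unit → ℕ := fun _ => 1

/-- the signature of `k` unary predicates -/
abbrev ones (k : ℕ) : Fin k → ℕ := fun _ => 1

/-- a finite set as a second-order variable -/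
def pset (P : Finset ℕ) : SOA one := fun _ w => w 0 ∈ P

/-- the sets of binary digits of numbers as second-order variables -/
def bset {k : ℕ} (v : Fin k → ℕ) : SOA (ones k) := fun j w => (v j).testBit (w 0) = true

/-- every existential second-order condition is bounded definable on the words -/
def CapX (W : ℕ → Finset (Finset ℕ)) : Prop :=
  ∀ R : SOA one → (Fin 1 → ℕ) → Prop, ESO one 1 R →
    ∃ ψ : SOA one → (Fin 1 → ℕ) → Prop, RudX one 1 ψ ∧
      ∀ n, 1 ≤ n → ∀ P ∈ W n, (R (pset P) (fun _ => n) ↔ ψ (pset P) (fun _ => n))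

/-- every spectrum is rudimentary -/
def SRud : Prop := ∀ A : Set ℕ, IsSpectrum A → IsRudimentary A

/-- binary words of length `S` can be coded by the words of length `n` in blocks of length
`2 ^ β` -/
def Room (ℓ h : ℕ → ℕ) (n β S : ℕ) : Prop :=
  1 ≤ β ∧ (S / β + 2) * 2 ^ β + 1 ≤ min (ℓ n) n ∧ S / β + 2 ≤ h n

lemma Room.mono {ℓ h : ℕ → ℕ} {n β S S' : ℕ} (hR : Room ℓ h n β S) (hS : S' ≤ S) :
    Room ℓ h n β S' := by
  obtain ⟨h1, h2, h3⟩ := hR
  have h4 : S' / β ≤ S / β := Nat.div_le_div_right hS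
  have h5 : (S' / β + 2) * 2 ^ β ≤ (S / β + 2) * 2 ^ β := Nat.mul_le_mul_right _ (by omega)
  exact ⟨h1, by omega, by omega⟩

lemma Room.le {ℓ h : ℕ → ℕ} {n β S : ℕ} (hR : Room ℓ h n β S) : S ≤ n := by
  obtain ⟨h1, h2, h3⟩ := hR
  have h4 : S < β * (S / β + 1) := Nat.lt_mul_div_succ S h1
  have h5 : β * (S / β + 1) ≤ 2 ^ β * (S / β + 2) :=
    Nat.mul_le_mul Nat.lt_two_pow_self.le (by omega)
  have h6 : 2 ^ β * (S / β + 2) = (S / β + 2) * 2 ^ β := Nat.mul_comm _ _
  omega

/-! ## Bounded formulas with a unary predicate -/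

lemma BDef.ofRudX {k : ℕ} {ψ : SOA one → (Fin k → ℕ) → Prop} (h : RudX one k ψ) :
    BDef k {x | ψ (pset x.2) x.1} := by
  induction h with
  | atom k p q => exact BDef.atom k p q
  | so k i q => exact BDef.mem k (q 0)
  | not k P _ ih => exact BDef.compl k _ ih
  | and k P Q _ _ ih ih' => exact BDef.inter k _ _ ih ih'
  | bex k p P _ ih => exact BDef.bex k p _ ih

lemma BDef.toRudX {k : ℕ} {B : Set ((Fin k → ℕ) × Finset ℕ)} (h : BDef k B) :
    ∃ ψ : SOA one → (Fin k → ℕ) → Prop, RudX one k ψ ∧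
      ∀ v P, (((v, P) : (Fin k → ℕ) × Finset ℕ) ∈ B ↔ ψ (pset P) v) := by
  induction h with
  | atom k p q => exact ⟨_, RudX.atom k p q, fun v P => Iff.rfl⟩
  | mem k p => exact ⟨_, RudX.so (a := one) k () (fun _ => p), fun v P => Iff.rfl⟩
  | compl k S _ ih =>
    obtain ⟨ψ, h1, h2⟩ := ih
    exact ⟨_, h1.not', fun v P => not_congr (h2 v P)⟩
  | inter k S T _ _ ih ih' =>
    obtain ⟨ψ, h1, h2⟩ := ih
    obtain ⟨ψ', h1', h2'⟩ := ih'
    exact ⟨_, h1.and' h1', fun v P => and_congr (h2 v P) (h2' v P)⟩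
  | bex k p S _ ih =>
    obtain ⟨ψ, h1, h2⟩ := ih
    exact ⟨_, RudX.bex k p _ h1, fun v P => exists_congr (fun y => and_congr Iff.rfl (h2 _ P))⟩

end Pool.Agent.Helper20.Spectra
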