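import Pool.Agent.Helper20.Spectra.Universal
import Pool.Agent.Helper20.Spectra.RFun

/-!
# Existential second-order bounded conditions with free second-order variables
-/

set_option autoImplicit false

namespace Pool.Agent.Helper20.Spectra

/-- two families of second-order variables -/
def app {κ ι : Type} {b : κ → ℕ} {a : ι → ℕ} (V : SOA b) (X : SOA a) : SOA (Sum.elim b a) :=
  fun i => match i with
    | Sum.inl i => V i
    | Sum.inr i => X i

/-- predicates with `m` numerical parameters and arity `r`, definable in every context -/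
def UD {κ : Type} (b : κ → ℕ) (m r : ℕ) (B : SOA b → (Fin m → ℕ) → (Fin r → ℕ) → Prop) : Prop :=
  ∀ (l : ℕ) (u : Fin m → (Fin l → ℕ) → ℕ) (w : Fin r → (Fin l → ℕ) → ℕ),
    (∀ i, IsPoly l (u i)) → (∀ i, IsPoly l (w i)) →
    RudX b l (fun X v => B X (fun i => u i v) (fun i => w i v))

/-- second-order substitution -/
theorem substSO {ι κ : Type} {a : ι → ℕ} {b : κ → ℕ} {k : ℕ}
    {P : SOA a → (Fin k → ℕ) → Prop} (h : RudX a k P) {m : ℕ}
    {B : ∀ i : ι, SOA b → (Fin m → ℕ) → (Fin (a i) → ℕ) → Prop}
    (hB : ∀ i, UD b m (a i) (B i)) : ∀ (l : ℕ)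
    (u : Fin m → (Fin l → ℕ) → ℕ) (_ : ∀ i, IsPoly l (u i))
    (f : Fin k → (Fin l → ℕ) → ℕ) (_ : ∀ i, IsPoly l (f i)),
    RudX b l (fun X v => P (fun i => B i X (fun j => u j v)) (fun j => f j v)) := by
  induction h with
  | atom k p q =>
    intro l u hu f hf
    exact RudX.eq (IsPoly.sub ⟨p, fun _ => rfl⟩ hf) (IsPoly.sub ⟨q, fun _ => rfl⟩ hf)
  | so k i q =>
    intro l u hu f hf
    exact hB i l u _ hu (fun j => IsPoly.sub ⟨q j, fun _ => rfl⟩ hf)
  | not k P _ ih =>
    intro l u hu f hf
    exact (ih l u hu f hf).not'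
  | and k P Q _ _ ih ih' =>
    intro l u hu f hf
    exact (ih l u hu f hf).and' (ih' l u hu f hf)
  | bex k p P _ ih =>
    intro l u hu f hf
    refine RudX.ex (t := fun v => MvPolynomial.eval (fun i => f i v) p)
      (P := fun X v x => P (fun i => B i X (fun j => u j v)) (Fin.cons x (fun i => f i v)))
      (IsPoly.sub ⟨p, fun _ => rfl⟩ hf) ?_
    refine (ih (l + 1) (fun j w => u j (Fin.tail w)) (fun j => (hu j).tail)
      (Fin.cons (fun w => w 0) (fun i w => f i (Fin.tail w))) ?_).congr ?_
    · intro i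
      refine Fin.cases ?_ (fun i => ?_) i
      · exact IsPoly.var 0
      · exact (hf i).tail
    · intro X w
      refine Iff.of_eq (congrArg _ ?_)
      funext i
      refine Fin.cases ?_ (fun i => ?_) i
      · rfl
      · rfl

/-- renaming of second-order variables -/
lemma UD.so {κ : Type} {b : κ → ℕ} {m : ℕ} (i : κ) :
    UD b m (b i) (fun X _ w => X i w) := by
  intro l u w _ hw
  exact RudX.so' i hw

/-- `R` is an existential second-order bounded condition -/
def ESO {κ : Type} (b : κ → ℕ) (k : ℕ) (R : SOA b → (Fin k → ℕ) → Prop) : Prop :=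
  ∃ (ι : Type) (_ : Finite ι) (a : ι → ℕ) (Φ : SOA (Sum.elim b a) → (Fin k → ℕ) → Prop),
    RudX (Sum.elim b a) k Φ ∧ ∀ V v, R V v ↔ ∃ X : SOA a, Φ (app V X) v

namespace ESO

variable {κ : Type} {b : κ → ℕ} {k : ℕ}

lemma congr {P Q : SOA b → (Fin k → ℕ) → Prop} (h : ESO b k P) (hPQ : ∀ X v, Q X v ↔ P X v) :
    ESO b k Q := by
  have : P = Q := by funext X v; exact propext (hPQ X v).symm
  exact this ▸ h

lemma of {P : SOA b → (Fin k → ℕ) → Prop} (h : RudX b k P) : ESO b k P := by
  refine ⟨Empty, inferInstance, fun x => x.elim, fun Y v => P (fun i => Y (Sum.inl i)) v, ?_, ?_⟩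
  · have h1 := substSO (b := Sum.elim b (fun x : Empty => x.elim)) (m := 0)
      (B := fun i X _ w => X (Sum.inl i) w) h
      (fun i => UD.so (b := Sum.elim b (fun x : Empty => x.elim)) (Sum.inl i)) k
      (fun i => i.elim0) (fun i => i.elim0) (fun i v => v i) (fun i => IsPoly.var i)
    exact h1
  · intro V v
    constructor
    · intro h; exact ⟨fun x => x.elim, h⟩
    · rintro ⟨_, h⟩; exact h

lemma and {P Q : SOA b → (Fin k → ℕ) → Prop} (hP : ESO b k P) (hQ : ESO b k Q) :
    ESO b k (fun V v => P V v ∧ Q V v) := by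
  obtain ⟨ι, _, a, Φ, hΦ, hP⟩ := hP
  obtain ⟨ι', _, a', Φ', hΦ', hQ⟩ := hQ
  refine ⟨ι ⊕ ι', inferInstance, Sum.elim a a', fun Y v =>
    Φ (fun i => match i with
      | Sum.inl i => Y (Sum.inl i)
      | Sum.inr i => Y (Sum.inr (Sum.inl i))) v ∧
    Φ' (fun i => match i with
      | Sum.inl i => Y (Sum.inl i)
      | Sum.inr i => Y (Sum.inr (Sum.inr i))) v, ?_, ?_⟩
  · refine RudX.and' ?_ ?_
    · refine (substSO (b := Sum.elim b (Sum.elim a a')) (m := 0)
        (B := fun i X _ w => match i, w with
          | Sum.inl i, w => X (Sum.inl i) w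
          | Sum.inr i, w => X (Sum.inr (Sum.inl i)) w) hΦ ?_ k
        (fun i => i.elim0) (fun i => i.elim0) (fun i v => v i) (fun i => IsPoly.var i)).congr ?_
      · rintro (i | i)
        · exact UD.so (b := Sum.elim b (Sum.elim a a')) (Sum.inl i)
        · exact UD.so (b := Sum.elim b (Sum.elim a a')) (Sum.inr (Sum.inl i))
      · intro X v
        refine Iff.of_eq (congrArg (fun Y => Φ Y v) ?_)
        funext i
        rcases i with i | i <;> rfl
    · refine (substSO (b := Sum.elim b (Sum.elim a a')) (m := 0)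
        (B := fun i X _ w => match i, w with
          | Sum.inl i, w => X (Sum.inl i) w
          | Sum.inr i, w => X (Sum.inr (Sum.inr i)) w) hΦ' ?_ k
        (fun i => i.elim0) (fun i => i.elim0) (fun i v => v i) (fun i => IsPoly.var i)).congr ?_
      · rintro (i | i)
        · exact UD.so (b := Sum.elim b (Sum.elim a a')) (Sum.inl i)
        · exact UD.so (b := Sum.elim b (Sum.elim a a')) (Sum.inr (Sum.inr i))
      · intro X v
        refine Iff.of_eq (congrArg (fun Y => Φ' Y v) ?_)
        funext i
        rcases i with i | i <;> rfl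
  · intro V v
    refine (and_congr (hP V v) (hQ V v)).trans ?_
    constructor
    · rintro ⟨⟨X, hX⟩, X', hX'⟩
      refine ⟨app X X', ?_, ?_⟩
      · have e : (fun i => match i with
            | Sum.inl i => app V (app X X') (Sum.inl i)
            | Sum.inr i => app V (app X X') (Sum.inr (Sum.inl i)) : SOA (Sum.elim b a)) =
            app V X := by
          funext i
          rcases i with i | i <;> rfl
        exact e ▸ hX
      · have e : (fun i => match i with
            | Sum.inl i => app V (app X X') (Sum.inl i)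
            | Sum.inr i => app V (app X X') (Sum.inr (Sum.inr i)) : SOA (Sum.elim b a')) =
            app V X' := by
          funext i
          rcases i with i | i <;> rfl
        exact e ▸ hX'
    · rintro ⟨X, hX, hX'⟩
      refine ⟨⟨fun i => X (Sum.inl i), ?_⟩, fun i => X (Sum.inr i), ?_⟩
      · have e : (fun i => match i with
            | Sum.inl i => app V X (Sum.inl i)
            | Sum.inr i => app V X (Sum.inr (Sum.inl i)) : SOA (Sum.elim b a)) =
            app V (fun i => X (Sum.inl i)) := by
          funext i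
          rcases i with i | i <;> rfl
        exact e ▸ hX
      · have e : (fun i => match i with
            | Sum.inl i => app V X (Sum.inl i)
            | Sum.inr i => app V X (Sum.inr (Sum.inr i)) : SOA (Sum.elim b a')) =
            app V (fun i => X (Sum.inr i)) := by
          funext i
          rcases i with i | i <;> rfl
        exact e ▸ hX'

/-- bounded existential number quantifier -/
lemma ex {t : (Fin k → ℕ) → ℕ} (ht : IsPoly k t) {P : SOA b → (Fin k → ℕ) → ℕ → Prop}
    (h : ESO b (k + 1) (fun X w => P X (Fin.tail w) (w 0))) :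
    ESO b k (fun X v => ∃ x, x ≤ t v ∧ P X v x) := by
  obtain ⟨ι, hι, a, Φ, hΦ, hP⟩ := h
  refine ⟨ι, hι, a, fun Y v => ∃ x, x ≤ t v ∧ Φ Y (Fin.cons x v), ?_, ?_⟩
  · refine RudX.ex ht (P := fun Y v x => Φ Y (Fin.cons x v)) (hΦ.congr ?_)
    intro X w
    rw [Fin.cons_self_tail]
  · intro V v
    have h1 : ∀ x, P V v x ↔ ∃ X : SOA a, Φ (app V X) (Fin.cons x v) := by
      intro x
      have := hP V (Fin.cons x v)
      simpa using this
    simp only [h1]
    constructor
    · rintro ⟨x, hx, X, hX⟩; exact ⟨X, x, hx, hX⟩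
    · rintro ⟨X, x, hx, hX⟩; exact ⟨x, hx, X, hX⟩

/-- existential quantification of second-order variables -/
lemma exSO {κ' : Type} [Finite κ'] {b' : κ' → ℕ}
    {P : SOA (Sum.elim b b') → (Fin k → ℕ) → Prop} (h : ESO (Sum.elim b b') k P) :
    ESO b k (fun V v => ∃ W : SOA b', P (app V W) v) := by
  obtain ⟨ι, hι, a, Φ, hΦ, hP⟩ := h
  refine ⟨κ' ⊕ ι, inferInstance, Sum.elim b' a, fun Y v =>
    Φ (fun i => match i with
      | Sum.inl (Sum.inl i) => Y (Sum.inl i)
      | Sum.inl (Sum.inr i) => Y (Sum.inr (Sum.inl i))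
      | Sum.inr i => Y (Sum.inr (Sum.inr i))) v, ?_, ?_⟩
  · refine (substSO (b := Sum.elim b (Sum.elim b' a)) (m := 0)
      (B := fun i X _ w => match i, w with
        | Sum.inl (Sum.inl i), w => X (Sum.inl i) w
        | Sum.inl (Sum.inr i), w => X (Sum.inr (Sum.inl i)) w
        | Sum.inr i, w => X (Sum.inr (Sum.inr i)) w) hΦ ?_ k
      (fun i => i.elim0) (fun i => i.elim0) (fun i v => v i) (fun i => IsPoly.var i)).congr ?_
    · rintro ((i | i) | i)
      · exact UD.so (b := Sum.elim b (Sum.elim b' a)) (Sum.inl i)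
      · exact UD.so (b := Sum.elim b (Sum.elim b' a)) (Sum.inr (Sum.inl i))
      · exact UD.so (b := Sum.elim b (Sum.elim b' a)) (Sum.inr (Sum.inr i))
    · intro X v
      refine Iff.of_eq (congrArg (fun Y => Φ Y v) ?_)
      funext i
      rcases i with (i | i) | i <;> rfl
  · intro V v
    refine (exists_congr (fun W => hP (app V W) v)).trans ?_
    constructor
    · rintro ⟨W, X, hX⟩
      refine ⟨app W X, ?_⟩
      have e : (fun i => match i with
          | Sum.inl (Sum.inl i) => app V (app W X) (Sum.inl i)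
          | Sum.inl (Sum.inr i) => app V (app W X) (Sum.inr (Sum.inl i))
          | Sum.inr i => app V (app W X) (Sum.inr (Sum.inr i)) :
            SOA (Sum.elim (Sum.elim b b') a)) = app (app V W) X := by
        funext i
        rcases i with (i | i) | i <;> rfl
      rw [← e] at hX
      exact hX
    · rintro ⟨X, hX⟩
      refine ⟨fun i => X (Sum.inl i), fun i => X (Sum.inr i), ?_⟩
      have e : (fun i => match i with
          | Sum.inl (Sum.inl i) => app V X (Sum.inl i)
          | Sum.inl (Sum.inr i) => app V X (Sum.inr (Sum.inl i))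
          | Sum.inr i => app V X (Sum.inr (Sum.inr i)) :
            SOA (Sum.elim (Sum.elim b b') a)) =
          app (app V (fun i => X (Sum.inl i))) (fun i => X (Sum.inr i)) := by
        funext i
        rcases i with (i | i) | i <;> rfl
      exact e ▸ hX

/-- substitution of definable predicates and polynomials -/
lemma subst {κ' : Type} {b' : κ' → ℕ} {P : SOA b → (Fin k → ℕ) → Prop} (h : ESO b k P)
    {m : ℕ} {B : ∀ i : κ, SOA b' → (Fin m → ℕ) → (Fin (b i) → ℕ) → Prop}
    (hB : ∀ i, UD b' m (b i) (B i)) {f : Fin k → (Fin m → ℕ) → ℕ} (hf : ∀ i, IsPoly m (f i)) :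
    ESO b' m (fun X v => P (fun i => B i X v) (fun j => f j v)) := by
  obtain ⟨ι, hι, a, Φ, hΦ, hP⟩ := h
  refine ⟨ι, hι, a, fun Y v =>
    Φ (fun i => match i with
      | Sum.inl i => B i (fun j => Y (Sum.inl j)) v
      | Sum.inr i => Y (Sum.inr i)) (fun j => f j v), ?_, ?_⟩
  · refine (substSO (b := Sum.elim b' a) (m := m)
      (B := fun i X u w => match i, w with
        | Sum.inl i, w => B i (fun j => X (Sum.inl j)) u w
        | Sum.inr i, w => X (Sum.inr i) w) hΦ ?_ m
      (fun i v => v i) (fun i => IsPoly.var i) f hf).congr ?_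
    · rintro (i | i)
      · intro l u w hu hw
        have h1 := hB i l u w hu hw
        exact substSO (b := Sum.elim b' a) (m := 0)
          (B := fun i X _ w => X (Sum.inl i) w) h1
          (fun i => UD.so (b := Sum.elim b' a) (Sum.inl i)) l
          (fun i => i.elim0) (fun i => i.elim0) (fun i v => v i) (fun i => IsPoly.var i)
      · exact UD.so (b := Sum.elim b' a) (Sum.inr i)
    · intro X v
      refine Iff.of_eq (congrArg (fun Y => Φ Y _) ?_)
      funext i
      rcases i with i | i <;> rfl
  · intro V v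
    refine (hP _ _).trans (exists_congr (fun X => ?_))
    refine Iff.of_eq (congrArg (fun Y => Φ Y _) ?_)
    funext i
    rcases i with i | i <;> rfl

/-- substitution of polynomials -/
lemma substNum {m : ℕ} {P : SOA b → (Fin k → ℕ) → Prop} (h : ESO b k P)
    {f : Fin k → (Fin m → ℕ) → ℕ} (hf : ∀ i, IsPoly m (f i)) :
    ESO b m (fun X v => P X (fun j => f j v)) :=
  h.subst (B := fun i X _ w => X i w) (fun i => UD.so i) hf

end ESO

end Pool.Agent.Helper20.Spectra
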