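import Pool.Agent.Helper20.Sparse.Def

/-!
# Arithmetic of long binary numbers is existential second-order
-/

set_option autoImplicit false
set_option linter.unusedSimpArgs false

namespace Pool.Agent.Helper20.Spectra

open Classical in
/-- the number with binary digits `V` below `n` -/
noncomputable def num (n : ℕ) (V : ℕ → Prop) : ℕ :=
  ∑ i ∈ Finset.range n, if V i then 2 ^ i else 0

lemma num_zero (V : ℕ → Prop) : num 0 V = 0 := by simp [num]

open Classical in
lemma num_succ (n : ℕ) (V : ℕ → Prop) :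
    num (n + 1) V = num n V + if V n then 2 ^ n else 0 := by
  simp [num, Finset.sum_range_succ]

lemma num_lt (n : ℕ) (V : ℕ → Prop) : num n V < 2 ^ n := by
  induction n with
  | zero => simp [num]
  | succ n ih =>
    rw [num_succ, pow_succ]
    split_ifs <;> omega

lemma num_congr {n : ℕ} {V W : ℕ → Prop} (h : ∀ i < n, (V i ↔ W i)) : num n V = num n W := by
  unfold num
  refine Finset.sum_congr rfl (fun i hi => ?_)
  rw [Finset.mem_range] at hi
  by_cases hV : V i
  · rw [if_pos hV, if_pos ((h i hi).1 hV)]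
  · rw [if_neg hV, if_neg (fun hW => hV ((h i hi).2 hW))]

lemma testBit_num (n : ℕ) (V : ℕ → Prop) (i : ℕ) : (num n V).testBit i = true ↔ i < n ∧ V i := by
  induction n with
  | zero => simp [num]
  | succ n ih =>
    have hlt := num_lt n V
    rw [num_succ]
    by_cases hV : V n
    · rw [if_pos hV, add_comm]
      rcases Nat.lt_trichotomy i n with h1 | h1 | h1
      · rw [Nat.testBit_two_pow_add_gt h1, ih]
        constructor
        · rintro ⟨_, h⟩; exact ⟨by omega, h⟩
        · rintro ⟨_, h⟩; exact ⟨by omega, h⟩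
      · subst h1
        rw [Nat.testBit_two_pow_add_eq, Nat.testBit_lt_two_pow hlt]
        simp [hV]
      · rw [Nat.testBit_lt_two_pow]
        · constructor
          · intro h; simp at h
          · rintro ⟨h, _⟩; omega
        · calc 2 ^ n + num n V < 2 ^ (n + 1) := by rw [pow_succ]; omega
            _ ≤ 2 ^ i := Nat.pow_le_pow_right (by omega) h1
    · rw [if_neg hV, add_zero, ih]
      constructor
      · rintro ⟨_, h⟩; exact ⟨by omega, h⟩
      · rintro ⟨h1, h⟩
        refine ⟨?_, h⟩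
        rcases Nat.lt_or_ge i n with h2 | h2
        · exact h2
        · have : i = n := by omega
          subst this
          exact absurd h hV

lemma num_testBit {n v : ℕ} (h : v < 2 ^ n) : num n (fun i => v.testBit i = true) = v := by
  apply Nat.eq_of_testBit_eq
  intro i
  rw [Bool.eq_iff_iff, testBit_num]
  constructor
  · rintro ⟨_, h1⟩; exact h1
  · intro h1
    refine ⟨?_, h1⟩
    by_contra hge
    rw [Nat.testBit_lt_two_pow (h.trans_le (Nat.pow_le_pow_right (by omega) (by omega)))] at h1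
    simp at h1

/-! ## Addition -/

/-- the carry condition for the addition of two long numbers -/
def AddC (n : ℕ) (A B C K : ℕ → Prop) : Prop :=
  ¬ K 0 ∧ ¬ K n ∧ ∀ i, i ≤ n → (i < n →
    ((C i ↔ (A i ↔ (B i ↔ K i))) ∧
      (K (i + 1) ↔ ((A i ∧ B i) ∨ (A i ∧ K i) ∨ (B i ∧ K i)))))

lemma addC_num {n : ℕ} {A B C K : ℕ → Prop} (h : AddC n A B C K) :
    num n A + num n B = num n C := by
  classical
  obtain ⟨h0, hn, h1⟩ := h
  have key : ∀ i, i ≤ n → num i A + num i B = num i C + if K i then 2 ^ i else 0 := by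
    intro i
    induction i with
    | zero => intro _; simp [num, h0]
    | succ i ih =>
      intro hi
      have h2 := ih (by omega)
      obtain ⟨h3, h4⟩ := h1 i (by omega) (by omega)
      simp only [num_succ, pow_succ]
      by_cases hA : A i <;> by_cases hB : B i <;> by_cases hK : K i <;>
        simp only [hA, hB, hK, if_true, if_false, iff_true, iff_false, not_true, not_false_iff,
          true_and, and_true, false_and, and_false, or_true, true_or, or_false, false_or,
          iff_self, not_not] at h2 h3 h4 ⊢ <;>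
        simp only [h3, h4, if_true, if_false] <;> omega
  have h2 := key n le_rfl
  rw [if_neg hn, add_zero] at h2
  exact h2

lemma exists_addC {n : ℕ} {A B C : ℕ → Prop} (h : num n A + num n B = num n C) :
    ∃ K, AddC n A B C K := by
  classical
  refine ⟨fun i => 2 ^ i ≤ num i A + num i B, by simp [num], ?_, ?_⟩
  · have := num_lt n C
    show ¬ (2 ^ n ≤ num n A + num n B)
    omega
  · have hC : ∀ i, i ≤ n → num i C = (num i A + num i B) % 2 ^ i := by
      intro i hi
      have e : ∀ V : ℕ → Prop, num i V = num n V % 2 ^ i := by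
        intro V
        apply Nat.eq_of_testBit_eq
        intro j
        rw [Nat.testBit_mod_two_pow, Bool.eq_iff_iff, testBit_num, Bool.and_eq_true,
          decide_eq_true_iff, testBit_num]
        constructor
        · rintro ⟨h1, h2⟩; exact ⟨h1, by omega, h2⟩
        · rintro ⟨h1, _, h2⟩; exact ⟨h1, h2⟩
      rw [e C, ← h, Nat.add_mod, ← e A, ← e B]
    intro i hi1 hi
    have h1 := hC i hi1
    have h2 := hC (i + 1) hi
    have hA := num_lt i A
    have hB := num_lt i B
    have hm : (num i A + num i B) % 2 ^ i = if 2 ^ i ≤ num i A + num i B then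
        num i A + num i B - 2 ^ i else num i A + num i B := by
      split_ifs with h3
      · rw [Nat.mod_eq_sub_mod h3, Nat.mod_eq_of_lt (by omega)]
      · exact Nat.mod_eq_of_lt (by omega)
    have hm' : ∀ x, x < 4 * 2 ^ i → x % (2 ^ i * 2) = if 2 ^ i * 2 ≤ x then x - 2 ^ i * 2 else x := by
      intro x hx
      split_ifs with h3
      · rw [Nat.mod_eq_sub_mod h3, Nat.mod_eq_of_lt (by omega)]
      · exact Nat.mod_eq_of_lt (by omega)
    rw [num_succ, num_succ, num_succ, pow_succ, hm' _ (by split_ifs <;> omega)] at h2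
    rw [hm] at h1
    show (C i ↔ (A i ↔ (B i ↔ 2 ^ i ≤ num i A + num i B))) ∧
      (2 ^ (i + 1) ≤ num (i + 1) A + num (i + 1) B ↔ _)
    rw [num_succ, num_succ, pow_succ]
    by_cases hAi : A i <;> by_cases hBi : B i <;> by_cases hCi : C i <;>
      by_cases hK : 2 ^ i ≤ num i A + num i B <;>
      simp only [hAi, hBi, hCi, hK, if_true, if_false, iff_true, iff_false, not_true,
        not_false_iff, true_and, and_true, false_and, and_false, or_true, true_or, or_false,
        false_or, iff_self, not_not] at h1 h2 ⊢ <;>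
      (try split_ifs at h2) <;> omega

lemma exists_addC_iff {n : ℕ} {A B C : ℕ → Prop} :
    (∃ K, AddC n A B C K) ↔ num n A + num n B = num n C :=
  ⟨fun ⟨_, h⟩ => addC_num h, exists_addC⟩

/-! ## Multiplication -/

/-- the condition for the multiplication of two long numbers: partial sums `S i`, carries `K i` -/
def MulC (n : ℕ) (A B C : ℕ → Prop) (S K : ℕ → ℕ → Prop) : Prop :=
  (∀ x, x ≤ n → (x < n → ¬ S 0 x)) ∧ (∀ x, x ≤ n → (x < n → (S n x ↔ C x))) ∧
  ∀ i, i ≤ n → (i < n →
    ((¬ A i ∧ ∀ x, x ≤ n → (x < n → (S (i + 1) x ↔ S i x))) ∨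
      (A i ∧ (∀ x, x ≤ n → (x < n → (n ≤ x + i → ¬ B x))) ∧
        AddC n (S i) (fun x => ∃ y, y ≤ x ∧ (x = y + i ∧ B y)) (S (i + 1)) (K i))))

lemma num_shift {n i : ℕ} {B : ℕ → Prop} (hB : ∀ x, x < n → n ≤ x + i → ¬ B x) :
    num n (fun x => ∃ y, y ≤ x ∧ (x = y + i ∧ B y)) = 2 ^ i * num n B := by
  have hlt : 2 ^ i * num n B < 2 ^ n ∨ n < i := by
    rcases Nat.lt_or_ge n i with h | h
    · exact Or.inr h
    · left
      have h1 : num n B < 2 ^ (n - i) := by
        apply Nat.lt_pow_two_of_testBit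
        intro j hj
        by_contra h2
        rw [Bool.not_eq_false, testBit_num] at h2
        exact hB j h2.1 (by omega) h2.2
      calc 2 ^ i * num n B < 2 ^ i * 2 ^ (n - i) := Nat.mul_lt_mul_of_pos_left h1 (by positivity)
        _ = 2 ^ n := by rw [← pow_add]; congr 1; omega
  apply Nat.eq_of_testBit_eq
  intro j
  rw [Bool.eq_iff_iff, testBit_num, Nat.testBit_two_pow_mul, Bool.and_eq_true,
    decide_eq_true_iff, testBit_num]
  constructor
  · rintro ⟨h1, y, h2, rfl, h3⟩
    refine ⟨by omega, by omega, ?_⟩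
    rw [Nat.add_sub_cancel]
    exact h3
  · rintro ⟨h1, h2, h3⟩
    refine ⟨?_, j - i, by omega, by omega, h3⟩
    by_contra h4
    exact hB (j - i) h2 (by omega) h3

lemma mulC_num {n : ℕ} {A B C : ℕ → Prop} {S K : ℕ → ℕ → Prop} (h : MulC n A B C S K) :
    num n A * num n B = num n C := by
  obtain ⟨h0, hn, h1⟩ := h
  have key : ∀ i, i ≤ n → num n (S i) = num i A * num n B := by
    intro i
    induction i with
    | zero =>
      intro _
      rw [num_zero, zero_mul]
      have : num n (S 0) = num n (fun _ => False) :=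
        num_congr (fun i hi => iff_false_intro (h0 i hi.le hi))
      rw [this]
      simp [num]
    | succ i ih =>
      intro hi
      have h2 := ih (by omega)
      rw [num_succ]
      rcases h1 i (by omega) (by omega) with ⟨h3, h4⟩ | ⟨h3, h4, h5⟩
      · rw [if_neg h3, add_zero, ← h2]
        exact num_congr (fun x hx => h4 x hx.le hx)
      · rw [if_pos h3, add_mul, ← h2, ← addC_num h5, num_shift (fun x hx => h4 x hx.le hx)]
  rw [← key n le_rfl]
  exact num_congr (fun x hx => hn x hx.le hx)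

lemma exists_mulC {n : ℕ} {A B C : ℕ → Prop} (h : num n A * num n B = num n C) :
    ∃ S K, MulC n A B C S K := by
  let S : ℕ → ℕ → Prop := fun i x => (num i A * num n B).testBit x = true
  have hS : ∀ i, i ≤ n → num n (S i) = num i A * num n B := by
    intro i hi
    apply num_testBit
    calc num i A * num n B ≤ num n A * num n B := by
          apply Nat.mul_le_mul_right
          unfold num
          exact Finset.sum_le_sum_of_subset (Finset.range_subset_range.2 hi)
      _ = num n C := h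
      _ < 2 ^ n := num_lt n C
  have hstep : ∀ i, ∃ K : ℕ → Prop, i < n → A i →
      AddC n (S i) (fun x => ∃ y, y ≤ x ∧ (x = y + i ∧ B y)) (S (i + 1)) K ∧
        ∀ x, x < n → n ≤ x + i → ¬ B x := by
    intro i
    by_cases hi : i < n ∧ A i
    · have h1 : num (i + 1) A = num i A + 2 ^ i := by rw [num_succ, if_pos hi.2]
      have h2 : ∀ x, x < n → n ≤ x + i → ¬ B x := by
        intro x hx hxi hB
        have h3 : 2 ^ x ≤ num n B := by
          by_contra h4
          have h5 : (num n B).testBit x = false := Nat.testBit_lt_two_pow (by omega)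
          have h6 := (testBit_num n B x).2 ⟨hx, hB⟩
          rw [h5] at h6
          simp at h6
        have h4 : 2 ^ i * num n B ≤ num (i + 1) A * num n B :=
          Nat.mul_le_mul_right _ (by omega)
        have h5 : 2 ^ n ≤ 2 ^ i * num n B := by
          calc 2 ^ n ≤ 2 ^ (i + x) := Nat.pow_le_pow_right (by omega) (by omega)
            _ = 2 ^ i * 2 ^ x := pow_add _ _ _
            _ ≤ _ := Nat.mul_le_mul_left _ h3
        have h6 := num_lt n (S (i + 1))
        rw [hS (i + 1) hi.1] at h6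
        omega
      obtain ⟨K, hK⟩ := exists_addC (n := n) (A := S i)
        (B := fun x => ∃ y, y ≤ x ∧ (x = y + i ∧ B y)) (C := S (i + 1)) (by
          rw [hS i hi.1.le, hS (i + 1) hi.1, num_shift h2, h1]
          ring)
      exact ⟨K, fun _ _ => ⟨hK, h2⟩⟩
    · exact ⟨fun _ => False, fun h1 h2 => absurd ⟨h1, h2⟩ hi⟩
  choose K hK using hstep
  refine ⟨S, K, ?_, ?_, ?_⟩
  · intro x _ _
    simp [S, num]
  · intro x _ hx
    show (num n A * num n B).testBit x = true ↔ C x
    rw [h, testBit_num]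
    exact ⟨fun h => h.2, fun h => ⟨hx, h⟩⟩
  · intro i _ hi
    by_cases hA : A i
    · right
      obtain ⟨h1, h2⟩ := hK i hi hA
      exact ⟨hA, fun x _ hx => h2 x hx, h1⟩
    · left
      refine ⟨hA, fun x _ _ => ?_⟩
      show (num (i + 1) A * num n B).testBit x = true ↔ _
      rw [num_succ, if_neg hA, add_zero]

lemma exists_mulC_iff {n : ℕ} {A B C : ℕ → Prop} :
    (∃ S K, MulC n A B C S K) ↔ num n A * num n B = num n C :=
  ⟨fun ⟨_, _, h⟩ => mulC_num h, exists_mulC⟩

/-! ## Definability -/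

/-- unary predicates definable in every context -/
def U1 {κ : Type} (b : κ → ℕ) (l : ℕ) (A : SOA b → (Fin l → ℕ) → ℕ → Prop) : Prop :=
  ∀ (m : ℕ) (u : Fin l → (Fin m → ℕ) → ℕ) (t : (Fin m → ℕ) → ℕ), (∀ i, IsPoly m (u i)) →
    IsPoly m t → RudX b m (fun X v => A X (fun i => u i v) (t v))

lemma U1.here {κ : Type} {b : κ → ℕ} {l : ℕ} {A : SOA b → (Fin l → ℕ) → ℕ → Prop}
    (hA : U1 b l A) {m : ℕ} {u : Fin l → (Fin m → ℕ) → ℕ} (hu : ∀ i, IsPoly m (u i))
    {t : (Fin m → ℕ) → ℕ} (ht : IsPoly m t) :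
    RudX b m (fun X v => A X (fun i => u i v) (t v)) := hA m u t hu ht

lemma U1.tail {κ : Type} {b : κ → ℕ} {l : ℕ} {A : SOA b → (Fin l → ℕ) → ℕ → Prop}
    (hA : U1 b l A) : U1 b (l + 1) (fun X v => A X (Fin.tail v)) :=
  fun m u t hu ht => hA m (fun i => u i.succ) t (fun i => hu i.succ) ht

lemma AddC_rudX {κ : Type} {b : κ → ℕ} {l : ℕ} {n : (Fin l → ℕ) → ℕ} (hn : IsPoly l n)
    {A B C K : SOA b → (Fin l → ℕ) → ℕ → Prop} (hA : U1 b l A) (hB : U1 b l B) (hC : U1 b l C)
    (hK : U1 b l K) :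
    RudX b l (fun X v => AddC (n v) (A X v) (B X v) (C X v) (K X v)) := by
  unfold AddC
  have hv : ∀ i : Fin l, IsPoly l (fun v => v i) := fun i => IsPoly.var i
  have hw : ∀ i : Fin l, IsPoly (l + 1) (fun w => Fin.tail w i) := fun i => IsPoly.var i.succ
  have a0 := hA.here hw (IsPoly.var 0)
  have b0 := hB.here hw (IsPoly.var 0)
  have c0 := hC.here hw (IsPoly.var 0)
  have k0 := hK.here hw (IsPoly.var 0)
  have k1 := hK.here hw ((IsPoly.var 0).add (IsPoly.const 1))
  exact (RudX.not' (hK.here hv (IsPoly.const 0))).and' ((RudX.not' (hK.here hv hn)).and'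
    (RudX.all hn (RudX.imp (RudX.lt (IsPoly.var 0) hn.tail) (RudX.and'
      (RudX.iff c0 (RudX.iff a0 (RudX.iff b0 k0)))
      (RudX.iff k1 ((a0.and' b0).or ((a0.and' k0).or (b0.and' k0))))))))

theorem eso_add : ESO (ones 3) 1 (fun V v =>
    num (v 0) (fun i => V 0 (fun _ => i)) + num (v 0) (fun i => V 1 (fun _ => i)) =
      num (v 0) (fun i => V 2 (fun _ => i))) := by
  have h1 : ESO (Sum.elim (ones 3) one) 1 (fun Y v => AddC (v 0)
      (fun i => Y (Sum.inl 0) (fun _ => i)) (fun i => Y (Sum.inl 1) (fun _ => i))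
      (fun i => Y (Sum.inl 2) (fun _ => i)) (fun i => Y (Sum.inr ()) (fun _ => i))) := by
    have hU : ∀ i, U1 (Sum.elim (ones 3) one) 1 (fun Y _ x => Y (Sum.inl i) (fun _ => x)) :=
      fun i m u t _ ht => RudX.so' (a := Sum.elim (ones 3) one) (Sum.inl i) (fun _ => ht)
    have hU' : U1 (Sum.elim (ones 3) one) 1 (fun Y _ x => Y (Sum.inr ()) (fun _ => x)) :=
      fun m u t _ ht => RudX.so' (a := Sum.elim (ones 3) one) (Sum.inr ()) (fun _ => ht)
    exact ESO.of (AddC_rudX (IsPoly.var 0) (hU 0) (hU 1) (hU 2) hU')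
  refine h1.exSO.congr (fun V v => ?_)
  rw [← exists_addC_iff]
  constructor
  · rintro ⟨K, hK⟩; exact ⟨fun _ w => K (w 0), hK⟩
  · rintro ⟨W, hW⟩; exact ⟨fun i => W () (fun _ => i), hW⟩

lemma MulC_rudX {κ : Type} {b : κ → ℕ} {l : ℕ} {n : (Fin l → ℕ) → ℕ} (hn : IsPoly l n)
    {A B C : SOA b → (Fin l → ℕ) → ℕ → Prop} (hA : U1 b l A) (hB : U1 b l B) (hC : U1 b l C)
    {S K : SOA b → ℕ → ℕ → Prop}
    (hS : ∀ (m : ℕ) (s t : (Fin m → ℕ) → ℕ), IsPoly m s → IsPoly m t →
      RudX b m (fun X v => S X (s v) (t v)))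
    (hK : ∀ (m : ℕ) (s t : (Fin m → ℕ) → ℕ), IsPoly m s → IsPoly m t →
      RudX b m (fun X v => K X (s v) (t v))) :
    RudX b l (fun X v => MulC (n v) (A X v) (B X v) (C X v) (S X) (K X)) := by
  unfold MulC
  have hw : ∀ i : Fin l, IsPoly (l + 1) (fun w => Fin.tail w i) := fun i => IsPoly.var i.succ
  have hw2 : ∀ i : Fin l, IsPoly (l + 1 + 1) (fun w => Fin.tail (Fin.tail w) i) :=
    fun i => IsPoly.var i.succ.succ
  have a0 := hA.here hw (IsPoly.var 0)
  refine (RudX.all hn (RudX.imp (RudX.lt (IsPoly.var 0) hn.tail)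
    (RudX.not' (hS _ _ _ (IsPoly.const 0) (IsPoly.var 0))))).and' ((RudX.all hn (RudX.imp
      (RudX.lt (IsPoly.var 0) hn.tail) (RudX.iff (hS _ _ _ hn.tail (IsPoly.var 0))
        (hC.here hw (IsPoly.var 0))))).and' (RudX.all hn (RudX.imp
          (RudX.lt (IsPoly.var 0) hn.tail) (RudX.or (a0.not'.and' (RudX.all hn.tail
            (RudX.imp (RudX.lt (IsPoly.var 0) hn.tail.tail) (RudX.iff
              (hS _ _ _ ((IsPoly.var 1).add (IsPoly.const 1)) (IsPoly.var 0))
              (hS _ _ _ (IsPoly.var 1) (IsPoly.var 0))))))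
            (a0.and' (RudX.and' (RudX.all hn.tail (RudX.imp
              (RudX.lt (IsPoly.var 0) hn.tail.tail) (RudX.imp
                (RudX.le hn.tail.tail ((IsPoly.var 0).add (IsPoly.var 1)))
                (RudX.not' (hB.here hw2 (IsPoly.var 0)))))) ?_))))))
  exact AddC_rudX (l := l + 1) hn.tail (A := fun X w => S X (w 0))
    (B := fun X w x => ∃ y, y ≤ x ∧ (x = y + w 0 ∧ B X (Fin.tail w) y))
    (C := fun X w => S X (w 0 + 1)) (K := fun X w => K X (w 0))
    (fun m u t hu ht => hS m _ _ (hu 0) ht)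
    (fun m u t hu ht => RudX.ex ht ((RudX.eq ht.tail ((IsPoly.var 0).add (hu 0).tail)).and'
      (hB (m + 1) (fun i w => u i.succ (Fin.tail w)) _ (fun i => (hu i.succ).tail)
        (IsPoly.var 0))))
    (fun m u t hu ht => hS m _ _ ((hu 0).add (IsPoly.const 1)) ht)
    (fun m u t hu ht => hK m _ _ (hu 0) ht)

theorem eso_mul : ESO (ones 3) 1 (fun V v =>
    num (v 0) (fun i => V 0 (fun _ => i)) * num (v 0) (fun i => V 1 (fun _ => i)) =
      num (v 0) (fun i => V 2 (fun _ => i))) := by
  let tw : Fin 2 → ℕ := fun _ => 2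
  have h1 : ESO (Sum.elim (ones 3) tw) 1 (fun Y v => MulC (v 0)
      (fun i => Y (Sum.inl 0) (fun _ => i)) (fun i => Y (Sum.inl 1) (fun _ => i))
      (fun i => Y (Sum.inl 2) (fun _ => i)) (fun i x => Y (Sum.inr 0) ![i, x])
      (fun i x => Y (Sum.inr 1) ![i, x])) := by
    have hU : ∀ i, U1 (Sum.elim (ones 3) tw) 1 (fun Y _ x => Y (Sum.inl i) (fun _ => x)) :=
      fun i m u t _ ht => RudX.so' (a := Sum.elim (ones 3) tw) (Sum.inl i) (fun _ => ht)
    have hU' : ∀ j : Fin 2, ∀ (m : ℕ) (s t : (Fin m → ℕ) → ℕ), IsPoly m s → IsPoly m t →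
        RudX (Sum.elim (ones 3) tw) m (fun Y v => Y (Sum.inr j) ![s v, t v]) := by
      intro j m s t hs ht
      refine (RudX.so' (a := Sum.elim (ones 3) tw) (Sum.inr j) (t := ![s, t]) ?_).congr ?_
      · intro j
        change Fin 2 at j
        fin_cases j
        · exact hs
        · exact ht
      · intro Y v
        refine Iff.of_eq (congrArg (Y (Sum.inr j)) ?_)
        funext j
        change Fin 2 at j
        fin_cases j <;> rfl
    exact ESO.of (MulC_rudX (IsPoly.var 0) (hU 0) (hU 1) (hU 2) (hU' 0) (hU' 1))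
  refine h1.exSO.congr (fun V v => ?_)
  rw [← exists_mulC_iff]
  constructor
  · rintro ⟨S, K, hK⟩
    refine ⟨fun j w => if j = 0 then S (w 0) (w 1) else K (w 0) (w 1), hK⟩
  · rintro ⟨W, hW⟩; exact ⟨fun i x => W 0 ![i, x], fun i x => W 1 ![i, x], hW⟩

end Pool.Agent.Helper20.Spectra
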