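import Pool.Agent.Helper20.Sparse.Diag

/-!
# Few words: the census method
-/

set_option autoImplicit false

namespace Pool.Agent.Helper20.Spectra

/-- a sorted list of `c` sets of at most `g` elements of `{0, …, l - 1}` -/
def ListC (l g c : ℕ) (A : ℕ → ℕ → Prop) (E : ℕ → ℕ → ℕ → Prop) : Prop :=
  (∀ q, q ≤ c → (q < c → ∀ i, i ≤ l → (i < l → (A q i → ∃ x, x ≤ g ∧ (x < g ∧ E q x i))))) ∧
  (∀ q, q ≤ c → (q < c → ∀ x, x ≤ g → (x < g → ∀ i, i ≤ l → (i < l → ∀ i', i' ≤ l → (i' < l →
    (A q i → (A q i' → (E q x i → (E q x i' → i = i')))))))) ) ∧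
  (∀ q, q ≤ c → (q + 1 < c → ∃ i, i ≤ l ∧ (i < l ∧ (¬ A q i ∧ (A (q + 1) i ∧
    ∀ i', i' ≤ l → (i' < l → (i < i' → (A q i' ↔ A (q + 1) i'))))))))

/-- the family -/
def Fam (l g : ℕ) : Finset ℕ :=
  {x ∈ Finset.range (2 ^ l) | (Finset.card {i ∈ Finset.range l | x.testBit i = true}) ≤ g}

lemma num_lt_num {l : ℕ} {V W : ℕ → Prop} : num l V < num l W ↔
    ∃ i, i < l ∧ ¬ V i ∧ W i ∧ ∀ i', i' < l → i < i' → (V i' ↔ W i') := by
  have key : ∀ V W : ℕ → Prop, (∃ i, i < l ∧ ¬ V i ∧ W i ∧ ∀ i', i' < l → i < i' →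
      (V i' ↔ W i')) → num l V < num l W := by
    rintro V W ⟨i, hi, h1, h2, h3⟩
    apply Nat.lt_of_testBit i
    · rw [← Bool.not_eq_true, testBit_num]
      exact fun h => h1 h.2
    · rw [testBit_num]
      exact ⟨hi, h2⟩
    · intro j hj
      rw [Bool.eq_iff_iff, testBit_num, testBit_num]
      constructor
      · rintro ⟨h4, h5⟩; exact ⟨h4, (h3 j h4 hj).1 h5⟩
      · rintro ⟨h4, h5⟩; exact ⟨h4, (h3 j h4 hj).2 h5⟩
  refine ⟨fun h => ?_, key V W⟩
  classical
  by_contra hno
  have hne : ({i ∈ Finset.range l | ¬ (V i ↔ W i)} : Finset ℕ).Nonempty := by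
    by_contra he
    rw [Finset.not_nonempty_iff_eq_empty, Finset.filter_eq_empty_iff] at he
    have : num l V = num l W := num_congr (fun i hi => by
      have := he (Finset.mem_range.2 hi)
      tauto)
    omega
  obtain ⟨i, hi⟩ : ∃ i, i = Finset.max' _ hne := ⟨_, rfl⟩
  have h1 := Finset.max'_mem _ hne
  rw [← hi, Finset.mem_filter, Finset.mem_range] at h1
  have h2 : ∀ i', i' < l → i < i' → (V i' ↔ W i') := by
    intro i' hi' hlt
    by_contra h3
    have h4 : i' ≤ i := by
      rw [hi]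
      apply Finset.le_max'
      rw [Finset.mem_filter]
      exact ⟨Finset.mem_range.2 hi', h3⟩
    omega
  by_cases hV : V i
  · have hW : ¬ W i := by tauto
    have := key W V ⟨i, h1.1, hW, hV, fun i' a b => (h2 i' a b).symm⟩
    omega
  · have hW : W i := by tauto
    exact hno ⟨i, h1.1, hV, hW, h2⟩

lemma num_mem_Fam {l g : ℕ} {V : ℕ → Prop} : num l V ∈ Fam l g ↔
    ∃ E : ℕ → ℕ → Prop, (∀ i, i < l → V i → ∃ x, x < g ∧ E x i) ∧
      ∀ x, x < g → ∀ i i', i < l → i' < l → V i → V i' → E x i → E x i' → i = i' := by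
  classical
  unfold Fam
  rw [Finset.mem_filter, Finset.mem_range]
  have hset : ({i ∈ Finset.range l | (num l V).testBit i = true} : Finset ℕ) =
      {i ∈ Finset.range l | V i} := by
    ext i
    rw [Finset.mem_filter, Finset.mem_filter, testBit_num, Finset.mem_range]
    tauto
  rw [hset]
  constructor
  · rintro ⟨_, h⟩
    let s : Finset ℕ := {i ∈ Finset.range l | V i}
    let e := s.equivFin
    refine ⟨fun x i => ∃ hi : i ∈ s, (e ⟨i, hi⟩ : ℕ) = x, ?_, ?_⟩
    · intro i hi hV
      have his : i ∈ s := Finset.mem_filter.2 ⟨Finset.mem_range.2 hi, hV⟩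
      exact ⟨e ⟨i, his⟩, (e ⟨i, his⟩).isLt.trans_le h, his, rfl⟩
    · rintro x _ i i' _ _ _ _ ⟨hi, h1⟩ ⟨hi', h2⟩
      have h3 : e ⟨i, hi⟩ = e ⟨i', hi'⟩ := Fin.ext (h1.trans h2.symm)
      have h4 := e.injective h3
      exact congrArg Subtype.val h4
  · rintro ⟨E, h1, h2⟩
    refine ⟨num_lt l V, ?_⟩
    have h3 : ∀ i, ∃ x, i < l → V i → x < g ∧ E x i := by
      intro i
      by_cases hi : i < l ∧ V i
      · obtain ⟨x, hx⟩ := h1 i hi.1 hi.2
        exact ⟨x, fun _ _ => hx⟩
      · exact ⟨0, fun a b => absurd ⟨a, b⟩ hi⟩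
    choose f hf using h3
    have h4 : Finset.card {i ∈ Finset.range l | V i} ≤ (Finset.range g).card := by
      refine Finset.card_le_card_of_injOn f ?_ ?_
      · intro i hi
        rw [Finset.mem_coe, Finset.mem_filter, Finset.mem_range] at hi
        rw [Finset.mem_coe, Finset.mem_range]
        exact (hf i hi.1 hi.2).1
      · intro i hi i' hi' hii
        rw [Finset.mem_coe, Finset.mem_filter, Finset.mem_range] at hi hi'
        have a := hf i hi.1 hi.2
        have b := hf i' hi'.1 hi'.2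
        rw [← hii] at b
        exact h2 _ a.1 i i' hi.1 hi'.1 hi.2 hi'.2 a.2 b.2
    rwa [Finset.card_range] at h4

/-- the list as a strictly increasing function -/
lemma listC_iff {l g c : ℕ} {A : ℕ → ℕ → Prop} : (∃ E, ListC l g c A E) ↔
    (∀ q, q < c → num l (A q) ∈ Fam l g) ∧ ∀ q, q + 1 < c → num l (A q) < num l (A (q + 1)) := by
  constructor
  · rintro ⟨E, h1, h2, h3⟩
    refine ⟨fun q hq => ?_, fun q hq => ?_⟩
    · rw [num_mem_Fam]
      refine ⟨E q, fun i hi hA => ?_, fun x hx i i' hi hi' hA hA' he he' => ?_⟩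
      · obtain ⟨x, _, h4⟩ := h1 q hq.le hq i hi.le hi hA
        exact ⟨x, h4⟩
      · exact h2 q hq.le hq x hx.le hx i hi.le hi i' hi'.le hi' hA hA' he he'
    · rw [num_lt_num]
      obtain ⟨i, _, hi, h4, h5, h6⟩ := h3 q (by omega) hq
      exact ⟨i, hi, h4, h5, fun i' hi' hii => h6 i' hi'.le hi' hii⟩
  · rintro ⟨h1, h2⟩
    have h3 : ∀ q, ∃ E : ℕ → ℕ → Prop, q < c → (∀ i, i < l → A q i → ∃ x, x < g ∧ E x i) ∧
        ∀ x, x < g → ∀ i i', i < l → i' < l → A q i → A q i' → E x i → E x i' → i = i' := by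
      intro q
      by_cases hq : q < c
      · obtain ⟨E, hE⟩ := num_mem_Fam.1 (h1 q hq)
        exact ⟨E, fun _ => hE⟩
      · exact ⟨fun _ _ => True, fun h => absurd h hq⟩
    choose E hE using h3
    refine ⟨E, ?_, ?_, ?_⟩
    · intro q _ hq i _ hi hA
      obtain ⟨x, hx, he⟩ := (hE q hq).1 i hi hA
      exact ⟨x, hx.le, hx, he⟩
    · intro q _ hq x _ hx i _ hi i' _ hi' hA hA' he he'
      exact (hE q hq).2 x hx i i' hi hi' hA hA' he he'
    · intro q _ hq
      obtain ⟨i, hi, h4, h5, h6⟩ := num_lt_num.1 (h2 q hq)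
      exact ⟨i, hi.le, hi, h4, h5, fun i' _ hi' hii => h6 i' hi' hii⟩

lemma list_strictMono {l g c : ℕ} {A : ℕ → ℕ → Prop} (h : ∃ E, ListC l g c A E) :
    StrictMono (fun q : Fin c => num l (A q)) := by
  have h1 := (listC_iff.1 h).2
  have h2 : ∀ q d, q + d + 1 < c → num l (A q) < num l (A (q + d + 1)) := by
    intro q d
    induction d with
    | zero => exact fun hq => h1 q hq
    | succ d ih =>
      intro hq
      exact (ih (by omega)).trans (h1 (q + d + 1) hq)
  intro q q' hqq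
  have h3 : (q : ℕ) < q' := hqq
  have h4 := h2 q (q' - q - 1) (by have := q'.isLt; omega)
  have h5 : (q : ℕ) + (q' - q - 1) + 1 = q' := by omega
  rw [h5] at h4
  exact h4

lemma list_le {l g c : ℕ} {A : ℕ → ℕ → Prop} (h : ∃ E, ListC l g c A E) : c ≤ (Fam l g).card := by
  have h1 := (listC_iff.1 h).1
  have h2 := list_strictMono h
  have h3 : (Finset.univ : Finset (Fin c)).card ≤ (Fam l g).card :=
    Finset.card_le_card_of_injOn _ (fun q _ => h1 q q.isLt) (fun q _ q' _ h => h2.injective h)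
  simpa using h3

/-- the canonical list -/
noncomputable def canon (l g : ℕ) (q i : ℕ) : Prop :=
  ∃ hq : q < (Fam l g).card, ((Fam l g).orderEmbOfFin rfl ⟨q, hq⟩).testBit i = true

lemma num_canon {l g q : ℕ} (hq : q < (Fam l g).card) :
    num l (canon l g q) = (Fam l g).orderEmbOfFin rfl ⟨q, hq⟩ := by
  have h1 : (Fam l g).orderEmbOfFin rfl ⟨q, hq⟩ ∈ Fam l g := Finset.orderEmbOfFin_mem _ _ _
  have h2 : (Fam l g).orderEmbOfFin rfl ⟨q, hq⟩ < 2 ^ l := by
    unfold Fam at h1
    exact Finset.mem_range.1 (Finset.mem_filter.1 h1).1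
  have h3 : num l (canon l g q) =
      num l (fun i => ((Fam l g).orderEmbOfFin rfl ⟨q, hq⟩).testBit i = true) :=
    num_congr (fun i _ => ⟨fun ⟨_, h⟩ => h, fun h => ⟨hq, h⟩⟩)
  rw [h3, num_testBit h2]

lemma canon_list {l g c : ℕ} (hc : c ≤ (Fam l g).card) : ∃ E, ListC l g c (canon l g) E := by
  rw [listC_iff]
  refine ⟨fun q hq => ?_, fun q hq => ?_⟩
  · rw [num_canon (hq.trans_le hc)]
    exact Finset.orderEmbOfFin_mem _ _ _
  · rw [num_canon (by omega), num_canon (by omega)]
    exact ((Fam l g).orderEmbOfFin rfl).strictMono (Nat.lt_succ_self q)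

lemma list_unique {l g c : ℕ} {A : ℕ → ℕ → Prop} (h : ∃ E, ListC l g c A E)
    (hc : c = (Fam l g).card) {q : ℕ} (hq : q < c) : num l (A q) = num l (canon l g q) := by
  subst hc
  have h1 := (listC_iff.1 h).1
  have h2 := Finset.orderEmbOfFin_unique (s := Fam l g) rfl
    (f := fun q => num l (A q)) (fun q => h1 q q.isLt) (list_strictMono h)
  rw [num_canon hq]
  exact congrFun h2 ⟨q, hq⟩

lemma num_inj {l : ℕ} {V W : ℕ → Prop} (h : num l V = num l W) {i : ℕ} (hi : i < l) :
    V i ↔ W i := by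
  have h1 := testBit_num l V i
  have h2 := testBit_num l W i
  rw [h] at h1
  have h3 := h1.symm.trans h2
  tauto

/-! ## Definability -/

/-- two ternary second-order variables -/
abbrev th : Fin 2 → ℕ := fun _ => 3

lemma so3_inr {κ : Type} {b : κ → ℕ} {k : ℕ} (j : Fin 2) {s t u : (Fin k → ℕ) → ℕ}
    (hs : IsPoly k s) (ht : IsPoly k t) (hu : IsPoly k u) :
    RudX (Sum.elim b th) k (fun Y v => (fun i => Y (Sum.inr i) : SOA th) j ![s v, t v, u v]) := by
  refine (RudX.so' (a := Sum.elim b th) (Sum.inr j) (t := ![s, t, u]) ?_).congr ?_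
  · intro j
    change Fin 3 at j
    fin_cases j
    · exact hs
    · exact ht
    · exact hu
  · intro Y v
    refine Iff.of_eq (congrArg (Y (Sum.inr j)) ?_)
    funext j
    change Fin 3 at j
    fin_cases j <;> rfl

/-- the lists, coded -/
def LC (l g c : ℕ) (Y : SOA th) : Prop :=
  ListC l g c (fun q i => Y 0 ![q, i, 0]) (fun q x i => Y 1 ![q, x, i])

lemma LC_rudX {κ : Type} {b : κ → ℕ} {k : ℕ} {l g c : (Fin k → ℕ) → ℕ}
    (hl : IsPoly k l) (hg : IsPoly k g) (hc : IsPoly k c) :
    RudX (Sum.elim b th) k (fun Y v => LC (l v) (g v) (c v) (fun i => Y (Sum.inr i))) := by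
  unfold LC ListC
  have z : ∀ {k : ℕ}, IsPoly k (fun _ => 0) := IsPoly.const 0
  refine RudX.and' ?_ (RudX.and' ?_ ?_)
  · exact RudX.all hc (RudX.imp (RudX.lt (IsPoly.var 0) hc.tail) (RudX.all hl.tail
      (RudX.imp (RudX.lt (IsPoly.var 0) hl.tail.tail) (RudX.imp
        (so3_inr 0 (IsPoly.var 1) (IsPoly.var 0) z)
        (RudX.ex hg.tail.tail ((RudX.lt (IsPoly.var 0) hg.tail.tail.tail).and'
          (so3_inr 1 (IsPoly.var 2) (IsPoly.var 0) (IsPoly.var 1))))))))
  · refine RudX.all hc (RudX.imp (RudX.lt (IsPoly.var 0) hc.tail) (RudX.all hg.tail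
      (RudX.imp (RudX.lt (IsPoly.var 0) hg.tail.tail) (RudX.all hl.tail.tail
        (RudX.imp (RudX.lt (IsPoly.var 0) hl.tail.tail.tail) (RudX.all hl.tail.tail.tail
          (RudX.imp (RudX.lt (IsPoly.var 0) hl.tail.tail.tail.tail) ?_)))))))
    exact RudX.imp (so3_inr 0 (IsPoly.var 3) (IsPoly.var 1) z) (RudX.imp
      (so3_inr 0 (IsPoly.var 3) (IsPoly.var 0) z) (RudX.imp
        (so3_inr 1 (IsPoly.var 3) (IsPoly.var 2) (IsPoly.var 1)) (RudX.imp
          (so3_inr 1 (IsPoly.var 3) (IsPoly.var 2) (IsPoly.var 0))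
          (RudX.eq (IsPoly.var 1) (IsPoly.var 0)))))
  · have q1 : IsPoly (k + 1) (fun w => w 0 + 1) := (IsPoly.var 0).add (IsPoly.const 1)
    refine RudX.all hc (RudX.imp (RudX.lt q1 hc.tail) (RudX.ex hl.tail
      ((RudX.lt (IsPoly.var 0) hl.tail.tail).and' ((RudX.not'
        (so3_inr 0 (IsPoly.var 1) (IsPoly.var 0) z)).and' ((so3_inr 0 q1.tail
          (IsPoly.var 0) z).and' (RudX.all hl.tail.tail (RudX.imp
            (RudX.lt (IsPoly.var 0) hl.tail.tail.tail) (RudX.imp
              (RudX.lt (IsPoly.var 1) (IsPoly.var 0)) (RudX.iff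
                (so3_inr 0 (IsPoly.var 2) (IsPoly.var 0) z)
                (so3_inr 0 q1.tail.tail (IsPoly.var 0) z))))))))))

lemma exists_LC {l g c : ℕ} {A : ℕ → ℕ → Prop} (h : ∃ E, ListC l g c A E) :
    ∃ Y, LC l g c Y ∧ ∀ q i, (Y 0 ![q, i, 0] ↔ A q i) := by
  obtain ⟨E, hE⟩ := h
  exact ⟨fun j w => if j = 0 then A (w 0) (w 1) else E (w 0) (w 1) (w 2), hE, fun q i => Iff.rfl⟩

lemma memRud {κ : Type} {b : κ → ℕ} {k m : ℕ} {S : Set (Fin m → ℕ)} (hS : Rud m S)
    {t : Fin m → (Fin k → ℕ) → ℕ} (ht : ∀ i, IsPoly k (t i)) :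
    RudX b k (fun _ v => (fun i => t i v) ∈ S) :=
  (RudX.ofRud hS).subst k t ht

/-- If all spectra are rudimentary and there are only polynomially many words then existential
second-order conditions are bounded definable on the words. -/
theorem census {W : ℕ → Finset (Finset ℕ)} (hQ : SRud) (hreg : LeftClosed W)
    (hW : ∃ C : ℕ, ∀ n, 1 ≤ n → (W n).card ≤ (n + 1) ^ C) : CapX W := by
  obtain ⟨C, hC⟩ := hW
  intro R hR
  -- the three numerical relations
  have hcc : Rud 3 {v | ∃ Y, LC (v 0) (v 1) (v 2) Y} :=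
    rud_of_eso hQ ((ESO.of (LC_rudX (b := none0) (IsPoly.var 0) (IsPoly.var 1)
      (IsPoly.var 2))).exSO)
  have hdd : Rud 5 {v | ∃ Y, LC (v 0) (v 1) (v 2) Y ∧ Y 0 ![v 3, v 4, 0]} :=
    rud_of_eso hQ ((ESO.of ((LC_rudX (b := none0) (IsPoly.var 0) (IsPoly.var 1)
      (IsPoly.var 2)).and' (so3_inr 0 (IsPoly.var 3) (IsPoly.var 4) (IsPoly.const 0)))).exSO)
  have hbb : Rud 5 {v | ∃ Y : SOA th, LC (v 0) (v 1) (v 2) Y ∧
      R (fun _ w => w 0 < v 0 ∧ Y 0 ![v 3, w 0, 0]) (fun _ => v 4)} := by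
    have h1 : ESO (Sum.elim none0 th) 5 (fun Y v =>
        R (fun _ w => w 0 < v 0 ∧ (fun i => Y (Sum.inr i) : SOA th) 0 ![v 3, w 0, 0])
          (fun _ => v 4)) := by
      refine hR.subst (b' := Sum.elim none0 th) (m := 5)
        (B := fun _ Y v w => w 0 < v 0 ∧ (fun i => Y (Sum.inr i) : SOA th) 0 ![v 3, w 0, 0])
        (f := fun _ v => v 4) ?_ (fun _ => IsPoly.var 4)
      intro _ l u w hu hw
      exact (RudX.lt (hw 0) (hu 0)).and' (so3_inr 0 (hu 3) (hw 0) (IsPoly.const 0))
    exact rud_of_eso hQ (((ESO.of (LC_rudX (b := none0) (IsPoly.var 0) (IsPoly.var 1)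
      (IsPoly.var 2))).and h1).exSO)
  obtain ⟨cc, hcc_def⟩ : ∃ cc : Set (Fin 3 → ℕ), cc = {v | ∃ Y, LC (v 0) (v 1) (v 2) Y} :=
    ⟨_, rfl⟩
  obtain ⟨dd, hdd_def⟩ : ∃ dd : Set (Fin 5 → ℕ),
    dd = {v | ∃ Y, LC (v 0) (v 1) (v 2) Y ∧ Y 0 ![v 3, v 4, 0]} := ⟨_, rfl⟩
  obtain ⟨bb, hbb_def⟩ : ∃ bb : Set (Fin 5 → ℕ), bb = {v | ∃ Y : SOA th,
      LC (v 0) (v 1) (v 2) Y ∧ R (fun _ w => w 0 < v 0 ∧ Y 0 ![v 3, w 0, 0])
        (fun _ => v 4)} := ⟨_, rfl⟩
  rw [← hcc_def] at hcc
  rw [← hdd_def] at hdd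
  rw [← hbb_def] at hbb
  have mcc : ∀ l g c, ![l, g, c] ∈ cc ↔ c ≤ (Fam l g).card := by
    intro l g c
    rw [hcc_def]
    constructor
    · rintro ⟨Y, hY⟩
      exact list_le ⟨_, hY⟩
    · intro hc
      obtain ⟨Y, hY, _⟩ := exists_LC (canon_list hc)
      exact ⟨Y, hY⟩
  have mdd : ∀ l g c j i, c = (Fam l g).card → j < c → i < l →
      (![l, g, c, j, i] ∈ dd ↔ canon l g j i) := by
    intro l g c j i hc hj hi
    rw [hdd_def]
    constructor
    · rintro ⟨Y, hY, h1⟩
      have h2 := list_unique ⟨_, hY⟩ hc hj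
      exact (num_inj h2 hi).1 h1
    · intro h1
      obtain ⟨Y, hY, h2⟩ := exists_LC (canon_list hc.le)
      exact ⟨Y, hY, (h2 j i).2 h1⟩
  have mbb : ∀ l g c j n, c = (Fam l g).card → j < c →
      (![l, g, c, j, n] ∈ bb ↔ R (fun _ w => w 0 < l ∧ canon l g j (w 0)) (fun _ => n)) := by
    intro l g c j n hc hj
    rw [hbb_def]
    constructor
    · rintro ⟨Y, hY, h1⟩
      have h2 := list_unique ⟨_, hY⟩ hc hj
      have e : (fun _ w => w 0 < l ∧ Y 0 ![j, w 0, 0] : SOA one) =
          fun _ w => w 0 < l ∧ canon l g j (w 0) := by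
        funext _ w
        exact propext (and_congr_right (fun hi => num_inj h2 hi))
      rw [← e]
      exact h1
    · intro h1
      obtain ⟨Y, hY, h2⟩ := exists_LC (canon_list hc.le)
      refine ⟨Y, hY, ?_⟩
      have e : (fun _ w => w 0 < l ∧ Y 0 ![j, w 0, 0] : SOA one) =
          fun _ w => w 0 < l ∧ canon l g j (w 0) := by
        funext _ w
        exact propext (and_congr_right (fun _ => h2 _ _))
      show R (fun _ w => w 0 < l ∧ Y 0 ![j, w 0, 0]) (fun _ => n)
      rw [e]
      exact h1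
  -- the bounded formula
  refine ⟨fun V v => ∃ l, l ≤ v 0 ∧ ∃ g, g ≤ v 0 ∧ ∃ c, c ≤ (v 0 + 1) ^ C ∧
    (![l, g, c] ∈ cc ∧ (¬ ![l, g, c + 1] ∈ cc ∧ ∃ j, j ≤ c ∧ (j < c ∧
      ((∀ i, i ≤ v 0 → (i < v 0 → (V () (fun _ => i) ↔ (i < l ∧ ![l, g, c, j, i] ∈ dd)))) ∧
        ![l, g, c, j, v 0] ∈ bb)))), ?_, ?_⟩
  · have v0 : IsPoly 1 (fun v => v 0) := IsPoly.var 0
    refine RudX.ex v0 (RudX.ex v0.tail (RudX.ex ((v0.add (IsPoly.const 1)).pow C).tail.tail
      (RudX.and' ?_ (RudX.and' (RudX.not' ?_) (RudX.ex (IsPoly.var 0) ((RudX.lt (IsPoly.var 0)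
        (IsPoly.var 1)).and' (RudX.and' (RudX.all v0.tail.tail.tail.tail
          (RudX.imp (RudX.lt (IsPoly.var 0) v0.tail.tail.tail.tail.tail) (RudX.iff ?_
            ((RudX.lt (IsPoly.var 0) (IsPoly.var 4)).and' ?_)))) ?_)))))))
    · refine (memRud (b := one) hcc (t := ![fun w => w 2, fun w => w 1, fun w => w 0]) ?_).congr ?_
      · intro i; fin_cases i
        · exact IsPoly.var 2
        · exact IsPoly.var 1
        · exact IsPoly.var 0
      · intro X w
        refine Iff.of_eq (congrArg (· ∈ cc) ?_)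
        funext i; fin_cases i <;> rfl
    · refine (memRud (b := one) hcc (t := ![fun w => w 2, fun w => w 1, fun w => w 0 + 1])
        ?_).congr ?_
      · intro i; fin_cases i
        · exact IsPoly.var 2
        · exact IsPoly.var 1
        · exact (IsPoly.var 0).add (IsPoly.const 1)
      · intro X w
        refine Iff.of_eq (congrArg (· ∈ cc) ?_)
        funext i; fin_cases i <;> rfl
    · exact RudX.so' (a := one) () (fun _ => IsPoly.var 0)
    · refine (memRud (b := one) hdd (t := ![fun w => w 4, fun w => w 3, fun w => w 2,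
        fun w => w 1, fun w => w 0]) ?_).congr ?_
      · intro i; fin_cases i
        · exact IsPoly.var 4
        · exact IsPoly.var 3
        · exact IsPoly.var 2
        · exact IsPoly.var 1
        · exact IsPoly.var 0
      · intro X w
        refine Iff.of_eq (congrArg (· ∈ dd) ?_)
        funext i; fin_cases i <;> rfl
    · refine (memRud (b := one) hbb (t := ![fun w => w 3, fun w => w 2, fun w => w 1,
        fun w => w 0, fun w => w 4]) ?_).congr ?_
      · intro i; fin_cases i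
        · exact IsPoly.var 3
        · exact IsPoly.var 2
        · exact IsPoly.var 1
        · exact IsPoly.var 0
        · exact IsPoly.var 4
      · intro X w
        refine Iff.of_eq (congrArg (· ∈ bb) ?_)
        funext i; fin_cases i <;> rfl
  · intro n hn P hP
    obtain ⟨hPn, hcl⟩ := (hreg n hn).2 P hP
    constructor
    · intro hRP
      obtain ⟨l, hln, hPl, hlP⟩ : ∃ l, l ≤ n ∧ (∀ i ∈ P, i < l) ∧ ∀ i, i < l → ∃ j ∈ P, i ≤ j := by
        rcases P.eq_empty_or_nonempty with he | hne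
        · exact ⟨0, by omega, fun i hi => by rw [he] at hi; simp at hi, fun i hi => by omega⟩
        · refine ⟨P.max' hne + 1, ?_, fun i hi => ?_, fun i hi => ?_⟩
          · exact hPn _ (P.max'_mem hne)
          · have := P.le_max' i hi
            omega
          · exact ⟨_, P.max'_mem hne, by omega⟩
      obtain ⟨g, hg⟩ : ∃ g, g = P.card := ⟨_, rfl⟩
      have hgn : g ≤ n := by
        have h1 : P.card ≤ (Finset.range n).card := Finset.card_le_card (fun i hi =>
          Finset.mem_range.2 (hPn i hi))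
        rw [Finset.card_range] at h1
        omega
      obtain ⟨c, hc⟩ : ∃ c, c = (Fam l g).card := ⟨_, rfl⟩
      have hcC : c ≤ (n + 1) ^ C := by
        refine le_trans ?_ (hC n hn)
        rw [hc]
        refine Finset.card_le_card_of_injOn
          (fun x => {i ∈ Finset.range l | x.testBit i = true}) ?_ ?_
        · intro x hx
          rw [Finset.mem_coe] at hx
          unfold Fam at hx
          rw [Finset.mem_filter] at hx
          rw [Finset.mem_coe]
          refine hcl _ (hx.2.trans hg.le) (fun i hi => ?_)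
          rw [Finset.mem_filter, Finset.mem_range] at hi
          exact hlP i hi.1
        · intro x hx y hy hxy
          rw [Finset.mem_coe] at hx hy
          unfold Fam at hx hy
          rw [Finset.mem_filter, Finset.mem_range] at hx hy
          apply Nat.eq_of_testBit_eq
          intro i
          rcases Nat.lt_or_ge i l with hi | hi
          · have h1 : i ∈ ({i ∈ Finset.range l | x.testBit i = true} : Finset ℕ) ↔
                i ∈ ({i ∈ Finset.range l | y.testBit i = true} : Finset ℕ) := by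
              have hxy' : ({i ∈ Finset.range l | x.testBit i = true} : Finset ℕ) =
                {i ∈ Finset.range l | y.testBit i = true} := hxy
              rw [hxy']
            rw [Finset.mem_filter, Finset.mem_filter, Finset.mem_range] at h1
            rw [Bool.eq_iff_iff]
            tauto
          · rw [Nat.testBit_lt_two_pow (hx.1.trans_le (Nat.pow_le_pow_right (by omega) hi)),
              Nat.testBit_lt_two_pow (hy.1.trans_le (Nat.pow_le_pow_right (by omega) hi))]
      have hx₀ : num l (fun i => i ∈ P) ∈ Fam l g := by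
        unfold Fam
        rw [Finset.mem_filter, Finset.mem_range]
        refine ⟨num_lt _ _, ?_⟩
        have e : ({i ∈ Finset.range l | (num l (fun i => i ∈ P)).testBit i = true} : Finset ℕ) =
            P := by
          ext i
          rw [Finset.mem_filter, testBit_num, Finset.mem_range]
          exact ⟨fun h => h.2.2, fun h => ⟨hPl i h, hPl i h, h⟩⟩
        rw [e]
        have h1 : P.card ≤ (Finset.range l).card := Finset.card_le_card (fun i hi =>
          Finset.mem_range.2 (hPl i hi))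
        rw [Finset.card_range] at h1
        omega
      obtain ⟨j, hj⟩ : ∃ j : Fin (Fam l g).card, (Fam l g).orderEmbOfFin rfl j =
          num l (fun i => i ∈ P) := by
        have h1 := Finset.range_orderEmbOfFin (Fam l g) rfl
        have h2 : num l (fun i => i ∈ P) ∈ Set.range ((Fam l g).orderEmbOfFin rfl) := by
          rw [h1]; exact hx₀
        exact h2
      have hjc : (j : ℕ) < c := by rw [hc]; exact j.isLt
      have hcan : ∀ i, i < l → (canon l g j i ↔ i ∈ P) := by
        intro i hi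
        apply num_inj (l := l) _ hi
        rw [num_canon j.isLt]
        exact hj
      refine ⟨l, by show l ≤ n; omega, g, by show g ≤ n; omega, c, hcC,
        (mcc l g c).2 hc.le, ?_, j, hjc.le, hjc, ?_, ?_⟩
      · rw [mcc]; omega
      · intro i _ hi
        show i ∈ P ↔ _
        constructor
        · intro h1
          have h2 := hPl i h1
          exact ⟨h2, (mdd l g c j i hc hjc h2).2 ((hcan i h2).2 h1)⟩
        · rintro ⟨h2, h3⟩
          exact (hcan i h2).1 ((mdd l g c j i hc hjc h2).1 h3)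
      · show ![l, g, c, (j : ℕ), n] ∈ bb
        rw [mbb l g c j n hc hjc]
        have e : (fun _ w => w 0 < l ∧ canon l g j (w 0) : SOA one) = pset P := by
          funext _ w
          apply propext
          constructor
          · rintro ⟨h1, h2⟩; exact (hcan _ h1).1 h2
          · intro h1
            have h2 := hPl _ h1
            exact ⟨h2, (hcan _ h2).2 h1⟩
        rw [e]
        exact hRP
    · rintro ⟨l, hl, g, hg, c, _, h1, h2, j, _, hj, h3, h4⟩
      have hl' : l ≤ n := hl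
      rw [mcc] at h1 h2
      have hc : c = (Fam l g).card := by omega
      have h4' : ![l, g, c, j, n] ∈ bb := h4
      rw [mbb l g c j n hc hj] at h4'
      have e : (fun _ w => w 0 < l ∧ canon l g j (w 0) : SOA one) = pset P := by
        funext _ w
        apply propext
        constructor
        · rintro ⟨h5, h6⟩
          have h7 := h3 (w 0) (by show w 0 ≤ n; omega) (by show w 0 < n; omega)
          exact h7.2 ⟨h5, (mdd l g c j (w 0) hc hj h5).2 h6⟩
        · intro h5
          have h6 : w 0 < n := hPn _ h5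
          have h7 := (h3 (w 0) h6.le h6).1 h5
          exact ⟨h7.1, (mdd l g c j (w 0) hc hj h7.1).1 h7.2⟩
      rw [← e]
      exact h4'

end Pool.Agent.Helper20.Spectra
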