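import Pool.Agent.Helper20.Sparse.Pow

/-!
# Coding long binary words by words with few ones
-/

set_option autoImplicit false

namespace Pool.Agent.Helper20.Spectra

/-- the code of the binary word `V` with blocks of length `2 ^ β` -/
def Cod (β : ℕ) (V : ℕ → Prop) (y : ℕ) : Prop :=
  y = β ∨ ∃ i d, d ≠ 0 ∧ d < 2 ^ β ∧ y = β + 1 + i * 2 ^ β + d ∧
    ∀ j, j < β → (d.testBit j = true ↔ V (i * β + j))

/-- decoding -/
def Dec (β : ℕ) (P : ℕ → Prop) (x : ℕ) : Prop :=
  ∃ i j, j < β ∧ x = i * β + j ∧ ∃ d, d < 2 ^ β ∧ P (β + 1 + i * 2 ^ β + d) ∧ d.testBit j = true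

lemma exists_digit (β : ℕ) (V : ℕ → Prop) : ∃ d, d < 2 ^ β ∧ ∀ j, j < β →
    (d.testBit j = true ↔ V j) := by
  classical
  induction β with
  | zero => exact ⟨0, by simp, fun j hj => by omega⟩
  | succ β ih =>
    obtain ⟨d, hd, h⟩ := ih
    by_cases hV : V β
    · refine ⟨2 ^ β + d, by rw [pow_succ]; omega, fun j hj => ?_⟩
      rcases Nat.lt_or_ge j β with h1 | h1
      · rw [Nat.testBit_two_pow_add_gt h1, h j h1]
      · have : j = β := by omega
        subst this
        rw [Nat.testBit_two_pow_add_eq, Nat.testBit_lt_two_pow hd]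
        simpa using hV
    · refine ⟨d, by rw [pow_succ]; omega, fun j hj => ?_⟩
      rcases Nat.lt_or_ge j β with h1 | h1
      · exact h j h1
      · have : j = β := by omega
        subst this
        rw [Nat.testBit_lt_two_pow hd]
        simpa using hV

lemma blk_inj {β i d i' d' : ℕ} (hd : d < 2 ^ β) (hd' : d' < 2 ^ β)
    (h : i * 2 ^ β + d = i' * 2 ^ β + d') : i = i' ∧ d = d' := by
  have hp : 0 < 2 ^ β := by positivity
  have h1 : (i * 2 ^ β + d) / 2 ^ β = i := by
    rw [mul_comm, Nat.mul_add_div hp, Nat.div_eq_of_lt hd, add_zero]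
  have h2 : (i' * 2 ^ β + d') / 2 ^ β = i' := by
    rw [mul_comm, Nat.mul_add_div hp, Nat.div_eq_of_lt hd', add_zero]
  have h3 : i = i' := by rw [← h1, h, h2]
  subst h3
  exact ⟨rfl, by omega⟩

lemma dec_cod {β : ℕ} (hβ : 1 ≤ β) (V : ℕ → Prop) (x : ℕ) : Dec β (Cod β V) x ↔ V x := by
  constructor
  · rintro ⟨i, j, hj, rfl, d, hd, hc, hb⟩
    rcases hc with h | ⟨i', d', _, hd', h, h1⟩
    · omega
    · obtain ⟨rfl, rfl⟩ := blk_inj (β := β) (i := i) (i' := i') hd hd' (by omega)
      exact (h1 j hj).1 hb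
  · intro hx
    obtain ⟨d, hd, h⟩ := exists_digit β (fun j => V (x / β * β + j))
    have hxb : x / β * β + x % β = x := Nat.div_add_mod' x β
    have hj : x % β < β := Nat.mod_lt _ hβ
    have hb : d.testBit (x % β) = true := (h _ hj).2 (by rw [hxb]; exact hx)
    refine ⟨x / β, x % β, hj, hxb.symm, d, hd, Or.inr ⟨x / β, d, ?_, hd, rfl, h⟩, hb⟩
    rintro rfl
    simp at hb

/-- the code is a word -/
lemma exists_word {ℓ h : ℕ → ℕ} {n β S : ℕ} (hR : Room ℓ h n β S) {V : ℕ → Prop}
    (hV : ∀ x, V x → x < S) :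
    ∃ P ∈ words ℓ h n, ∀ y, y ∈ P ↔ Cod β V y := by
  classical
  obtain ⟨h1, h2, h3⟩ := hR
  have hβ : β + 1 ≤ 2 ^ β := Nat.lt_two_pow_self
  have hlt : ∀ y, Cod β V y → y < (S / β + 2) * 2 ^ β := by
    rintro y (rfl | ⟨i, d, hd0, hd, rfl, hb⟩)
    · nlinarith [Nat.zero_le (S / y)]
    · obtain ⟨j, hj⟩ := Nat.exists_testBit_of_ne_zero hd0
      have hjβ : j < β := by
        by_contra hge
        rw [Nat.testBit_lt_two_pow (hd.trans_le (Nat.pow_le_pow_right (by omega) (by omega)))] at hj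
        simp at hj
      have h4 := hV _ ((hb j hjβ).1 hj)
      have h5 : i ≤ S / β := by
        rw [Nat.le_div_iff_mul_le h1]
        omega
      have h6 : i * 2 ^ β ≤ S / β * 2 ^ β := Nat.mul_le_mul_right _ h5
      have h7 : (S / β + 2) * 2 ^ β = S / β * 2 ^ β + 2 ^ β + 2 ^ β := by ring
      omega
  refine ⟨{y ∈ Finset.range ((S / β + 2) * 2 ^ β) | Cod β V y}, ?_, ?_⟩
  · unfold words
    rw [Finset.mem_filter, Finset.mem_powerset]
    constructor
    · intro y hy
      rw [Finset.mem_filter, Finset.mem_range] at hy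
      rw [Finset.mem_range]
      exact (hy.1.trans_le (by omega))
    · refine le_trans ?_ h3
      have h8 : Finset.card {y ∈ Finset.range ((S / β + 2) * 2 ^ β) | Cod β V y} ≤
          (Finset.range (S / β + 2)).card := by
        let f : ℕ → ℕ := fun y => if y = β then 0 else (y - (β + 1)) / 2 ^ β + 1
        have hf : ∀ i d, d < 2 ^ β → f (β + 1 + i * 2 ^ β + d) = i + 1 := by
          intro i d hd
          have e1 : β + 1 + i * 2 ^ β + d ≠ β := by omega
          have e2 : β + 1 + i * 2 ^ β + d - (β + 1) = 2 ^ β * i + d := by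
            rw [mul_comm]; omega
          simp only [f, if_neg e1, e2]
          rw [Nat.mul_add_div (by positivity), Nat.div_eq_of_lt hd, add_zero]
        have hf0 : f β = 0 := by simp [f]
        refine Finset.card_le_card_of_injOn f ?_ ?_
        · intro y hy
          rw [Finset.mem_coe, Finset.mem_filter, Finset.mem_range] at hy
          rw [Finset.mem_coe, Finset.mem_range]
          rcases hy.2 with h9 | ⟨i, d, hd0, hd, rfl, hb⟩
          · rw [h9, hf0]; exact Nat.succ_pos _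
          · rw [hf i d hd]
            obtain ⟨j, hj⟩ := Nat.exists_testBit_of_ne_zero hd0
            have hjβ : j < β := by
              by_contra hge
              rw [Nat.testBit_lt_two_pow
                (hd.trans_le (Nat.pow_le_pow_right (by omega) (by omega)))] at hj
              simp at hj
            have h4 := hV _ ((hb j hjβ).1 hj)
            have h5 : i ≤ S / β := by
              rw [Nat.le_div_iff_mul_le h1]
              omega
            omega
        · intro y hy y' hy' hyy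
          rw [Finset.mem_coe, Finset.mem_filter, Finset.mem_range] at hy hy'
          rcases hy.2 with rfl | ⟨i, d, hd0, hd, rfl, hb⟩ <;>
            rcases hy'.2 with h9 | ⟨i', d', hd0', hd', rfl, hb'⟩
          · exact h9.symm
          · rw [hf0, hf i' d' hd'] at hyy
            omega
          · rw [h9, hf0, hf i d hd] at hyy
            omega
          · rw [hf i d hd, hf i' d' hd'] at hyy
            have : i = i' := by omega
            subst this
            have : d = d' := by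
              apply Nat.eq_of_testBit_eq
              intro j
              rcases Nat.lt_or_ge j β with h10 | h10
              · rw [Bool.eq_iff_iff, hb j h10, hb' j h10]
              · rw [Nat.testBit_lt_two_pow
                  (hd.trans_le (Nat.pow_le_pow_right (by omega) h10)), Nat.testBit_lt_two_pow
                  (hd'.trans_le (Nat.pow_le_pow_right (by omega) h10))]
            rw [this]
      rwa [Finset.card_range] at h8
  · intro y
    rw [Finset.mem_filter, Finset.mem_range]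
    exact ⟨fun h => h.2, fun h => ⟨hlt y h, h⟩⟩

/-! ## Definability of the code -/

/-- the concatenation (interleaving) of `k` predicates -/
def Comb {k : ℕ} (V : SOA (ones k)) (x : ℕ) : Prop :=
  ∃ j : Fin k, ∃ i, i ≤ x ∧ (x = k * i + j ∧ V j (fun _ => i))

lemma comb_bset {k : ℕ} (v : Fin k → ℕ) (j : Fin k) (i : ℕ) :
    Comb (bset v) (k * i + j) ↔ (v j).testBit i = true := by
  constructor
  · rintro ⟨j', i', _, h1, h2⟩
    have hk : 0 < k := j.pos
    have e1 : (k * i + j) / k = i := by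
      rw [Nat.mul_add_div hk, Nat.div_eq_of_lt j.isLt, add_zero]
    have e2 : (k * i' + j') / k = i' := by
      rw [Nat.mul_add_div hk, Nat.div_eq_of_lt j'.isLt, add_zero]
    have hi : i = i' := by rw [← e1, h1, e2]
    subst hi
    have hj : j = j' := Fin.ext (by omega)
    subst hj
    exact h2
  · intro h
    have hk : 0 < k := j.pos
    exact ⟨j, i, by nlinarith, rfl, h⟩

lemma comb_lt {k s : ℕ} {v : Fin k → ℕ} (hv : ∀ j, v j < 2 ^ s) (x : ℕ)
    (h : Comb (bset v) x) : x < k * s := by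
  obtain ⟨j, i, _, rfl, h2⟩ := h
  have h3 : i < s := by
    by_contra hge
    have : (v j).testBit i = false :=
      Nat.testBit_lt_two_pow ((hv j).trans_le (Nat.pow_le_pow_right (by omega) (by omega)))
    have h4 : (v j).testBit i = true := h2
    rw [this] at h4
    simp at h4
  have h5 : k * (i + 1) ≤ k * s := Nat.mul_le_mul_left _ h3
  have h6 := j.isLt
  rw [mul_add, mul_one] at h5
  omega

lemma Comb_rudX {κ : Type} {b : κ → ℕ} {k m l : ℕ} {B : Fin k → SOA b → (Fin m → ℕ) →
    (Fin 1 → ℕ) → Prop} (hB : ∀ j, UD b m 1 (B j)) {u : Fin m → (Fin l → ℕ) → ℕ}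
    (hu : ∀ i, IsPoly l (u i)) {t : (Fin l → ℕ) → ℕ} (ht : IsPoly l t) :
    RudX b l (fun X v => Comb (k := k) (fun j => B j X (fun i => u i v)) (t v)) := by
  unfold Comb
  refine RudX.ex_fin (fun j => RudX.ex ht ((RudX.eq ht.tail
    (((IsPoly.const k).mul (IsPoly.var 0)).add (IsPoly.const j))).and' ?_))
  exact hB j (l + 1) (fun i w => u i (Fin.tail w)) (fun _ w => w 0) (fun i => (hu i).tail)
    (fun _ => IsPoly.var 0)

/-- bounded form of the code, with a bound `n` for `2 ^ β` -/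
def CodB (n β : ℕ) (V : ℕ → Prop) (y : ℕ) : Prop :=
  y = β ∨ ∃ p, p ≤ n ∧ (p = 2 ^ β ∧ ∃ i, i ≤ y ∧ ∃ d, d ≤ y ∧ (d ≠ 0 ∧ (d < p ∧
    (y = β + 1 + i * p + d ∧ ∀ j, j ≤ β → (j < β → (d.testBit j = true ↔ V (i * β + j)))))))

lemma codB_iff {n β : ℕ} (h : 2 ^ β ≤ n) (V : ℕ → Prop) (y : ℕ) :
    CodB n β V y ↔ Cod β V y := by
  unfold CodB Cod
  refine or_congr Iff.rfl ?_
  constructor
  · rintro ⟨p, _, rfl, i, _, d, _, h1, h2, h3, h4⟩
    exact ⟨i, d, h1, h2, h3, fun j hj => h4 j hj.le hj⟩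
  · rintro ⟨i, d, h1, h2, h3, h4⟩
    have : 1 ≤ 2 ^ β := Nat.one_le_two_pow
    exact ⟨2 ^ β, h, rfl, i, by nlinarith, d, by omega, h1, h2, h3, fun j _ hj => h4 j hj⟩

/-- bounded form of decoding -/
def DecB (n β : ℕ) (P : ℕ → Prop) (x : ℕ) : Prop :=
  ∃ p, p ≤ n ∧ (p = 2 ^ β ∧ ∃ i, i ≤ x ∧ ∃ j, j ≤ β ∧ (j < β ∧ (x = i * β + j ∧
    ∃ d, d ≤ p ∧ (d < p ∧ (P (β + 1 + i * p + d) ∧ d.testBit j = true)))))

lemma decB_iff {n β : ℕ} (h : 2 ^ β ≤ n) (P : ℕ → Prop) (x : ℕ) :
    DecB n β P x ↔ Dec β P x := by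
  unfold DecB Dec
  constructor
  · rintro ⟨p, _, rfl, i, _, j, _, h1, h2, d, _, h3, h4⟩
    exact ⟨i, j, h1, h2, d, h3, h4⟩
  · rintro ⟨i, j, h1, h2, d, h3, h4⟩
    exact ⟨2 ^ β, h, rfl, i, by nlinarith, j, h1.le, h1, h2, d, h3.le, h3, h4⟩

lemma DecB_rudX {κ : Type} {b : κ → ℕ} {m l : ℕ} (hP : PowRud)
    {B : SOA b → (Fin m → ℕ) → (Fin 1 → ℕ) → Prop} (hB : UD b m 1 B)
    {u : Fin m → (Fin l → ℕ) → ℕ} (hu : ∀ i, IsPoly l (u i)) {n β t : (Fin l → ℕ) → ℕ}
    (hn : IsPoly l n) (hβ : IsPoly l β) (ht : IsPoly l t) :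
    RudX b l (fun X v => DecB (n v) (β v) (fun y => B X (fun i => u i v) (fun _ => y)) (t v)) := by
  unfold DecB
  refine RudX.ex hn ((RudX.pow hP hβ.tail (IsPoly.const 2) (IsPoly.var 0)).and'
    (RudX.ex ht.tail (RudX.ex hβ.tail.tail ((RudX.lt (IsPoly.var 0) hβ.tail.tail.tail).and'
      ((RudX.eq ht.tail.tail.tail (((IsPoly.var 1).mul hβ.tail.tail.tail).add
        (IsPoly.var 0))).and' (RudX.ex (IsPoly.var 2) ((RudX.lt (IsPoly.var 0)
          (IsPoly.var 3)).and' (RudX.and' ?_ (RudX.testBit hP (IsPoly.var 1)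
            (IsPoly.var 0)))))))))) 
  exact hB (l + 1 + 1 + 1 + 1) (fun i w => u i (Fin.tail (Fin.tail (Fin.tail (Fin.tail w)))))
    (fun _ w => β (Fin.tail (Fin.tail (Fin.tail (Fin.tail w)))) + 1 + w 2 * w 3 + w 0)
    (fun i => (hu i).tail.tail.tail.tail)
    (fun _ => ((hβ.tail.tail.tail.tail.add (IsPoly.const 1)).add
      ((IsPoly.var 2).mul (IsPoly.var 3))).add (IsPoly.var 0))

lemma CodB_rudX {κ : Type} {b : κ → ℕ} {m l : ℕ} (hP : PowRud)
    {B : SOA b → (Fin m → ℕ) → ℕ → Prop}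
    (hB : ∀ (l : ℕ) (u : Fin m → (Fin l → ℕ) → ℕ) (t : (Fin l → ℕ) → ℕ),
      (∀ i, IsPoly l (u i)) → IsPoly l t → RudX b l (fun X v => B X (fun i => u i v) (t v)))
    {u : Fin m → (Fin l → ℕ) → ℕ} (hu : ∀ i, IsPoly l (u i)) {n β t : (Fin l → ℕ) → ℕ}
    (hn : IsPoly l n) (hβ : IsPoly l β) (ht : IsPoly l t) :
    RudX b l (fun X v => CodB (n v) (β v) (B X (fun i => u i v)) (t v)) := by
  unfold CodB
  refine RudX.or (RudX.eq ht hβ) (RudX.ex hn ((RudX.pow hP hβ.tail (IsPoly.const 2)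
    (IsPoly.var 0)).and' (RudX.ex ht.tail (RudX.ex ht.tail.tail ((RudX.not'
      (RudX.eq (IsPoly.var 0) (IsPoly.const 0))).and' ((RudX.lt (IsPoly.var 0)
        (IsPoly.var 2)).and' ((RudX.eq ht.tail.tail.tail
          (((hβ.tail.tail.tail.add (IsPoly.const 1)).add ((IsPoly.var 1).mul (IsPoly.var 2))).add
            (IsPoly.var 0))).and' (RudX.all hβ.tail.tail.tail (RudX.imp (RudX.lt (IsPoly.var 0)
              hβ.tail.tail.tail.tail) (RudX.iff (RudX.testBit hP (IsPoly.var 0)
                (IsPoly.var 1)) ?_))))))))))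
  exact hB (l + 1 + 1 + 1 + 1) (fun i w => u i (Fin.tail (Fin.tail (Fin.tail (Fin.tail w)))))
    (fun w => w 2 * β (Fin.tail (Fin.tail (Fin.tail (Fin.tail w)))) + w 0)
    (fun i => (hu i).tail.tail.tail.tail)
    (((IsPoly.var 2).mul hβ.tail.tail.tail.tail).add (IsPoly.var 0))

theorem multiCap {ℓ h : ℕ → ℕ} (hC : CapX (words ℓ h)) (hP : PowRud) {k : ℕ}
    {R : SOA (ones k) → (Fin 2 → ℕ) → Prop} (hR : ESO (ones k) 2 R) :
    ∃ ψ : SOA (ones k) → (Fin 2 → ℕ) → Prop, RudX (ones k) 2 ψ ∧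
      ∀ n β s, Room ℓ h n β (k * s) → ∀ v : Fin k → ℕ, (∀ j, v j < 2 ^ s) →
        (R (bset v) ![n, β] ↔ ψ (bset v) ![n, β]) := by
  let R' : SOA one → (Fin 1 → ℕ) → Prop := fun V v => ∃ β, β ≤ v 0 ∧
    ((V () (fun _ => β) ∧ ∀ y, y ≤ β → (y < β → ¬ V () (fun _ => y))) ∧
      R (fun j w => DecB (v 0) β (fun y => V () (fun _ => y)) (k * w 0 + j)) ![v 0, β])
  have hR' : ESO one 1 R' := by
    refine ESO.ex (IsPoly.var 0) (ESO.and (ESO.of (RudX.and' ?_ (RudX.all (IsPoly.var 0)
      (RudX.imp (RudX.lt (IsPoly.var 0) (IsPoly.var 1)) (RudX.not' ?_))))) ?_)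
    · exact RudX.so' (a := one) () (fun _ => IsPoly.var 0)
    · exact RudX.so' (a := one) () (fun _ => IsPoly.var 0)
    · refine (hR.subst (b' := one) (m := 2)
        (B := fun j X u w => DecB (u 1) (u 0) (fun y => X () (fun _ => y)) (k * w 0 + j))
        (f := ![fun w => w 1, fun w => w 0]) ?_ ?_).congr ?_
      · intro j l u w hu hw
        refine DecB_rudX (b := one) (m := 0) hP (B := fun X _ w => X () w) (UD.so (b := one) ())
          (u := fun i => i.elim0) (fun i => i.elim0) (hu 1) (hu 0)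
          (((IsPoly.const k).mul (hw 0)).add (IsPoly.const j))
      · intro i
        fin_cases i
        · exact IsPoly.var 1
        · exact IsPoly.var 0
      · intro X w
        refine Iff.of_eq (congrArg (R _) ?_)
        funext i
        fin_cases i <;> rfl
  obtain ⟨ψ', hψ', hψ⟩ := hC R' hR'
  refine ⟨fun V v => ψ' (fun _ w => CodB (v 0) (v 1) (Comb V) (w 0)) (fun _ => v 0), ?_, ?_⟩
  · refine substSO (b := ones k) (m := 2)
      (B := fun _ X u w => CodB (u 0) (u 1) (Comb X) (w 0)) hψ' ?_ 2 (fun i v => v i)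
      (fun i => IsPoly.var i) (fun _ v => v 0) (fun _ => IsPoly.var 0)
    intro _ l u w hu hw
    exact CodB_rudX (b := ones k) (m := 0) hP (B := fun X _ => Comb X)
      (fun l u t _ ht => Comb_rudX (b := ones k) (m := 0) (B := fun j X _ w => X j w)
        (fun j => UD.so (b := ones k) j) (u := fun i => i.elim0) (fun i => i.elim0) ht)
      (u := fun i => i.elim0) (fun i => i.elim0) (hu 0) (hu 1) (hw 0)
  · intro n β s hRoom v hv
    have hn1 : (k * s / β + 2) * 2 ^ β + 1 ≤ min (ℓ n) n := hRoom.2.1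
    have hβ1 : 1 ≤ β := hRoom.1
    have hpn : 2 ^ β ≤ n := by
      have : 2 ^ β ≤ (k * s / β + 2) * 2 ^ β := Nat.le_mul_of_pos_left _ (Nat.succ_pos _)
      omega
    have hβn : β ≤ n := (Nat.lt_two_pow_self (n := β)).le.trans hpn
    obtain ⟨P, hPw, hPy⟩ := exists_word hRoom (V := Comb (bset v)) (comb_lt hv)
    have h1 := hψ n (by omega) P hPw
    have e1 : pset P = (fun _ w => CodB n β (Comb (bset v)) (w 0) : SOA one) := by
      funext _ w
      exact propext ((hPy (w 0)).trans (codB_iff hpn _ _).symm)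
    have e2 : (fun j w => DecB n β (fun y => pset P () (fun _ => y)) (k * w 0 + j) :
        SOA (ones k)) = bset v := by
      funext j w
      apply propext
      rw [decB_iff hpn]
      have e3 : (fun y => pset P () (fun _ => y)) = Cod β (Comb (bset v)) := by
        funext y
        exact propext (hPy y)
      rw [e3, dec_cod hβ1, comb_bset]
      rfl
    have h2 : R' (pset P) (fun _ => n) ↔ R (bset v) ![n, β] := by
      constructor
      · rintro ⟨β', _, ⟨h3, h4⟩, h5⟩
        have h6 : Cod β (Comb (bset v)) β' := (hPy β').1 h3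
        have h7 : β' = β := by
          rcases h6 with h6 | ⟨i, d, _, _, h6, _⟩
          · exact h6
          · exfalso
            exact h4 β (by omega) (by omega) ((hPy β).2 (Or.inl rfl))
        subst h7
        have h8 : R (fun j w => DecB n β' (fun y => pset P () (fun _ => y)) (k * w 0 + j))
          ![n, β'] := h5
        rw [e2] at h8
        exact h8
      · intro h5
        refine ⟨β, hβn, ⟨(hPy β).2 (Or.inl rfl), fun y _ hy h6 => ?_⟩, ?_⟩
        · rcases (hPy y).1 h6 with h6 | ⟨i, d, _, _, h6, _⟩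
          · omega
          · omega
        · show R (fun j w => DecB n β (fun y => pset P () (fun _ => y)) (k * w 0 + j)) ![n, β]
          rw [e2]
          exact h5
    rw [← h2, h1, e1]
    rfl

end Pool.Agent.Helper20.Spectra
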