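import Pool.Agent.Helper20.Sparse.Def

/-!
# If there are many words then there is room for long binary words
-/

set_option autoImplicit false

namespace Pool.Agent.Helper20.Spectra

/-- few sets of at most `g` elements -/
lemma card_few {l g : ℕ} (hg : 1 ≤ g) (hgl : g ≤ l) :
    (Finset.card {P ∈ (Finset.range l).powerset | P.card ≤ g} : ℝ) ≤
      (3 * (l : ℝ) / g) ^ g := by
  have hl0 : (0 : ℝ) < l := by
    have : 0 < l := by omega
    exact_mod_cast this
  have hg0 : (0 : ℝ) < g := by exact_mod_cast hg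
  set x : ℝ := (g : ℝ) / l with hx
  have hx0 : 0 < x := div_pos hg0 hl0
  have hx1 : x ≤ 1 := by
    rw [hx, div_le_one hl0]
    exact_mod_cast hgl
  have h1 : ∑ t ∈ (Finset.range l).powerset, x ^ t.card * 1 ^ ((Finset.range l).card - t.card) =
      (x + 1) ^ (Finset.range l).card := Finset.sum_pow_mul_eq_add_pow x 1 (Finset.range l)
  simp only [one_pow, mul_one, Finset.card_range] at h1
  have h2 : (x + 1) ^ l ≤ 3 ^ g := by
    have h3 : x + 1 ≤ Real.exp x := Real.add_one_le_exp x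
    calc (x + 1) ^ l ≤ (Real.exp x) ^ l := pow_le_pow_left₀ (by linarith) h3 l
      _ = Real.exp g := by
          rw [← Real.exp_nat_mul]
          congr 1
          rw [hx]
          field_simp
      _ = (Real.exp 1) ^ g := by rw [← Real.exp_nat_mul, mul_one]
      _ ≤ 3 ^ g := pow_le_pow_left₀ (Real.exp_pos 1).le
          (by linarith [Real.exp_one_lt_d9]) g
  have h3 : (Finset.card {P ∈ (Finset.range l).powerset | P.card ≤ g} : ℝ) * x ^ g ≤
      ∑ t ∈ (Finset.range l).powerset, x ^ t.card := by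
    calc (Finset.card {P ∈ (Finset.range l).powerset | P.card ≤ g} : ℝ) * x ^ g
        = ∑ t ∈ {P ∈ (Finset.range l).powerset | P.card ≤ g}, x ^ g := by
          rw [Finset.sum_const, nsmul_eq_mul]
      _ ≤ ∑ t ∈ {P ∈ (Finset.range l).powerset | P.card ≤ g}, x ^ t.card := by
          refine Finset.sum_le_sum (fun t ht => ?_)
          rw [Finset.mem_filter] at ht
          exact pow_le_pow_of_le_one hx0.le hx1 ht.2
      _ ≤ ∑ t ∈ (Finset.range l).powerset, x ^ t.card :=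
          Finset.sum_le_sum_of_subset_of_nonneg (Finset.filter_subset _ _)
            (fun t _ _ => by positivity)
  have h4 : (3 * (l : ℝ) / g) ^ g * x ^ g = 3 ^ g := by
    rw [← mul_pow]
    congr 1
    rw [hx]
    field_simp
  have h5 : (Finset.card {P ∈ (Finset.range l).powerset | P.card ≤ g} : ℝ) * x ^ g ≤
      (3 * (l : ℝ) / g) ^ g * x ^ g := by
    rw [h4]
    exact h3.trans (h1.le.trans h2)
  exact le_of_mul_le_mul_right h5 (by positivity)

theorem room_of_card {ℓ h : ℕ → ℕ}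
    (hW : ¬ ∃ C : ℕ, ∀ n, 1 ≤ n → (words ℓ h n).card ≤ (n + 1) ^ C) (C : ℕ) :
    ∃ n β, C ≤ n ∧ Room ℓ h n β (C * (Nat.log 2 n + 1)) := by
  by_contra hno
  push Not at hno
  apply hW
  refine ⟨8 * C + 16, fun n hn => ?_⟩
  obtain ⟨L, hL⟩ : ∃ L, L = Nat.log 2 n + 1 := ⟨_, rfl⟩
  obtain ⟨S, hS⟩ : ∃ S, S = C * L := ⟨_, rfl⟩
  obtain ⟨l, hl⟩ : ∃ l, l = min (ℓ n) n := ⟨_, rfl⟩
  have hln : l ≤ n := by omega
  have hLn : 2 ^ L ≤ (n + 1) ^ 2 := by
    have h1 : 2 ^ Nat.log 2 n ≤ n := Nat.pow_log_le_self 2 (by omega)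
    rw [hL, pow_succ]
    nlinarith
  have hcard : (words ℓ h n).card ≤ 2 ^ l := by
    calc (words ℓ h n).card ≤ (Finset.range (min (ℓ n) n)).powerset.card :=
          Finset.card_le_card (Finset.filter_subset _ _)
      _ = 2 ^ l := by rw [Finset.card_powerset, Finset.card_range, hl]
  -- everything is bounded by a power of `2 ^ L`
  have hfin : ∀ m, m ≤ 4 * S + 8 * L → 2 ^ m ≤ (n + 1) ^ (8 * C + 16) := by
    intro m hm
    calc 2 ^ m ≤ 2 ^ (L * (4 * C + 8)) := by
          apply Nat.pow_le_pow_right (by omega)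
          calc m ≤ 4 * S + 8 * L := hm
            _ = L * (4 * C + 8) := by rw [hS]; ring
      _ = (2 ^ L) ^ (4 * C + 8) := by rw [pow_mul]
      _ ≤ ((n + 1) ^ 2) ^ (4 * C + 8) := Nat.pow_le_pow_left hLn _
      _ = (n + 1) ^ (8 * C + 16) := by rw [← pow_mul]; congr 1; ring
  have hL1 : 1 ≤ L := by omega
  rcases Nat.lt_or_ge n C with hnC | hnC
  · refine hcard.trans ((Nat.pow_le_pow_right (by omega) hln).trans (hfin n ?_))
    have : C * 1 ≤ C * L := Nat.mul_le_mul_left _ hL1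
    omega
  have hno' := fun β => hno n β hnC
  rw [← hL, ← hS] at hno'
  rcases Nat.lt_or_ge l ((S + 2) * 2 + 1) with hsmall | hbig
  · exact hcard.trans (hfin l (by omega))
  -- the maximal `β`
  obtain ⟨β, hβ1, hβ, hmax⟩ : ∃ β, 1 ≤ β ∧ (S / β + 2) * 2 ^ β + 1 ≤ l ∧
      ¬ ((S / (β + 1) + 2) * 2 ^ (β + 1) + 1 ≤ l) := by
    by_contra hcon
    push Not at hcon
    have h1 : ∀ β, 1 ≤ β → (S / β + 2) * 2 ^ β + 1 ≤ l := by
      intro β hβ
      induction β, hβ using Nat.le_induction with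
      | base => simpa using hbig
      | succ β hβ ih => exact hcon β hβ ih
    have h2 := h1 (l + 1) (by omega)
    have h3 : l + 1 < 2 ^ (l + 1) := Nat.lt_two_pow_self
    have h4 : 2 ^ (l + 1) ≤ (S / (l + 1) + 2) * 2 ^ (l + 1) :=
      Nat.le_mul_of_pos_left _ (Nat.succ_pos _)
    omega
  have hβL : β ≤ L := by
    have h1 : 2 ^ β ≤ (S / β + 2) * 2 ^ β := Nat.le_mul_of_pos_left _ (Nat.succ_pos _)
    have h2 : 2 ^ β ≤ n := by omega
    have h3 : β ≤ Nat.log 2 n := Nat.le_log_of_pow_le (by omega) h2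
    omega
  obtain ⟨g, hg⟩ : ∃ g, g = S / β + 2 := ⟨_, rfl⟩
  have hh : h n ≤ g := by
    by_contra hgt
    exact hno' β ⟨hβ1, by omega, by omega⟩
  have hlg : l ≤ 2 * g * 2 ^ β := by
    have h1 : S / (β + 1) ≤ S / β := Nat.div_le_div_left (by omega) hβ1
    have h2 : (S / (β + 1) + 2) * 2 ^ (β + 1) ≤ g * 2 ^ (β + 1) :=
      Nat.mul_le_mul_right _ (by omega)
    have h3 : g * 2 ^ (β + 1) = 2 * g * 2 ^ β := by rw [pow_succ]; ring
    omega
  have hβg : β * g ≤ S + 2 * β := by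
    rw [hg, mul_add]
    have := Nat.mul_div_le S β
    omega
  have hgl : g ≤ l := by
    have h1 : g ≤ g * 2 ^ β := Nat.le_mul_of_pos_right _ (by positivity)
    rw [hg] at h1 ⊢
    omega
  have hg1 : 1 ≤ g := by rw [hg]; exact Nat.succ_pos _
  have hsub : (words ℓ h n).card ≤
      Finset.card {P ∈ (Finset.range l).powerset | P.card ≤ g} := by
    apply Finset.card_le_card
    intro P hP
    unfold words at hP
    rw [Finset.mem_filter] at hP ⊢
    rw [hl]
    exact ⟨hP.1, hP.2.trans hh⟩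
  have h1 := card_few hg1 hgl
  have h2 : (3 * (l : ℝ) / g) ^ g ≤ ((2 : ℝ) ^ (4 * β)) ^ g := by
    apply pow_le_pow_left₀ (by positivity)
    have hg0 : (0 : ℝ) < g := by exact_mod_cast hg1
    rw [div_le_iff₀ hg0]
    have h3 : (l : ℝ) ≤ 2 * g * 2 ^ β := by exact_mod_cast hlg
    have h4 : (6 : ℝ) * 2 ^ β ≤ 2 ^ (4 * β) := by
      have h5 : (2 : ℝ) ^ 3 ≤ 2 ^ (3 * β) := pow_le_pow_right₀ (by norm_num) (by omega)
      have h6 : (2 : ℝ) ^ (4 * β) = 2 ^ (3 * β) * 2 ^ β := by rw [← pow_add]; congr 1; ring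
      rw [h6]
      have h7 : (0 : ℝ) < 2 ^ β := by positivity
      nlinarith
    nlinarith
  have h3 : ((words ℓ h n).card : ℝ) ≤ ((2 ^ (4 * (β * g)) : ℕ) : ℝ) := by
    calc ((words ℓ h n).card : ℝ) ≤
          (Finset.card {P ∈ (Finset.range l).powerset | P.card ≤ g} : ℝ) := by exact_mod_cast hsub
      _ ≤ (3 * (l : ℝ) / g) ^ g := h1
      _ ≤ ((2 : ℝ) ^ (4 * β)) ^ g := h2
      _ = ((2 ^ (4 * (β * g)) : ℕ) : ℝ) := by
          push_cast
          rw [← pow_mul]
          congr 1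
          ring
  have h4 : (words ℓ h n).card ≤ 2 ^ (4 * (β * g)) := by exact_mod_cast h3
  exact h4.trans (hfin _ (by omega))

end Pool.Agent.Helper20.Spectra
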