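import Pool.Agent.Helper20.Sparse.Trans

/-!
# Diagonalisation
-/

set_option autoImplicit false

namespace Pool.Agent.Helper20.Spectra

lemma ESO.ofEx {ι : Type} [Finite ι] {a : ι → ℕ} {k : ℕ} {Φ : SOA a → (Fin k → ℕ) → Prop}
    (h : RudX a k Φ) {κ : Type} (b : κ → ℕ) : ESO b k (fun _ v => ∃ X, Φ X v) := by
  refine ⟨ι, inferInstance, a, fun Y v => Φ (fun i => Y (Sum.inr i)) v, ?_, ?_⟩
  · exact substSO (b := Sum.elim b a) (m := 0)
      (B := fun i X _ w => X (Sum.inr i) w) h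
      (fun i => UD.so (b := Sum.elim b a) (Sum.inr i)) k
      (fun i => i.elim0) (fun i => i.elim0) (fun i v => v i) (fun i => IsPoly.var i)
  · intro V v
    exact Iff.rfl

lemma empty_mem_words (ℓ h : ℕ → ℕ) (n : ℕ) : ∅ ∈ words ℓ h n := by
  simp [words]

/-- bounded definability on words implies that all spectra are rudimentary -/
theorem capQ {ℓ h : ℕ → ℕ} (hC : CapX (words ℓ h)) : SRud := by
  intro A hA
  obtain ⟨k, Θ, hΘ⟩ := spectrum_blocks hA
  obtain ⟨C, hC'⟩ := exists_SqCond Θ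
  have hR : ESO one 1 (fun _ v => ∃ X, SqCond Θ C X (v 0 ^ (k + 1))) :=
    ESO.ofEx (SqCond_rudX Θ C ((IsPoly.var (0 : Fin 1)).pow (k + 1))) one
  obtain ⟨ψ, hψ, h1⟩ := hC _ hR
  have h2 : Rud 1 {v | ψ (pset ∅) v} := hψ.toRud' (pset ∅) (fun i w => by simp [pset])
  have h3 : RudX none0 1 (fun _ v => 1 ≤ v 0 ∧ v ∈ {v | ψ (pset ∅) v}) :=
    (RudX.le (IsPoly.const 1) (IsPoly.var 0)).and' (RudX.ofRud h2)
  rw [isRudimentary_iff]
  refine h3.toRud.congr ?_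
  ext v
  have hv : v = fun _ => v 0 := by
    funext i
    rw [Subsingleton.elim i 0]
  simp only [Set.mem_ofPred_eq]
  have key : ∀ n, 1 ≤ n → (n ∈ A ↔ ψ (pset ∅) (fun _ => n)) := by
    intro n hn
    rw [hΘ n hn, hC', ← h1 n hn ∅ (empty_mem_words ℓ h n)]
  constructor
  · rintro ⟨h4, h5⟩
    rw [key _ h4, ← hv]
    exact h5
  · intro h4
    have h5 : 1 ≤ v 0 := hA.pos h4
    refine ⟨h5, ?_⟩
    rw [hv, ← key _ h5]
    exact h4

lemma pr2_le {x y M : ℕ} (hx : x ≤ M) (hy : y ≤ M) (hM : 1 ≤ M) : pr2 x y ≤ 5 * M ^ 2 := by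
  unfold pr2
  have h1 : (x + y) ^ 2 ≤ (2 * M) ^ 2 := Nat.pow_le_pow_left (by omega) 2
  nlinarith

/-- No room for long words. -/
theorem diag {ℓ h : ℕ → ℕ} (hC : CapX (words ℓ h))
    (hR : ∀ C, ∃ n β, C ≤ n ∧ Room ℓ h n β (C * (Nat.log 2 n + 1))) : False := by
  have hQ : SRud := capQ hC
  have hP : PowRud := powRud hQ
  have hU : IsRudimentary univSizes := hQ _ univSizes_spectrum
  -- the universal relation
  let 𝒱 : Set (Fin 3 → ℕ) := {w | ∃ k, k ≤ w 2 ∧ ∃ t, t ≤ w 2 ∧ (w 2 = pr2 k t ∧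
    ∃ y, y ≤ w 0 ∧ (y = w 1 ^ (k + 1) ∧ (y + 2 + t) ^ 2 + t ∈ univSizes))}
  have h𝒱 : Rud 3 𝒱 := by
    have h1 : RudX none0 3 (fun _ w => ∃ k, k ≤ w 2 ∧ ∃ t, t ≤ w 2 ∧ (w 2 = pr2 k t ∧
        ∃ y, y ≤ w 0 ∧ (y = w 1 ^ (k + 1) ∧ (y + 2 + t) ^ 2 + t ∈ univSizes))) := by
      refine RudX.ex (IsPoly.var 2) (RudX.ex (IsPoly.var 3) ((RudX.eq (IsPoly.var 4)
        (IsPoly.pr2 (IsPoly.var 1) (IsPoly.var 0))).and' (RudX.ex (IsPoly.var 2)
          ((RudX.pow hP ((IsPoly.var 2).add (IsPoly.const 1)) (IsPoly.var 4)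
            (IsPoly.var 0)).and' (RudX.mem hU ?_)))))
      exact ((((IsPoly.var 0).add (IsPoly.const 2)).add (IsPoly.var 1)).pow 2).add (IsPoly.var 1)
    exact h1.toRud
  obtain ⟨C, ψ, hψ, hψ'⟩ := trans hC hP h𝒱
  -- the diagonal set
  let D : Set ℕ := {z | ∃ n, n ≤ z ∧ ∃ β, β ≤ z ∧ ∃ e, e ≤ z ∧ ∃ t, t ≤ z ∧
    (z = pr2 (pr2 n β) (pr2 e t) + 1 ∧ ¬ ψ (bset ![2 ^ t, z, e]) ![n, β])}
  have hD : IsRudimentary D := by
    rw [isRudimentary_iff]
    have h1 : RudX none0 5 (fun _ v => ψ (bset ![2 ^ (v 0), v 4, v 1]) ![v 3, v 2]) := by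
      refine (substSO (b := none0) (m := 3)
        (B := fun j _ u w => (![w 0 = u 0, (u 1).testBit (w 0) = true,
          (u 2).testBit (w 0) = true] : Fin 3 → Prop) j) hψ ?_ 5
        ![fun v => v 0, fun v => v 4, fun v => v 1] ?_ ![fun v => v 3, fun v => v 2] ?_).congr ?_
      · intro j l u w hu hw
        fin_cases j
        · exact RudX.eq (hw 0) (hu 0)
        · exact RudX.testBit hP (hw 0) (hu 1)
        · exact RudX.testBit hP (hw 0) (hu 2)
      · intro i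
        fin_cases i
        · exact IsPoly.var 0
        · exact IsPoly.var 4
        · exact IsPoly.var 1
      · intro i
        fin_cases i
        · exact IsPoly.var 3
        · exact IsPoly.var 2
      · intro X v
        have e1 : bset ![2 ^ (v 0), v 4, v 1] = (fun j w => (![w 0 = v 0,
            (v 4).testBit (w 0) = true, (v 1).testBit (w 0) = true] : Fin 3 → Prop) j :
            SOA (ones 3)) := by
          funext j w
          fin_cases j
          · apply propext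
            show (2 ^ (v 0)).testBit (w 0) = true ↔ w 0 = v 0
            rw [Nat.testBit_two_pow, decide_eq_true_iff]
            exact eq_comm
          · rfl
          · rfl
        have e2 : (![v 3, v 2] : Fin 2 → ℕ) = (fun j => (![fun v : Fin 5 → ℕ => v 3,
            fun v => v 2] : Fin 2 → (Fin 5 → ℕ) → ℕ) j v) := by
          funext j
          fin_cases j <;> rfl
        rw [e1, e2]
        rfl
    have h2 : RudX none0 1 (fun _ v => ∃ n, n ≤ v 0 ∧ ∃ β, β ≤ v 0 ∧ ∃ e, e ≤ v 0 ∧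
        ∃ t, t ≤ v 0 ∧ (v 0 = pr2 (pr2 n β) (pr2 e t) + 1 ∧
          ¬ ψ (bset ![2 ^ t, v 0, e]) ![n, β])) := by
      refine RudX.ex (IsPoly.var 0) (RudX.ex (IsPoly.var 1) (RudX.ex (IsPoly.var 2)
        (RudX.ex (IsPoly.var 3) ((RudX.eq (IsPoly.var 4) ((IsPoly.pr2
          (IsPoly.pr2 (IsPoly.var 3) (IsPoly.var 2))
          (IsPoly.pr2 (IsPoly.var 1) (IsPoly.var 0))).add (IsPoly.const 1))).and' h1.not'))))
    exact h2.toRud
  have hD0 : 0 ∉ D := by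
    rintro ⟨n, _, β, _, e, _, t, _, h, _⟩
    omega
  have hDs : IsSpectrum D := hD.isSpectrum hD0
  obtain ⟨k, Θ, hΘ⟩ := spectrum_blocks hDs
  obtain ⟨t₀, rfl⟩ := exists_blk Θ
  -- the parameters
  obtain ⟨e, he⟩ : ∃ e, e = pr2 k t₀ := ⟨_, rfl⟩
  obtain ⟨A, hA⟩ : ∃ A, A = 11 * (k + 1) + 1 := ⟨_, rfl⟩
  obtain ⟨n, β, hn, hRoom⟩ := hR (C * (A + 1) + e + A + 1)
  obtain ⟨L, hL⟩ : ∃ L, L = Nat.log 2 n + 1 := ⟨_, rfl⟩
  rw [← hL] at hRoom
  have hnL : n < 2 ^ L := by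
    rw [hL]
    exact Nat.lt_pow_succ_log_self (by omega) n
  have hL1 : 1 ≤ L := by omega
  have hn1 : 1 ≤ n := by omega
  have hRoom' : Room ℓ h n β (C * (A * L + 1)) := by
    apply hRoom.mono
    calc C * (A * L + 1) ≤ C * (A * L + L) := Nat.mul_le_mul_left _ (by omega)
      _ = C * (A + 1) * L := by ring
      _ ≤ (C * (A + 1) + e + A + 1) * L := Nat.mul_le_mul_right _ (by omega)
  have hAL : A * L ≤ n := by
    refine le_trans ?_ hRoom.le
    exact Nat.mul_le_mul_right _ (by omega)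
  have hβn : β ≤ n := by
    have h1 : (((C * (A + 1) + e + A + 1) * L) / β + 2) * 2 ^ β + 1 ≤ min (ℓ n) n := hRoom.2.1
    have h2 : 2 ^ β ≤ (((C * (A + 1) + e + A + 1) * L) / β + 2) * 2 ^ β :=
      Nat.le_mul_of_pos_left _ (Nat.succ_pos _)
    have h3 := (Nat.lt_two_pow_self (n := β)).le
    omega
  obtain ⟨t, ht⟩ : ∃ t, t + 1 = A * L := by
    refine ⟨A * L - 1, ?_⟩
    have : 1 ≤ A * L := Nat.mul_pos (by omega) hL1
    omega
  obtain ⟨z, hz⟩ : ∃ z, z = pr2 (pr2 n β) (pr2 e t) + 1 := ⟨_, rfl⟩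
  have hzle : z ≤ 2 ^ (11 * L) := by
    have h1 := pr2_le (x := n) (y := β) le_rfl hβn hn1
    have h2 := pr2_le (x := e) (y := t) (M := n) (by omega) (by omega) hn1
    have h4 : 1 ≤ n ^ 2 := Nat.one_le_pow _ _ hn1
    have h3 := pr2_le h1 h2 (by omega)
    have h5 : z ≤ 2 ^ 7 * n ^ 4 := by
      rw [hz]
      have h6 : 5 * (5 * n ^ 2) ^ 2 = 125 * n ^ 4 := by ring
      have h7 : 1 ≤ n ^ 4 := Nat.one_le_pow _ _ hn1
      rw [h6] at h3
      omega
    calc z ≤ 2 ^ 7 * n ^ 4 := h5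
      _ ≤ 2 ^ (7 * L) * (2 ^ L) ^ 4 := Nat.mul_le_mul
          (Nat.pow_le_pow_right (by omega) (by omega)) (Nat.pow_le_pow_left hnL.le 4)
      _ = 2 ^ (11 * L) := by rw [← pow_mul, ← pow_add]; congr 1; ring
  have hAL' : 11 * L < A * L := by
    have : 11 * L < 12 * L := by omega
    have h2 : 12 * L ≤ A * L := Nat.mul_le_mul_right _ (by omega)
    omega
  have hzt : z ^ (k + 1) ≤ 2 ^ t := by
    calc z ^ (k + 1) ≤ (2 ^ (11 * L)) ^ (k + 1) := Nat.pow_le_pow_left hzle _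
      _ = 2 ^ (11 * L * (k + 1)) := by rw [← pow_mul]
      _ ≤ 2 ^ t := by
          apply Nat.pow_le_pow_right (by omega)
          have h1 : A * L = 11 * L * (k + 1) + L := by rw [hA]; ring
          omega
  have hlt : ∀ j : Fin 3, (![2 ^ t, z, e] : Fin 3 → ℕ) j < 2 ^ (A * L) := by
    intro j
    fin_cases j
    · show 2 ^ t < 2 ^ (A * L)
      exact Nat.pow_lt_pow_right (by omega) (by omega)
    · show z < 2 ^ (A * L)
      exact hzle.trans_lt (Nat.pow_lt_pow_right (by omega) hAL')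
    · show e < 2 ^ (A * L)
      calc e ≤ n := by omega
        _ < 2 ^ L := hnL
        _ ≤ 2 ^ (A * L) := Nat.pow_le_pow_right (by omega) (Nat.le_mul_of_pos_left _ (by omega))
  have h1 : z ∈ D ↔ ¬ ψ (bset ![2 ^ t, z, e]) ![n, β] := by
    constructor
    · rintro ⟨n', _, β', _, e', _, t', _, h2, h3⟩
      rw [hz] at h2
      obtain ⟨h4, h5⟩ := pr2_inj (Nat.succ_injective h2)
      obtain ⟨rfl, rfl⟩ := pr2_inj h4
      obtain ⟨rfl, rfl⟩ := pr2_inj h5
      exact h3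
    · intro h2
      have a1 := le_pr2 (pr2 n β) (pr2 e t)
      have a2 := le_pr2 n β
      have a3 := le_pr2 e t
      exact ⟨n, by omega, β, by omega, e, by omega, t, by omega, hz, h2⟩
  have h2 := hψ' n β (A * L) hRoom' ![2 ^ t, z, e] hlt
  have h3 : ![2 ^ t, z, e] ∈ 𝒱 ↔ (z ^ (k + 1) + 2 + t₀) ^ 2 + t₀ ∈ univSizes := by
    constructor
    · rintro ⟨k', _, t', _, h4, y, _, h5, h6⟩
      have h4' : e = pr2 k' t' := h4
      rw [he] at h4'
      obtain ⟨rfl, rfl⟩ := pr2_inj h4'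
      have h5' : y = z ^ (k + 1) := h5
      rw [← h5']
      exact h6
    · intro h4
      have a1 := le_pr2 k t₀
      exact ⟨k, by show k ≤ e; omega, t₀, by show t₀ ≤ e; omega, he, z ^ (k + 1), hzt, rfl, h4⟩
  have h4 : z ∈ D ↔ (z ^ (k + 1) + 2 + t₀) ^ 2 + t₀ ∈ univSizes := by
    rw [mem_univSizes]
    exact hΘ z (by omega)
  tauto

end Pool.Agent.Helper20.Spectra
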