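import Pool.Agent.Helper20.Sparse.Diag

/-!
# Generalised spectra are existential second-order bounded conditions
-/

set_option autoImplicit false

namespace Pool.Agent.Helper20.Spectra

open FirstOrder FirstOrder.Language

/-- tuples of numbers below `t` -/
lemma UD.exTup {κ : Type} {b : κ → ℕ} {k : ℕ} {t : (Fin k → ℕ) → ℕ} (ht : IsPoly k t) :
    ∀ {l r : ℕ} {P : SOA b → (Fin k → ℕ) → (Fin l → ℕ) → (Fin r → ℕ) → Prop}
      (_ : ∀ (m : ℕ) (u : Fin k → (Fin m → ℕ) → ℕ) (x : Fin l → (Fin m → ℕ) → ℕ)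
        (w : Fin r → (Fin m → ℕ) → ℕ), (∀ i, IsPoly m (u i)) → (∀ i, IsPoly m (x i)) →
        (∀ i, IsPoly m (w i)) →
        RudX b m (fun X v => P X (fun i => u i v) (fun i => x i v) (fun i => w i v))),
      UD b k r (fun X v w => ∃ x : Fin l → ℕ, (∀ i, x i < t v) ∧ P X v x w) := by
  intro l
  induction l with
  | zero =>
    intro r P hP m u w hu hw
    refine (hP m u (fun i => i.elim0) w hu (fun i => i.elim0) hw).congr (fun X v => ?_)
    have e : ∀ x : Fin 0 → ℕ, x = fun i => (Fin.elim0 i : (Fin m → ℕ) → ℕ) v :=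
      fun x => funext (fun i => i.elim0)
    constructor
    · rintro ⟨x, _, h⟩
      rw [e x] at h
      exact h
    · intro h
      exact ⟨_, fun i => i.elim0, h⟩
  | succ l ih =>
    intro r P hP m u w hu hw
    have h1 := ih (r := r + 1) (P := fun X v x w => P X v (Fin.cons (w 0) x) (Fin.tail w))
      (fun m u x w hu hx hw => by
        refine (hP m u (Fin.cons (w 0) x) (fun i => w i.succ) hu ?_ (fun i => hw _)).congr ?_
        · intro i
          refine Fin.cases ?_ (fun i => ?_) i
          · exact hw 0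
          · exact hx i
        · intro X v
          refine Iff.of_eq (congrArg (fun x => P X _ x _) ?_)
          funext i
          refine Fin.cases ?_ (fun i => ?_) i <;> rfl)
    have h2 := h1 (m + 1) (fun i v => u i (Fin.tail v)) (Fin.cons (fun v => v 0)
      (fun i v => w i (Fin.tail v))) (fun i => (hu i).tail) (fun i => by
        refine Fin.cases ?_ (fun i => ?_) i
        · exact IsPoly.var 0
        · exact (hw i).tail)
    have htu : IsPoly m (fun v => t (fun i => u i v)) := ht.sub hu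
    refine (RudX.ex htu (P := fun X v y => y < t (fun i => u i v) ∧ ∃ x : Fin l → ℕ,
      (∀ i, x i < t (fun i => u i v)) ∧ P X (fun i => u i v) (Fin.cons y x) (fun i => w i v))
      ((RudX.lt (IsPoly.var 0) htu.tail).and' (h2.congr (fun X v => Iff.rfl)))).congr ?_
    intro X v
    constructor
    · rintro ⟨x, hx, h⟩
      refine ⟨x 0, (hx 0).le, hx 0, fun i => x i.succ, fun i => hx _, ?_⟩
      have e : (Fin.cons (x 0) (fun i => x i.succ) : Fin (l + 1) → ℕ) = x :=
        Fin.cons_self_tail x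
      rw [e]
      exact h
    · rintro ⟨y, _, hy, x, hx, h⟩
      refine ⟨Fin.cons y x, fun i => ?_, h⟩
      refine Fin.cases ?_ (fun i => ?_) i
      · exact hy
      · exact hx i

section

variable {L : FirstOrder.Language.{0, 0}}

/-- arities of the second-order variables for the symbols of `L` -/
def asym (L : FirstOrder.Language.{0, 0}) : Sym L → ℕ :=
  Sum.elim (fun f => f.1 + 1) (fun r => r.1)

/-- the second-order variables code the structure -/
def CodesX (n : ℕ) (X : SOA (asym L)) (S : L.Structure (Fin n)) : Prop :=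
  (∀ (f : Σ l, L.Functions l) (x : Fin f.1 → Fin n) (y : Fin n),
    (X (Sum.inl f) (Fin.cons (y : ℕ) (fun i => (x i : ℕ)) : Fin (f.1 + 1) → ℕ) ↔
      S.funMap f.2 x = y)) ∧
  (∀ (r : Σ l, L.Relations l) (x : Fin r.1 → Fin n),
    (X (Sum.inr r) (fun i => (x i : ℕ)) ↔ S.RelMap r.2 x))

lemma term_X {m : ℕ} (t : L.Term (Empty ⊕ Fin m)) :
    ∃ T : SOA (asym L) → (Fin 1 → ℕ) → (Fin (m + 1) → ℕ) → Prop, UD (asym L) 1 (m + 1) T ∧
      ∀ n X (S : L.Structure (Fin n)), CodesX n X S → ∀ (v : Fin m → Fin n) (y : Fin n),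
        (T X (fun _ => n) (Fin.cons (y : ℕ) (fun i => (v i : ℕ))) ↔
          @Term.realize L (Fin n) S _ (Sum.elim Empty.elim v) t = y) := by
  induction t with
  | var i =>
    rcases i with i | i
    · exact i.elim
    · refine ⟨fun _ _ w => w 0 = w i.succ, fun l u w _ hw => RudX.eq (hw _) (hw _), ?_⟩
      intro n X S _ v y
      show (y : ℕ) = (v i : ℕ) ↔ v i = y
      rw [Fin.ext_iff]
      exact eq_comm
  | func f ts ih =>
    rename_i l
    choose T hT hT' using ih
    refine ⟨fun X u w => ∃ z : Fin l → ℕ, (∀ i, z i < u 0) ∧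
      ((∀ i, T i X u (Fin.cons (z i) (Fin.tail w))) ∧
        X (Sum.inl ⟨l, f⟩) (Fin.cons (w 0) z : Fin (l + 1) → ℕ)), ?_, ?_⟩
    · refine UD.exTup (b := asym L) (IsPoly.var 0) ?_
      intro m' u x w hu hx hw
      refine (RudX.all_fin (fun i => ?_)).and' ?_
      · refine (hT i m' u (Fin.cons (x i) (fun j => w j.succ)) hu ?_).congr ?_
        · intro j
          refine Fin.cases ?_ (fun j => ?_) j
          · exact hx i
          · exact hw _
        · intro X v
          refine Iff.of_eq (congrArg (T i X _) ?_)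
          funext j
          refine Fin.cases ?_ (fun j => ?_) j <;> rfl
      · refine (RudX.so' (a := asym L) (Sum.inl ⟨l, f⟩)
          (t := (Fin.cons (w 0) x : Fin (l + 1) → (Fin m' → ℕ) → ℕ)) ?_).congr ?_
        · intro j
          change Fin (l + 1) at j
          refine Fin.cases ?_ (fun j => ?_) j
          · exact hw 0
          · exact hx j
        · intro X v
          refine Iff.of_eq (congrArg (X (Sum.inl ⟨l, f⟩)) ?_)
          funext j
          change Fin (l + 1) at j
          refine Fin.cases ?_ (fun j => ?_) j <;> rfl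
    · intro n X S hc v y
      have h1 : ∀ z : Fin l → ℕ, (∀ i, z i < n) → ((∀ i, T i X (fun _ => n) (Fin.cons (z i)
          (fun i => (v i : ℕ)))) ↔ ∀ i, ((@Term.realize L (Fin n) S _ (Sum.elim Empty.elim v)
            (ts i) : Fin n) : ℕ) = z i) := by
        intro z hz
        apply forall_congr'
        intro i
        have := hT' i n X S hc v ⟨z i, hz i⟩
        rw [Fin.ext_iff] at this
        exact this
      constructor
      · rintro ⟨z, hz, h2, h3⟩
        have hz' : ∀ i, z i < n := hz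
        have h4 := (h1 z hz').1 h2
        have h5 := (hc.1 ⟨l, f⟩ (fun i => @Term.realize L (Fin n) S _ (Sum.elim Empty.elim v)
          (ts i)) y).1 (by
            have e : (fun i => ((@Term.realize L (Fin n) S _ (Sum.elim Empty.elim v) (ts i) :
              Fin n) : ℕ)) = z := funext h4
            show X (Sum.inl ⟨l, f⟩) (Fin.cons (y : ℕ) (fun i => ((@Term.realize L (Fin n) S _
              (Sum.elim Empty.elim v) (ts i) : Fin n) : ℕ)) : Fin (l + 1) → ℕ)
            rw [e]
            exact h3)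
        exact h5
      · intro h2
        refine ⟨fun i => ((@Term.realize L (Fin n) S _ (Sum.elim Empty.elim v) (ts i) :
          Fin n) : ℕ), fun i => Fin.is_lt _, ?_, ?_⟩
        · exact (h1 _ (fun i => Fin.is_lt _)).2 (fun i => rfl)
        · exact (hc.1 ⟨l, f⟩ _ y).2 h2

lemma form_X {m : ℕ} (φ : L.BoundedFormula Empty m) :
    ∃ F : SOA (asym L) → (Fin 1 → ℕ) → (Fin m → ℕ) → Prop, UD (asym L) 1 m F ∧
      ∀ n X (S : L.Structure (Fin n)), CodesX n X S → ∀ (v : Fin m → Fin n),
        (F X (fun _ => n) (fun i => (v i : ℕ)) ↔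
          @BoundedFormula.Realize L (Fin n) S _ _ φ Empty.elim v) := by
  induction φ with
  | falsum =>
    refine ⟨fun _ _ _ => False, fun l u w _ _ => RudX.const False, ?_⟩
    intro n X S _ v
    exact Iff.rfl
  | equal t₁ t₂ =>
    rename_i m
    obtain ⟨T1, h1, h1'⟩ := term_X t₁
    obtain ⟨T2, h2, h2'⟩ := term_X t₂
    refine ⟨fun X u w => ∃ y, y ≤ u 0 ∧ (y < u 0 ∧ (T1 X u (Fin.cons y w) ∧
      T2 X u (Fin.cons y w))), ?_, ?_⟩
    · intro l u w hu hw
      have hc : ∀ j, IsPoly (l + 1) ((Fin.cons (fun v => v 0) (fun j v => w j (Fin.tail v)) :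
          Fin (m + 1) → (Fin (l + 1) → ℕ) → ℕ) j) := by
        intro j
        refine Fin.cases ?_ (fun j => ?_) j
        · exact IsPoly.var 0
        · exact (hw j).tail
      refine RudX.ex (hu 0) ((RudX.lt (IsPoly.var 0) (hu 0).tail).and' (RudX.and' ?_ ?_))
      · refine (h1 (l + 1) (fun i v => u i (Fin.tail v)) _ (fun i => (hu i).tail) hc).congr ?_
        intro X v
        refine Iff.of_eq (congrArg (T1 X _) ?_)
        funext j
        refine Fin.cases ?_ (fun j => ?_) j <;> rfl
      · refine (h2 (l + 1) (fun i v => u i (Fin.tail v)) _ (fun i => (hu i).tail) hc).congr ?_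
        intro X v
        refine Iff.of_eq (congrArg (T2 X _) ?_)
        funext j
        refine Fin.cases ?_ (fun j => ?_) j <;> rfl
    · intro n X S hc v
      constructor
      · rintro ⟨y, _, hy, h3, h4⟩
        have h5 := (h1' n X S hc v ⟨y, hy⟩).1 h3
        have h6 := (h2' n X S hc v ⟨y, hy⟩).1 h4
        exact h5.trans h6.symm
      · intro h3
        refine ⟨_, (Fin.is_lt _).le, Fin.is_lt _,
          (h1' n X S hc v _).2 rfl, (h2' n X S hc v _).2 (Eq.symm h3)⟩
  | rel R ts =>
    rename_i m l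
    choose T hT hT' using fun i => term_X (ts i)
    refine ⟨fun X u w => ∃ z : Fin l → ℕ, (∀ i, z i < u 0) ∧
      ((∀ i, T i X u (Fin.cons (z i) w)) ∧ X (Sum.inr ⟨l, R⟩) z), ?_, ?_⟩
    · refine UD.exTup (b := asym L) (IsPoly.var 0) ?_
      intro m' u x w hu hx hw
      refine (RudX.all_fin (fun i => ?_)).and' ?_
      · refine (hT i m' u (Fin.cons (x i) w) hu ?_).congr ?_
        · intro j
          refine Fin.cases ?_ (fun j => ?_) j
          · exact hx i
          · exact hw _
        · intro X v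
          refine Iff.of_eq (congrArg (T i X _) ?_)
          funext j
          refine Fin.cases ?_ (fun j => ?_) j <;> rfl
      · exact RudX.so' (a := asym L) (Sum.inr ⟨l, R⟩) (t := x) hx
    · intro n X S hc v
      have h1 : ∀ z : Fin l → ℕ, (∀ i, z i < n) → ((∀ i, T i X (fun _ => n) (Fin.cons (z i)
          (fun i => (v i : ℕ)))) ↔ ∀ i, ((@Term.realize L (Fin n) S _ (Sum.elim Empty.elim v)
            (ts i) : Fin n) : ℕ) = z i) := by
        intro z hz
        apply forall_congr'
        intro i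
        have := hT' i n X S hc v ⟨z i, hz i⟩
        rw [Fin.ext_iff] at this
        exact this
      constructor
      · rintro ⟨z, hz, h2, h3⟩
        have hz' : ∀ i, z i < n := hz
        have h4 := (h1 z hz').1 h2
        exact (hc.2 ⟨l, R⟩ (fun i => @Term.realize L (Fin n) S _ (Sum.elim Empty.elim v)
          (ts i))).1 (by
            have e : (fun i => ((@Term.realize L (Fin n) S _ (Sum.elim Empty.elim v) (ts i) :
              Fin n) : ℕ)) = z := funext h4
            exact (Iff.of_eq (congrArg (X (Sum.inr ⟨l, R⟩)) e)).2 h3)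
      · intro h2
        refine ⟨fun i => ((@Term.realize L (Fin n) S _ (Sum.elim Empty.elim v) (ts i) :
          Fin n) : ℕ), fun i => Fin.is_lt _, ?_, ?_⟩
        · exact (h1 _ (fun i => Fin.is_lt _)).2 (fun i => rfl)
        · exact (hc.2 ⟨l, R⟩ _).2 h2
  | imp φ₁ φ₂ ih₁ ih₂ =>
    obtain ⟨F1, h1, h1'⟩ := ih₁
    obtain ⟨F2, h2, h2'⟩ := ih₂
    refine ⟨fun X u w => F1 X u w → F2 X u w, fun l u w hu hw =>
      (h1 l u w hu hw).imp (h2 l u w hu hw), ?_⟩
    intro n X S hc v
    exact imp_congr (h1' n X S hc v) (h2' n X S hc v)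
  | all φ ih =>
    rename_i m
    obtain ⟨F, h1, h1'⟩ := ih
    refine ⟨fun X u w => ∀ y, y ≤ u 0 → (y < u 0 → F X u (Fin.snoc (α := fun _ => ℕ) w y)),
      ?_, ?_⟩
    · intro l u w hu hw
      refine RudX.all (hu 0) (RudX.imp (RudX.lt (IsPoly.var 0) (hu 0).tail) ?_)
      refine (h1 (l + 1) (fun i v => u i (Fin.tail v))
        (Fin.snoc (α := fun _ => (Fin (l + 1) → ℕ) → ℕ) (fun j v => w j (Fin.tail v))
          (fun v => v 0)) (fun i => (hu i).tail) ?_).congr ?_
      · intro j
        refine Fin.lastCases ?_ (fun j => ?_) j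
        · rw [Fin.snoc_last]; exact IsPoly.var 0
        · rw [Fin.snoc_castSucc]; exact (hw j).tail
      · intro X v
        refine Iff.of_eq (congrArg (F X _) ?_)
        funext j
        refine Fin.lastCases ?_ (fun j => ?_) j
        · rw [Fin.snoc_last, Fin.snoc_last]
        · rw [Fin.snoc_castSucc, Fin.snoc_castSucc]
    · intro n X S hc v
      have h2 : ∀ y : Fin n, (F X (fun _ => n) (Fin.snoc (α := fun _ => ℕ)
          (fun i => (v i : ℕ)) (y : ℕ)) ↔
          @BoundedFormula.Realize L (Fin n) S _ _ φ Empty.elim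
            (Fin.snoc (α := fun _ => Fin n) v y)) := by
        intro y
        rw [← h1' n X S hc]
        refine Iff.of_eq (congrArg (F X _) ?_)
        funext j
        refine Fin.lastCases ?_ (fun j => ?_) j
        · rw [Fin.snoc_last, Fin.snoc_last]
        · rw [Fin.snoc_castSucc, Fin.snoc_castSucc]
      constructor
      · intro h3 y
        exact (h2 y).1 (h3 y y.isLt.le y.isLt)
      · intro h3 y _ hy
        exact (h2 ⟨y, hy⟩).2 (h3 ⟨y, hy⟩)

/-- the graphs are functions -/
def WF (L : FirstOrder.Language.{0, 0}) (X : SOA (asym L)) (n : ℕ) : Prop :=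
  ∀ f : Σ l, L.Functions l, ¬ ∃ x : Fin f.1 → ℕ, (∀ i, x i < n) ∧
    ¬ ∃ y, y ≤ n ∧ (y < n ∧ (X (Sum.inl f) (Fin.cons y x : Fin (f.1 + 1) → ℕ) ∧
      ∀ y', y' ≤ n → (y' < n → (X (Sum.inl f) (Fin.cons y' x : Fin (f.1 + 1) → ℕ) → y' = y))))

lemma WF_rudX [Finite (Σ l, L.Functions l)] :
    RudX (asym L) 1 (fun X v => WF L X (v 0)) := by
  unfold WF
  refine RudX.all_fin (fun f => RudX.not' ?_)
  have h1 : UD (asym L) 1 0 (fun X v _ => ∃ x : Fin f.1 → ℕ, (∀ i, x i < v 0) ∧
      ¬ ∃ y, y ≤ v 0 ∧ (y < v 0 ∧ (X (Sum.inl f) (Fin.cons y x : Fin (f.1 + 1) → ℕ) ∧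
        ∀ y', y' ≤ v 0 → (y' < v 0 → (X (Sum.inl f) (Fin.cons y' x : Fin (f.1 + 1) → ℕ) →
          y' = y))))) := by
    refine UD.exTup (b := asym L) (IsPoly.var 0) ?_
    intro m u x w hu hx _
    have hX : ∀ {m : ℕ} (x : Fin f.1 → (Fin m → ℕ) → ℕ) (y : (Fin m → ℕ) → ℕ),
        (∀ i, IsPoly m (x i)) → IsPoly m y → RudX (asym L) m (fun X v =>
          X (Sum.inl f) (Fin.cons (y v) (fun i => x i v) : Fin (f.1 + 1) → ℕ)) := by
      intro m x y hx hy
      refine (RudX.so' (a := asym L) (Sum.inl f)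
        (t := (Fin.cons y x : Fin (f.1 + 1) → (Fin m → ℕ) → ℕ)) ?_).congr ?_
      · intro j
        change Fin (f.1 + 1) at j
        refine Fin.cases ?_ (fun j => ?_) j
        · exact hy
        · exact hx j
      · intro X v
        refine Iff.of_eq (congrArg (X (Sum.inl f)) ?_)
        funext j
        change Fin (f.1 + 1) at j
        refine Fin.cases ?_ (fun j => ?_) j <;> rfl
    refine RudX.not' (RudX.ex (hu 0) ((RudX.lt (IsPoly.var 0) (hu 0).tail).and' (RudX.and'
      (hX (fun i v => x i (Fin.tail v)) (fun v => v 0) (fun i => (hx i).tail) (IsPoly.var 0))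
      (RudX.all (hu 0).tail (RudX.imp (RudX.lt (IsPoly.var 0) (hu 0).tail.tail) (RudX.imp
        (hX (fun i v => x i (Fin.tail (Fin.tail v))) (fun v => v 0)
          (fun i => (hx i).tail.tail) (IsPoly.var 0))
        (RudX.eq (IsPoly.var 0) (IsPoly.var 1))))))))
  exact h1 1 (fun i v => v i) (fun i => i.elim0) (fun i => IsPoly.var i) (fun i => i.elim0)

end

theorem eso_of_sentence {L : FirstOrder.Language.{0, 0}} [Finite (Σ l, L.Functions l)]
    [Finite (Σ l, L.Relations l)] (le : L.Relations 2) (U : L.Relations 1) (φ : L.Sentence) :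
    ∃ R : SOA one → (Fin 1 → ℕ) → Prop, ESO one 1 R ∧
      ∀ n, 1 ≤ n → ∀ P : Finset ℕ, (Expands le U φ n P ↔ R (pset P) (fun _ => n)) := by
  obtain ⟨F, hF, hF'⟩ := form_X φ
  let G : SOA (asym L) → (Fin 1 → ℕ) → Prop := fun X v => WF L X (v 0) ∧
    ((∀ x, x ≤ v 0 → (x < v 0 → ∀ y, y ≤ v 0 → (y < v 0 →
      (X (Sum.inr ⟨2, le⟩) ![x, y] ↔ x ≤ y)))) ∧ F X v (fun i => i.elim0))
  have hG : RudX (asym L) 1 G := by
    refine WF_rudX.and' (RudX.and' (RudX.all (IsPoly.var 0) (RudX.imp
      (RudX.lt (IsPoly.var 0) (IsPoly.var 1)) (RudX.all (IsPoly.var 1) (RudX.imp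
        (RudX.lt (IsPoly.var 0) (IsPoly.var 2)) (RudX.iff ?_
          (RudX.le (IsPoly.var 1) (IsPoly.var 0))))))) ?_)
    · refine (RudX.so' (a := asym L) (Sum.inr ⟨2, le⟩)
        (t := ![fun w => w 1, fun w => w 0]) ?_).congr ?_
      · intro j
        change Fin 2 at j
        fin_cases j
        · exact IsPoly.var 1
        · exact IsPoly.var 0
      · intro X v
        refine Iff.of_eq (congrArg (X (Sum.inr ⟨2, le⟩)) ?_)
        funext j
        change Fin 2 at j
        fin_cases j <;> rfl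
    · refine (hF 1 (fun i v => v i) (fun i => i.elim0) (fun i => IsPoly.var i)
        (fun i => i.elim0)).congr (fun X v => ?_)
      refine Iff.of_eq (congrArg (F X _) ?_)
      funext i
      exact i.elim0
  let Φ : SOA (Sum.elim one (asym L)) → (Fin 1 → ℕ) → Prop := fun Y v =>
    G (fun i => Y (Sum.inr i)) v ∧ ∀ x, x ≤ v 0 → (x < v 0 →
      (Y (Sum.inr (Sum.inr ⟨1, U⟩)) ![x] ↔ Y (Sum.inl ()) (fun _ => x)))
  have hΦ : RudX (Sum.elim one (asym L)) 1 Φ := by
    refine RudX.and' ?_ (RudX.all (IsPoly.var 0) (RudX.imp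
      (RudX.lt (IsPoly.var 0) (IsPoly.var 1)) (RudX.iff ?_ ?_)))
    · exact substSO (b := Sum.elim one (asym L)) (m := 0)
        (B := fun i X _ w => X (Sum.inr i) w) hG
        (fun i => UD.so (b := Sum.elim one (asym L)) (Sum.inr i)) 1
        (fun i => i.elim0) (fun i => i.elim0) (fun i v => v i) (fun i => IsPoly.var i)
    · refine (RudX.so' (a := Sum.elim one (asym L)) (Sum.inr (Sum.inr ⟨1, U⟩))
        (t := ![fun w => w 0]) ?_).congr ?_
      · intro j
        change Fin 1 at j
        fin_cases j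
        exact IsPoly.var 0
      · intro X v
        refine Iff.of_eq (congrArg (X (Sum.inr (Sum.inr ⟨1, U⟩))) ?_)
        funext j
        change Fin 1 at j
        fin_cases j
        rfl
    · exact RudX.so' (a := Sum.elim one (asym L)) (Sum.inl ()) (fun _ => IsPoly.var 0)
  have hfin : Finite (Sym L) := inferInstanceAs (Finite (_ ⊕ _))
  refine ⟨_, ESO.exSO (ESO.of hΦ), ?_⟩
  intro n hn P
  constructor
  · rintro ⟨S, h1, h2, h3⟩
    let X : SOA (asym L) := fun i => match i with
      | Sum.inl f => fun w => ∃ x : Fin f.1 → Fin n,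
          (w = (Fin.cons ((S.funMap f.2 x : Fin n) : ℕ) (fun i => (x i : ℕ)) :
            Fin (f.1 + 1) → ℕ))
      | Sum.inr r => fun w => ∃ x : Fin r.1 → Fin n, (w = fun i => (x i : ℕ)) ∧ S.RelMap r.2 x
    have hc : CodesX n X S := by
      constructor
      · intro f x y
        constructor
        · rintro ⟨x', h4⟩
          have h5 : (y : ℕ) = ((S.funMap f.2 x' : Fin n) : ℕ) := congrFun h4 0
          have h6 : x = x' := by
            funext i
            have := congrFun h4 i.succ
            exact Fin.ext this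
          rw [h6]
          exact (Fin.ext h5).symm
        · intro h4
          exact ⟨x, by rw [h4]⟩
      · intro r x
        constructor
        · rintro ⟨x', h4, h5⟩
          have h6 : x = x' := by
            funext i
            exact Fin.ext (congrFun h4 i)
          rw [h6]
          exact h5
        · intro h4
          exact ⟨x, rfl, h4⟩
    refine ⟨X, ⟨?_, ?_, ?_⟩, ?_⟩
    · intro f
      rintro ⟨x, hx, h4⟩
      apply h4
      let x' : Fin f.1 → Fin n := fun i => ⟨x i, hx i⟩
      have h5 := fun y => hc.1 f x' y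
      refine ⟨S.funMap f.2 x', (Fin.is_lt _).le, Fin.is_lt _, (h5 _).2 rfl, ?_⟩
      intro y' _ hy' h6
      exact congrArg Fin.val ((h5 ⟨y', hy'⟩).1 h6).symm
    · intro x _ hx y _ hy
      have h4 := hc.2 ⟨2, le⟩ ![⟨x, hx⟩, ⟨y, hy⟩]
      have e : (fun i => ((![(⟨x, hx⟩ : Fin n), ⟨y, hy⟩] i : Fin n) : ℕ)) = ![x, y] := by
        funext j
        fin_cases j <;> rfl
      exact ((Iff.of_eq (congrArg (X (Sum.inr ⟨2, le⟩)) e)).symm.trans h4).trans
        (h1 ⟨x, hx⟩ ⟨y, hy⟩)
    · have h4 := hF' n X S hc (fun i => i.elim0)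
      have e : (fun i : Fin 0 => (((fun i => i.elim0 : Fin 0 → Fin n) i : Fin n) : ℕ)) =
          fun i => i.elim0 := by
        funext i
        exact i.elim0
      rw [e] at h4
      refine h4.2 ?_
      have h5 := (real_iff S φ Empty.elim (fun i => i.elim0)).2 h3
      exact h5
    · intro x _ hx
      have h4 := hc.2 ⟨1, U⟩ ![⟨x, hx⟩]
      have e : (fun i => ((![(⟨x, hx⟩ : Fin n)] i : Fin n) : ℕ)) = ![x] := by
        funext j
        fin_cases j
        rfl
      exact ((Iff.of_eq (congrArg (X (Sum.inr ⟨1, U⟩)) e)).symm.trans h4).trans (h2 ⟨x, hx⟩)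
  · rintro ⟨X, ⟨h1, h2, h3⟩, h4⟩
    have h1' : ∀ (f : Σ l, L.Functions l) (x : Fin f.1 → Fin n), ∃ y : Fin n,
        X (Sum.inl f) (Fin.cons (y : ℕ) (fun i => (x i : ℕ)) : Fin (f.1 + 1) → ℕ) ∧
        ∀ y' : Fin n, X (Sum.inl f) (Fin.cons (y' : ℕ) (fun i => (x i : ℕ)) :
          Fin (f.1 + 1) → ℕ) → y' = y := by
      intro f x
      by_contra hcon
      apply h1 f
      refine ⟨fun i => (x i : ℕ), fun i => (x i).isLt, ?_⟩
      rintro ⟨y, _, hy, h5, h6⟩
      apply hcon
      exact ⟨⟨y, hy⟩, h5, fun y' h7 => Fin.ext (h6 y' y'.isLt.le y'.isLt h7)⟩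
    choose g hg hg' using h1'
    let S : L.Structure (Fin n) :=
      { funMap := fun {l} f x => g ⟨l, f⟩ x
        RelMap := fun {l} r x => X (Sum.inr ⟨l, r⟩) (fun i => (x i : ℕ)) }
    have hc : CodesX n X S := by
      constructor
      · intro f x y
        constructor
        · intro h5
          exact (hg' f x y h5).symm
        · intro h5
          have h6 : g f x = y := h5
          rw [← h6]
          exact hg f x
      · intro r x
        exact Iff.rfl
    refine ⟨S, ?_, ?_, ?_⟩
    · intro x y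
      have h5 := h2 x x.isLt.le x.isLt y y.isLt.le y.isLt
      have h6 := hc.2 ⟨2, le⟩ ![x, y]
      have e : (fun i => ((![x, y] i : Fin n) : ℕ)) = ![(x : ℕ), (y : ℕ)] := by
        funext j
        fin_cases j <;> rfl
      exact ((Iff.of_eq (congrArg (X (Sum.inr ⟨2, le⟩)) e)).symm.trans h6).symm.trans h5
    · intro x
      have h5 := h4 x x.isLt.le x.isLt
      have h6 := hc.2 ⟨1, U⟩ ![x]
      have e : (fun i => ((![x] i : Fin n) : ℕ)) = ![(x : ℕ)] := by
        funext j
        fin_cases j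
        rfl
      exact ((Iff.of_eq (congrArg (X (Sum.inr ⟨1, U⟩)) e)).symm.trans h6).symm.trans h5
    · have h5 := hF' n X S hc (fun i => i.elim0)
      have e : (fun i : Fin 0 => (((fun i => i.elim0 : Fin 0 → Fin n) i : Fin n) : ℕ)) =
          fun i => i.elim0 := by
        funext i
        exact i.elim0
      rw [e] at h5
      exact (real_iff S φ Empty.elim (fun i => i.elim0)).1 (h5.1 h3)

end Pool.Agent.Helper20.Spectra
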