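import Pool.Agent.Helper20.Sparse.Def

/-!
# Existential second-order bounded conditions are generalised spectra
-/

set_option autoImplicit false

namespace Pool.Agent.Helper20.Spectra

open FirstOrder FirstOrder.Language TupSys

section lift

variable {S B : Type} {ar : S → ℕ} {br : B → ℕ}

/-- inclusion of vocabularies -/
def incl (S B : Type) (ar : S → ℕ) (br : B → ℕ) :
    RelLang S ar →ᴸ RelLang (S ⊕ B) (Sum.elim ar br) where
  onFunction := fun _ f => Empty.elim f
  onRelation := fun _ r => (⟨Sum.inl r.1, r.2⟩ : {s : S ⊕ B // Sum.elim ar br s = _})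

lemma FD.lift {α : Type} {P : ∀ (M : Type), Interp S ar M → (α → M) → Prop}
    (h : FD S ar α P) : FD (S ⊕ B) (Sum.elim ar br) α
      (fun M R v => P M (fun s => R (Sum.inl s)) v) := by
  obtain ⟨φ, hφ⟩ := h
  refine ⟨(incl S B ar br).onFormula φ, fun M R v => ?_⟩
  let _ := mkS (S := S ⊕ B) (ar := Sum.elim ar br) R
  let _ := mkS (S := S) (ar := ar) (fun s => R (Sum.inl s))
  have hE : (incl S B ar br).IsExpansionOn M :=
    { map_onFunction := fun f _ => Empty.elim f
      map_onRelation := fun r x => rfl }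
  rw [LHom.realize_onFormula]
  exact hφ M (fun s => R (Sum.inl s)) v

end lift

/-- arities of the two additional symbols -/
def tb : Bool → ℕ
  | true => 2
  | false => 1

section

variable {ι : Type} {a : ι → ℕ} {K : ℕ}

/-- the full interpretation -/
abbrev FI (ι : Type) (a : ι → ℕ) (K : ℕ) (M : Type) :=
  Interp (ASym (Unit ⊕ ι) ⊕ Bool) (Sum.elim (aar (Sum.elim one a) K) tb) M

/-- the arithmetical part -/
def ari {M : Type} (R : FI ι a K M) : Interp (ASym (Unit ⊕ ι)) (aar (Sum.elim one a) K) M :=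
  fun s => R (Sum.inl s)

def leR {M : Type} (R : FI ι a K M) (x y : M) : Prop :=
  (R (Sum.inr true) : (Fin 2 → M) → Prop) ![x, y]

def uR {M : Type} (R : FI ι a K M) (x : M) : Prop :=
  (R (Sum.inr false) : (Fin 1 → M) → Prop) ![x]

/-- the symbol for the order -/
def symL (ι : Type) (a : ι → ℕ) (K : ℕ) :
    (RelLang (ASym (Unit ⊕ ι) ⊕ Bool) (Sum.elim (aar (Sum.elim one a) K) tb)).Relations 2 :=
  (⟨Sum.inr true, rfl⟩ :
    {s : ASym (Unit ⊕ ι) ⊕ Bool // Sum.elim (aar (Sum.elim one a) K) tb s = 2})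

/-- the symbol for the word -/
def symU (ι : Type) (a : ι → ℕ) (K : ℕ) :
    (RelLang (ASym (Unit ⊕ ι) ⊕ Bool) (Sum.elim (aar (Sum.elim one a) K) tb)).Relations 1 :=
  (⟨Sum.inr false, rfl⟩ :
    {s : ASym (Unit ⊕ ι) ⊕ Bool // Sum.elim (aar (Sum.elim one a) K) tb s = 1})

variable {α : Type}

lemma leR_FD {e e' : ∀ (M : Type), (α → M) → M} (h : El α e) (h' : El α e') :
    FD (ASym (Unit ⊕ ι) ⊕ Bool) (Sum.elim (aar (Sum.elim one a) K) tb) α
      (fun M R v => leR R (e M v) (e' M v)) := by
  obtain ⟨x, hx⟩ := h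
  obtain ⟨y, hy⟩ := h'
  refine FD.rel (ar := Sum.elim (aar (Sum.elim one a) K) tb) (Sum.inr true)
    ⟨![x, y], fun M v => ?_⟩
  beta_reduce
  rw [hx, hy]
  funext i
  change Fin 2 at i
  fin_cases i <;> rfl

lemma uR_FD {e : ∀ (M : Type), (α → M) → M} (h : El α e) :
    FD (ASym (Unit ⊕ ι) ⊕ Bool) (Sum.elim (aar (Sum.elim one a) K) tb) α
      (fun M R v => uR R (e M v)) := by
  obtain ⟨x, hx⟩ := h
  refine FD.rel (ar := Sum.elim (aar (Sum.elim one a) K) tb) (Sum.inr false)
    ⟨![x], fun M v => ?_⟩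
  beta_reduce
  rw [hx]
  funext i
  change Fin 1 at i
  fin_cases i
  rfl

/-- the second-order variable of the word is given by the unary symbol -/
def Link {M : Type} (R : FI ι a K M) : Prop :=
  ∀ x : Fin (K + 1) → M, (soR (ari R) (Sum.inl ()) (fun _ => x) ↔
    ((∀ i : Fin (K + 1), (i : ℕ) ≠ 0 → ∀ b, ¬ ltR (ari R) b (x i)) ∧ uR R (x 0)))

lemma Link_FD : FD (ASym (Unit ⊕ ι) ⊕ Bool) (Sum.elim (aar (Sum.elim one a) K) tb) Empty
    (fun _ R _ => Link R) := by
  unfold Link
  refine FD.all (FD.iff ?_ (FD.and (FD.all_fin (fun i => FD.imp (FD.const _)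
    (FD.all1 (FD.not ?_)))) ?_))
  · exact FD.lift (soR_FD (ι := Unit ⊕ ι) (a := Sum.elim one a) (Sum.inl ())
      (e := fun _ M v => v ∘ Sum.inr) (fun _ => Pj.inr))
  · exact FD.lift (ltR_FD (ι := Unit ⊕ ι) (a := Sum.elim one a) (El.var (Sum.inr ()))
      (El.var (Sum.inl (Sum.inr i))))
  · exact uR_FD (El.var (Sum.inr 0))

end

lemma col_lt_iff {K n : ℕ} (hn : 2 ≤ n) (x : Fin (K + 1) → Fin n) :
    (∀ i : Fin (K + 1), (i : ℕ) ≠ 0 → (x i : ℕ) = 0) ↔ col x = x 0 := by
  constructor
  · intro h
    have hlt : (x 0 : ℕ) < n ^ (K + 1) := (x 0).isLt.trans_le (Nat.le_self_pow (by omega) n)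
    have hx : x = tup (x 0) hlt := by
      funext i
      apply Fin.ext
      rw [tup_apply]
      unfold dig
      by_cases hi : (i : ℕ) = 0
      · have : i = 0 := Fin.ext hi
        subst this
        rw [Fin.val_zero, pow_zero, Nat.div_one, Nat.mod_eq_of_lt (x 0).isLt]
      · rw [h i hi, Nat.div_eq_of_lt, Nat.zero_mod]
        exact (x 0).isLt.trans_le (Nat.le_self_pow hi n)
    have h2 := col_tup (k := K) (n := n) (x 0) hlt
    rw [← hx] at h2
    exact h2
  · intro h i hi
    rw [← dig_col x i]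
    unfold dig
    rw [h, Nat.div_eq_of_lt, Nat.zero_mod]
    exact (x 0).isLt.trans_le (Nat.le_self_pow hi n)

lemma col_mem_iff {K n : ℕ} (hn : 2 ≤ n) {P : Finset ℕ} (hP : ∀ i ∈ P, i < n)
    (x : Fin (K + 1) → Fin n) : col x ∈ P ↔
      (∀ i : Fin (K + 1), (i : ℕ) ≠ 0 → (x i : ℕ) = 0) ∧ (x 0 : ℕ) ∈ P := by
  rw [col_lt_iff hn]
  constructor
  · intro h
    have h1 := hP _ h
    have h2 : col x = x 0 := by
      have := dig_col x 0
      unfold dig at this
      rw [Fin.val_zero, pow_zero, Nat.div_one, Nat.mod_eq_of_lt h1] at this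
      exact this
    exact ⟨h2, h2 ▸ h⟩
  · rintro ⟨h1, h2⟩
    rw [h1]
    exact h2

theorem sentence_of_eso {R : SOA one → (Fin 1 → ℕ) → Prop} (hR : ESO one 1 R) :
    ∃ (L : FirstOrder.Language.{0, 0}) (_ : Finite (Σ l, L.Functions l))
      (_ : Finite (Σ l, L.Relations l)) (le : L.Relations 2) (U : L.Relations 1)
      (φ : L.Sentence), ∀ n, 1 ≤ n → ∀ P ∈ (Finset.range n).powerset,
        (Expands le U φ n P ↔ R (pset P) (fun _ => n)) := by
  obtain ⟨ι, hι, a, Φ, hΦ, hR⟩ := hR
  obtain ⟨K0, h0⟩ := hΦ.main 2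
  obtain ⟨K, hK0, hK1⟩ : ∃ K, K0 ≤ K ∧ 1 ≤ K := ⟨max K0 1, le_max_left _ _, le_max_right _ _⟩
  obtain ⟨Q, hQ, hQ'⟩ := h0 K hK0
  let p1 : Prop := R (pset {0}) (fun _ => 1)
  let p0 : Prop := R (pset ∅) (fun _ => 1)
  let Se : ∀ (M : Type), FI ι a K M → (Empty → M) → Prop := fun M T _ =>
    ((∀ x y : M, x = y) ∧ ((p1 ∧ ∀ x, uR T x) ∨ (p0 ∧ ∀ x, ¬ uR T x))) ∨
    ((¬ ∀ x y : M, x = y) ∧ (∀ x y, (ltR (ari T) x y ↔ (leR T x y ∧ ¬ x = y))) ∧
      AxA (ari T) ∧ Link T ∧ ∃ x : Fin (K + 1) → M, sizeT (ari T) x ∧ Q M (ari T) (fun _ => x))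
  have hSe : FD (ASym (Unit ⊕ ι) ⊕ Bool) (Sum.elim (aar (Sum.elim one a) K) tb) Empty Se := by
    have hone : FD (ASym (Unit ⊕ ι) ⊕ Bool) (Sum.elim (aar (Sum.elim one a) K) tb) Empty
        (fun M _ _ => ∀ x y : M, x = y) :=
      FD.all1 (FD.all1 (FD.eq (El.var _) (El.var _)))
    refine FD.or (FD.and hone (FD.or (FD.and (FD.const _) (FD.all1 (uR_FD (El.var _))))
      (FD.and (FD.const _) (FD.all1 (FD.not (uR_FD (El.var _))))))) (FD.and hone.not (FD.and ?_
        (FD.and ?_ (FD.and Link_FD ?_))))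
    · refine FD.all1 (FD.all1 (FD.iff ?_ (FD.and (leR_FD (El.var (Sum.inl (Sum.inr ())))
        (El.var (Sum.inr ()))) (FD.not (FD.eq (El.var (Sum.inl (Sum.inr ())))
          (El.var (Sum.inr ())))))))
      exact FD.lift (ltR_FD (ι := Unit ⊕ ι) (a := Sum.elim one a)
        (El.var (Sum.inl (Sum.inr ()))) (El.var (Sum.inr ())))
    · exact FD.lift (AxA_FD (ι := Unit ⊕ ι) (a := Sum.elim one a))
    · refine FD.lift (P := fun M T _ => ∃ x : Fin (K + 1) → M, sizeT T x ∧ Q M T (fun _ => x))
        (FD.ex (FD.and (sizeT_FD Pj.inr) (hQ.app ?_)))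
      intro i
      exact Pj.inr
  obtain ⟨φ, hφ⟩ := hSe
  refine ⟨RelLang (ASym (Unit ⊕ ι) ⊕ Bool) (Sum.elim (aar (Sum.elim one a) K) tb),
    inferInstance, inferInstance, symL ι a K, symU ι a K, φ, ?_⟩
  intro n hn P hP
  rw [Finset.mem_powerset] at hP
  have hP' : ∀ i ∈ P, i < n := fun i hi => Finset.mem_range.1 (hP hi)
  have hexp : Expands (symL ι a K) (symU ι a K) φ n P ↔
      ∃ T : FI ι a K (Fin n), (∀ x y, leR T x y ↔ x ≤ y) ∧ (∀ x, uR T x ↔ (x : ℕ) ∈ P) ∧
        Se (Fin n) T Empty.elim := by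
    constructor
    · rintro ⟨S, h1, h2, h3⟩
      refine ⟨fun s v => S.RelMap (⟨s, rfl⟩ : (RelLang (ASym (Unit ⊕ ι) ⊕ Bool)
        (Sum.elim (aar (Sum.elim one a) K) tb)).Relations _) v, ?_, ?_, ?_⟩
      · exact fun x y => h1 x y
      · exact fun x => h2 x
      · rw [← hφ]
        rw [← structure_eq S]
        exact (real_iff S φ Empty.elim default).2 h3
    · rintro ⟨T, h1, h2, h3⟩
      refine ⟨mkS T, ?_, ?_, ?_⟩
      · exact fun x y => h1 x y
      · exact fun x => h2 x
      · exact (real_iff (mkS T) φ Empty.elim default).1 ((hφ _ T Empty.elim).2 h3)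
  rw [hexp]
  have hmin : ∀ (hn : 2 ≤ n) (T : FI ι a K (Fin n)), (∀ x y, ltR (ari T) x y ↔ x < y) →
      ∀ z : Fin n, (∀ b, ¬ ltR (ari T) b z) ↔ (z : ℕ) = 0 := by
    intro hn T hlt z
    simp only [hlt, Fin.lt_def]
    constructor
    · intro h
      have := h ⟨0, by omega⟩
      simp at this
      omega
    · intro h b; omega
  constructor
  · rintro ⟨T, hle, hu, hS⟩
    rcases hS with ⟨h1, h2⟩ | ⟨h1, h2, hA, hL, x, hx, hQx⟩
    · have hn1 : n = 1 := by
        by_contra hne
        have h3 := h1 ⟨0, by omega⟩ ⟨1, by omega⟩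
        simp at h3
      subst hn1
      rcases h2 with ⟨h2, h3⟩ | ⟨h2, h3⟩
      · have e : P = {0} := by
          ext i
          rw [Finset.mem_singleton]
          constructor
          · intro hi; have := hP' i hi; omega
          · rintro rfl; exact (hu 0).1 (h3 0)
        rw [e]; exact h2
      · have e : P = ∅ := by
          ext i
          constructor
          · intro hi
            have hi0 : i = 0 := by have := hP' i hi; omega
            subst hi0
            exact absurd ((hu 0).2 hi) (h3 0)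
          · intro hi; simp at hi
        rw [e]; exact h2
    · have hn2 : 2 ≤ n := by
        by_contra hlt
        apply h1
        have : n = 1 := by omega
        subst this
        exact fun x y => Subsingleton.elim x y
      have hlt : ∀ x y, ltR (ari T) x y ↔ x < y := by
        intro x y
        rw [h2, hle]
        constructor
        · rintro ⟨h3, h4⟩; exact lt_of_le_of_ne h3 h4
        · intro h3; exact ⟨h3.le, ne_of_lt h3⟩
      have hstd : Std (ari T) := hA.std hlt
      let X : SOA a := fun i w => ∃ u : Fin (a i) → Fin (K + 1) → Fin n,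
        (fun j => col (u j)) = w ∧ soR (ari T) (Sum.inr i) u
      have hso : ∀ i w, soR (ari T) i w ↔ app (pset P) X i (fun j => col (w j)) := by
        rintro (i | i) w
        · change Fin 1 → Fin (K + 1) → Fin n at w
          have hw : w = fun _ => w 0 := by
            funext j
            rw [Subsingleton.elim j 0]
          have h3 := hL (w 0)
          simp only [hmin hn2 T hlt, hu] at h3
          rw [← col_mem_iff hn2 hP' (w 0)] at h3
          rw [hw]
          exact h3
        · constructor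
          · intro h3; exact ⟨w, rfl, h3⟩
          · rintro ⟨u, h3, h4⟩
            have : u = w := by
              funext j
              exact col_inj (congrFun h3 j)
            rw [← this]; exact h4
      have hcx := (sizeT_iff hK1 hn2 hstd x).1 hx
      rw [hR]
      refine ⟨X, ?_⟩
      rw [hQ' n hn2 (ari T) hstd (app (pset P) X) hso _ ?_] at hQx
      · simp only [hcx] at hQx; exact hQx
      · intro i
        simp only [hcx]
        calc n = n ^ 1 := (pow_one n).symm
          _ < n ^ 2 := Nat.pow_lt_pow_right (by omega) (by omega)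
  · intro hRP
    have hRP' := hRP
    rw [hR] at hRP'
    obtain ⟨X, hX⟩ := hRP'
    let T : FI ι a K (Fin n) := fun s =>
      match s with
      | Sum.inl .lt => fun u => (show Fin 2 → Fin n from u) 0 < (show Fin 2 → Fin n from u) 1
      | Sum.inl .add => fun u => ∃ x y z : Fin (K + 1) → Fin n, u = flat (b := 3) ![x, y, z] ∧
          col x + col y = col z
      | Sum.inl .mul => fun u => ∃ x y z : Fin (K + 1) → Fin n, u = flat (b := 3) ![x, y, z] ∧
          col x * col y = col z
      | Sum.inl (.so i) => fun u => ∃ w : Fin (Sum.elim one a i) → Fin (K + 1) → Fin n,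
          u = flat w ∧ app (pset P) X i (fun j => col (w j))
      | Sum.inr true => fun u => (show Fin 2 → Fin n from u) 0 ≤ (show Fin 2 → Fin n from u) 1
      | Sum.inr false => fun u => (((show Fin 1 → Fin n from u) 0 : Fin n) : ℕ) ∈ P
    have hstd : Std (ari T) := by
      refine ⟨fun x y => Iff.rfl, fun x y z => ?_, fun x y z => ?_⟩
      · constructor
        · rintro ⟨x', y', z', h1, h2⟩
          have h3 := flat_inj h1
          have e0 : x = x' := congrFun h3 0
          have e1 : y = y' := congrFun h3 1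
          have e2 : z = z' := congrFun h3 2
          rw [e0, e1, e2]; exact h2
        · intro h1; exact ⟨x, y, z, rfl, h1⟩
      · constructor
        · rintro ⟨x', y', z', h1, h2⟩
          have h3 := flat_inj h1
          have e0 : x = x' := congrFun h3 0
          have e1 : y = y' := congrFun h3 1
          have e2 : z = z' := congrFun h3 2
          rw [e0, e1, e2]; exact h2
        · intro h1; exact ⟨x, y, z, rfl, h1⟩
    have hso : ∀ i w, soR (ari T) i w ↔ app (pset P) X i (fun j => col (w j)) := by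
      intro i w
      constructor
      · rintro ⟨w', h1, h2⟩
        rw [flat_inj h1]; exact h2
      · intro h1; exact ⟨w, rfl, h1⟩
    refine ⟨T, fun x y => Iff.rfl, fun x => Iff.rfl, ?_⟩
    rcases Nat.eq_or_lt_of_le hn with h1 | h1
    · left
      subst h1
      refine ⟨fun x y => Subsingleton.elim x y, ?_⟩
      by_cases h0 : 0 ∈ P
      · left
        have e : P = {0} := by
          ext i
          rw [Finset.mem_singleton]
          constructor
          · intro hi; have := hP' i hi; omega
          · rintro rfl; exact h0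
        rw [e] at hRP
        refine ⟨hRP, fun x => ?_⟩
        show ((x : Fin 1) : ℕ) ∈ P
        have : (x : ℕ) = 0 := by omega
        rw [this]; exact h0
      · right
        have e : P = ∅ := by
          ext i
          constructor
          · intro hi
            have hi0 : i = 0 := by have := hP' i hi; omega
            subst hi0
            exact absurd hi h0
          · intro hi; simp at hi
        rw [e] at hRP
        refine ⟨hRP, fun x => ?_⟩
        show ¬ ((x : Fin 1) : ℕ) ∈ P
        have : (x : ℕ) = 0 := by omega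
        rw [this]; exact h0
    · right
      refine ⟨?_, ?_, hstd.axA, ?_, ?_⟩
      · intro h2
        have := h2 ⟨0, by omega⟩ ⟨1, h1⟩
        simp at this
      · intro x y
        show x < y ↔ (x ≤ y ∧ ¬ x = y)
        exact lt_iff_le_and_ne
      · intro x
        rw [hso]
        simp only [hmin h1 T (fun x y => Iff.rfl)]
        exact col_mem_iff h1 hP' x
      · have hmK : n < n ^ (K + 1) := by
          calc n = n ^ 1 := (pow_one n).symm
            _ < n ^ (K + 1) := Nat.pow_lt_pow_right (by omega) (by omega)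
        obtain ⟨x, hx⟩ := exists_col (K := K) (m := n) hmK
        refine ⟨x, (sizeT_iff hK1 (by omega) hstd x).2 hx, ?_⟩
        rw [hQ' n (by omega) (ari T) hstd (app (pset P) X) hso _ ?_]
        · simp only [hx]; exact hX
        · intro i
          simp only [hx]
          calc n = n ^ 1 := (pow_one n).symm
            _ < n ^ 2 := Nat.pow_lt_pow_right (by omega) (by omega)

end Pool.Agent.Helper20.Spectra
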