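import Pool.Agent.Helper20.Sparse.Diag
import Pool.Agent.Helper20.Sparse.Count
import Pool.Agent.Helper20.Sparse.Census
import Pool.Agent.Helper20.Sparse.GenTo
import Pool.Agent.Helper20.Sparse.ToGen

/-!
# Generalised spectra of words with few ones
-/

set_option autoImplicit false

namespace Pool.Agent.Helper20.Spectra

open FirstOrder FirstOrder.Language

lemma LeftClosed.sub {W : ℕ → Finset (Finset ℕ)} (hW : LeftClosed W) {n : ℕ} (hn : 1 ≤ n)
    {P : Finset ℕ} (hP : P ∈ W n) : P ∈ (Finset.range n).powerset := by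
  rw [Finset.mem_powerset]
  intro i hi
  exact Finset.mem_range.2 (((hW n hn).2 P hP).1 i hi)

lemma leftClosed_words (ℓ h : ℕ → ℕ) : LeftClosed (words ℓ h) := by
  intro n _
  refine ⟨⟨∅, empty_mem_words ℓ h n⟩, fun P hP => ?_⟩
  rw [words, Finset.mem_filter, Finset.mem_powerset] at hP
  refine ⟨fun i hi => ?_, fun Q hQ hQP => ?_⟩
  · have := Finset.mem_range.1 (hP.1 hi)
    omega
  · rw [words, Finset.mem_filter, Finset.mem_powerset]
    refine ⟨fun i hi => ?_, hQ.trans hP.2⟩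
    obtain ⟨j, hj, hij⟩ := hQP i hi
    have := Finset.mem_range.1 (hP.1 hj)
    exact Finset.mem_range.2 (by omega)

lemma capX_of {W : ℕ → Finset (Finset ℕ)} (hW : LeftClosed W)
    (hc : ∀ T : ℕ → Finset ℕ → Prop, GenOn W T ↔ BddOn W T) : CapX W := by
  intro R hR
  obtain ⟨L, h1, h2, le, U, φ, hφ⟩ := sentence_of_eso hR
  have h3 : GenOn W (fun n P => R (pset P) (fun _ => n)) :=
    ⟨L, h1, h2, le, U, φ, fun n hn P hP => (hφ n hn P (hW.sub hn hP)).symm⟩
  obtain ⟨B, hB, hB'⟩ := (hc _).1 h3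
  obtain ⟨ψ, hψ, hψ'⟩ := BDef.toRudX hB
  exact ⟨ψ, hψ, fun n hn P hP => (hB' n hn P hP).trans (hψ' _ _)⟩

lemma of_capX {W : ℕ → Finset (Finset ℕ)} (hW : LeftClosed W) (hc : CapX W)
    (T : ℕ → Finset ℕ → Prop) : GenOn W T ↔ BddOn W T := by
  constructor
  · rintro ⟨L, h1, h2, le, U, φ, hφ⟩
    obtain ⟨R, hR, hR'⟩ := eso_of_sentence le U φ
    obtain ⟨ψ, hψ, hψ'⟩ := hc R hR
    refine ⟨_, BDef.ofRudX hψ, fun n hn P hP => ?_⟩
    rw [hφ n hn P hP, hR' n hn P, hψ' n hn P hP]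
    rfl
  · rintro ⟨B, hB, hB'⟩
    obtain ⟨ψ, hψ, hψ'⟩ := BDef.toRudX hB
    obtain ⟨L, h1, h2, le, U, φ, hφ⟩ := sentence_of_eso (ESO.of hψ)
    refine ⟨L, h1, h2, le, U, φ, fun n hn P hP => ?_⟩
    rw [hB' n hn P hP, hφ n hn P (hW.sub hn hP), hψ']

lemma rudEqS_iff : SRud ↔ ∀ A : Set ℕ, IsSpectrum A ↔ (IsRudimentary A ∧ 0 ∉ A) :=
  ⟨fun h A => ⟨fun hA => ⟨h A hA, hA.zero_notMem⟩, fun hA => hA.1.isSpectrum hA.2⟩,
    fun h A hA => ((h A).1 hA).1⟩

/-- the words with at most as many ones as `P`, none to the right of the last one of `P` -/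
def boxOf (P : Finset ℕ) : Finset (Finset ℕ) :=
  {Q ∈ (Finset.range (P.sup (fun i => i + 1))).powerset | Q.card ≤ P.card}

lemma mem_boxOf_self (P : Finset ℕ) : P ∈ boxOf P := by
  rw [boxOf, Finset.mem_filter, Finset.mem_powerset]
  refine ⟨fun i hi => Finset.mem_range.2 ?_, le_rfl⟩
  exact (Finset.le_sup (f := fun i => i + 1) hi)

/-- a family contains a large box -/
lemma exists_box {W : ℕ → Finset (Finset ℕ)} (hW : LeftClosed W) :
    ∃ ℓ h : ℕ → ℕ, (∀ n, 1 ≤ n → words ℓ h n ⊆ W n) ∧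
      ∀ n, 1 ≤ n → (W n).card ≤ (n + 1) ^ 2 * (words ℓ h n).card := by
  classical
  have key : ∀ n, ∃ P : Finset ℕ, 1 ≤ n → P ∈ W n ∧ ∀ Q ∈ W n, (boxOf Q).card ≤ (boxOf P).card := by
    intro n
    by_cases hn : 1 ≤ n
    · obtain ⟨P, hP, hm⟩ := Finset.exists_max_image (W n) (fun Q => (boxOf Q).card) (hW n hn).1
      exact ⟨P, fun _ => ⟨hP, hm⟩⟩
    · exact ⟨∅, fun h => absurd h hn⟩
  choose M hM using key
  have hle : ∀ n, 1 ≤ n → ∀ P ∈ W n, P.sup (fun i => i + 1) ≤ n ∧ P.card ≤ n := by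
    intro n hn P hP
    have h1 := ((hW n hn).2 P hP).1
    refine ⟨Finset.sup_le (fun i hi => h1 i hi), ?_⟩
    have h2 : P.card ≤ (Finset.range n).card :=
      Finset.card_le_card (fun i hi => Finset.mem_range.2 (h1 i hi))
    rwa [Finset.card_range] at h2
  have hwords : ∀ n, 1 ≤ n → words (fun n => (M n).sup (fun i => i + 1)) (fun n => (M n).card) n =
      boxOf (M n) := by
    intro n hn
    have h1 := hle n hn (M n) (hM n hn).1
    rw [words, boxOf, min_eq_left h1.1]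
  refine ⟨fun n => (M n).sup (fun i => i + 1), fun n => (M n).card, fun n hn => ?_,
    fun n hn => ?_⟩
  · rw [hwords n hn]
    intro Q hQ
    rw [boxOf, Finset.mem_filter, Finset.mem_powerset] at hQ
    refine ((hW n hn).2 (M n) (hM n hn).1).2 Q hQ.2 (fun i hi => ?_)
    have h1 := Finset.mem_range.1 (hQ.1 hi)
    rw [Finset.lt_sup_iff] at h1
    obtain ⟨j, hj, hij⟩ := h1
    exact ⟨j, hj, by omega⟩
  · rw [hwords n hn]
    have h1 : (W n).card ≤ (boxOf (M n)).card *
        ((W n).image (fun P => (P.sup (fun i => i + 1), P.card))).card := by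
      refine Finset.card_le_mul_card_image (W n) _ (fun x hx => ?_)
      rw [Finset.mem_image] at hx
      obtain ⟨P, hP, rfl⟩ := hx
      refine le_trans (Finset.card_le_card ?_) ((hM n hn).2 P hP)
      intro Q hQ
      rw [Finset.mem_filter, Prod.mk.injEq] at hQ
      have h2 := mem_boxOf_self Q
      rw [boxOf, hQ.2.1, hQ.2.2] at h2
      exact h2
    have h2 : ((W n).image (fun P => (P.sup (fun i => i + 1), P.card))).card ≤ (n + 1) ^ 2 := by
      have h3 : ((W n).image (fun P => (P.sup (fun i => i + 1), P.card))) ⊆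
          Finset.range (n + 1) ×ˢ Finset.range (n + 1) := by
        intro x hx
        rw [Finset.mem_image] at hx
        obtain ⟨P, hP, rfl⟩ := hx
        rw [Finset.mem_product, Finset.mem_range, Finset.mem_range]
        have := hle n hn P hP
        constructor
        · show P.sup (fun i => i + 1) < n + 1
          omega
        · show P.card < n + 1
          omega
      refine (Finset.card_le_card h3).trans ?_
      rw [Finset.card_product, Finset.card_range, sq]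
    calc (W n).card ≤ (boxOf (M n)).card * _ := h1
      _ ≤ (boxOf (M n)).card * (n + 1) ^ 2 := Nat.mul_le_mul_left _ h2
      _ = (n + 1) ^ 2 * (boxOf (M n)).card := Nat.mul_comm _ _

theorem sparse_main (W : ℕ → Finset (Finset ℕ)) (hW : LeftClosed W) :
    (∀ T : ℕ → Finset ℕ → Prop, GenOn W T ↔ BddOn W T) ↔
      ((∃ C : ℕ, ∀ n, 1 ≤ n → (W n).card ≤ (n + 1) ^ C) ∧
        ∀ A : Set ℕ, IsSpectrum A ↔ (IsRudimentary A ∧ 0 ∉ A)) := by
  constructor
  · intro hc
    obtain ⟨ℓ, h, h1, h2⟩ := exists_box hW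
    have hX : CapX (words ℓ h) := by
      intro R hR
      obtain ⟨ψ, hψ, h3⟩ := capX_of hW hc R hR
      exact ⟨ψ, hψ, fun n hn P hP => h3 n hn P (h1 n hn hP)⟩
    refine ⟨?_, rudEqS_iff.1 (capQ hX)⟩
    by_contra hno
    refine diag hX (room_of_card ?_)
    rintro ⟨C, hC⟩
    apply hno
    refine ⟨C + 2, fun n hn => (h2 n hn).trans ?_⟩
    calc (n + 1) ^ 2 * (words ℓ h n).card ≤ (n + 1) ^ 2 * (n + 1) ^ C :=
          Nat.mul_le_mul_left _ (hC n hn)
      _ = (n + 1) ^ (C + 2) := by rw [← pow_add]; congr 1; omega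
  · rintro ⟨hC, hQ⟩ T
    exact of_capX hW (census (rudEqS_iff.2 hQ) hW hC) T

end Pool.Agent.Helper20.Spectra
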