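import Pool.Agent.Helper20.Sparse.Def

/-!
# If all spectra are rudimentary: numerical relations, powers and binary digits
-/

set_option autoImplicit false

namespace Pool.Agent.Helper20.Spectra

/-- the empty signature -/
abbrev none0 : Empty → ℕ := fun x => x.elim

/-- pairing polynomial -/
def pr2 (x y : ℕ) : ℕ := (x + y) ^ 2 + x

lemma pr2_inj {x y x' y' : ℕ} (h : pr2 x y = pr2 x' y') : x = x' ∧ y = y' := by
  unfold pr2 at h
  have h1 : x + y = x' + y' := by
    rcases Nat.lt_trichotomy (x + y) (x' + y') with h2 | h2 | h2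
    · have : (x + y + 1) ^ 2 ≤ (x' + y') ^ 2 := Nat.pow_le_pow_left h2 2
      nlinarith
    · exact h2
    · have : (x' + y' + 1) ^ 2 ≤ (x + y) ^ 2 := Nat.pow_le_pow_left h2 2
      nlinarith
  rw [h1] at h
  omega

lemma le_pr2 (x y : ℕ) : x ≤ pr2 x y ∧ y ≤ pr2 x y := by
  unfold pr2
  constructor <;> nlinarith [Nat.zero_le x, Nat.zero_le y]

lemma IsPoly.pr2 {k : ℕ} {s t : (Fin k → ℕ) → ℕ} (hs : IsPoly k s) (ht : IsPoly k t) :
    IsPoly k (fun v => Spectra.pr2 (s v) (t v)) :=
  ((hs.add ht).pow 2).add hs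

/-- unary existential second-order conditions on numbers give spectra -/
lemma ESO.isSpectrum {R : ℕ → Prop} (hR : ESO none0 1 (fun _ v => R (v 0))) :
    IsSpectrum {m | 1 ≤ m ∧ R m} := by
  obtain ⟨ι, hι, a, Φ, hΦ, hR⟩ := hR
  have h1 : RudX a 1 (fun X v => Φ (app (b := none0) (fun x => x.elim) X) v) := by
    refine (substSO (b := a) (m := 0)
      (B := fun i X _ w => match i, w with
        | Sum.inl i, w => i.elim
        | Sum.inr i, w => X i w) hΦ ?_ 1
      (fun i => i.elim0) (fun i => i.elim0) (fun i v => v i) (fun i => IsPoly.var i)).congr ?_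
    · rintro (i | i)
      · exact i.elim
      · exact UD.so (b := a) i
    · intro X v
      refine Iff.of_eq (congrArg (fun Y => Φ Y v) ?_)
      funext i
      rcases i with i | i
      · exact i.elim
      · rfl
  have h2 := h1.isSpectrum
  convert h2 using 1
  ext m
  simp only [Set.mem_ofPred_eq]
  exact and_congr_right (fun _ => hR (fun x => x.elim) (fun _ => m))

lemma rud_of_eso1 (hQ : SRud) {R : (Fin 1 → ℕ) → Prop} (hR : ESO none0 1 (fun _ v => R v)) :
    Rud 1 {v | R v} := by
  have h1 : ESO none0 1 (fun _ v => (fun m => R (fun _ => m)) (v 0)) := by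
    refine hR.congr (fun X v => ?_)
    refine Iff.of_eq (congrArg R ?_)
    funext i
    rw [Subsingleton.elim i 0]
  have h2 := hQ _ (ESO.isSpectrum (R := fun m => R (fun _ => m)) h1)
  have h3 : RudX none0 1 (fun _ v => v 0 ∈ {m | 1 ≤ m ∧ R (fun _ => m)} ∨
      (v 0 = 0 ∧ R (fun _ => 0))) :=
    (RudX.mem h2 (IsPoly.var 0)).or ((RudX.eq (IsPoly.var 0) (IsPoly.const 0)).and'
      (RudX.const _))
  refine h3.toRud.congr ?_
  ext v
  have hv : v = fun _ => v 0 := by
    funext i
    rw [Subsingleton.elim i 0]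
  simp only [Set.mem_ofPred_eq]
  constructor
  · rintro (⟨_, h⟩ | ⟨h0, h⟩)
    · rw [hv]; exact h
    · rw [hv, h0]; exact h
  · intro h
    rw [hv] at h
    rcases Nat.eq_zero_or_pos (v 0) with h0 | h0
    · right
      rw [h0] at h
      exact ⟨h0, h⟩
    · exact Or.inl ⟨h0, h⟩

/-- if all spectra are rudimentary then so are the existential second-order relations -/
theorem rud_of_eso (hQ : SRud) : ∀ {k : ℕ} {R : (Fin k → ℕ) → Prop}
    (_ : ESO none0 k (fun _ v => R v)), Rud k {v | R v} := by
  intro k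
  induction k with
  | zero =>
    intro R _
    refine (RudX.const (a := none0) (k := 0) (R (fun i => i.elim0))).toRud.congr ?_
    ext v
    have hv : v = fun i => i.elim0 := by
      funext i
      exact i.elim0
    simp only [Set.mem_ofPred_eq]
    rw [hv]
  | succ k ih =>
    rcases k with _ | k
    · intro R hR
      exact rud_of_eso1 hQ hR
    · intro R hR
      let R' : (Fin (k + 1) → ℕ) → Prop := fun w => ∃ x, x ≤ w 0 ∧ ∃ y, y ≤ w 0 ∧
        (w 0 = pr2 x y ∧ R (Fin.cons x (Fin.cons y (Fin.tail w))))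
      have h1 : ESO none0 (k + 1) (fun _ w => R' w) := by
        refine ESO.ex (IsPoly.var 0) (ESO.ex (IsPoly.var 1) (ESO.and (ESO.of ?_) ?_))
        · exact RudX.eq (IsPoly.var 2) (IsPoly.pr2 (IsPoly.var 1) (IsPoly.var 0))
        · refine (hR.substNum (m := k + 1 + 1 + 1) (f := Fin.cons (fun w => w 1)
            (Fin.cons (fun w => w 0) (fun i w => w i.succ.succ.succ))) ?_).congr ?_
          · intro i
            refine Fin.cases ?_ (fun i => Fin.cases ?_ (fun i => ?_) i) i
            · exact IsPoly.var 1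
            · exact IsPoly.var 0
            · exact IsPoly.var _
          · intro X w
            refine Iff.of_eq (congrArg R ?_)
            funext i
            refine Fin.cases ?_ (fun i => Fin.cases ?_ (fun i => ?_) i) i <;> rfl
      have h2 := ih h1
      have h3 : RudX none0 (k + 1) (fun _ w => R' w) := RudX.ofRud h2
      have h4 := h3.subst (k + 1 + 1) (Fin.cons (fun v => pr2 (v 0) (v 1))
        (fun i v => v i.succ.succ)) (by
          intro i
          refine Fin.cases ?_ (fun i => ?_) i
          · exact IsPoly.pr2 (IsPoly.var 0) (IsPoly.var 1)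
          · exact IsPoly.var _)
      refine h4.toRud.congr ?_
      ext v
      simp only [Set.mem_ofPred_eq, R', Fin.cons_zero]
      have hv : ∀ x y, x = v 0 → y = v 1 → (Fin.cons x (Fin.cons y (Fin.tail (fun i =>
          (Fin.cons (fun v => pr2 (v 0) (v 1)) (fun i v => v i.succ.succ) :
            Fin (k + 1) → (Fin (k + 1 + 1) → ℕ) → ℕ) i v))) : Fin (k + 1 + 1) → ℕ) = v := by
        rintro x y rfl rfl
        funext i
        refine Fin.cases ?_ (fun i => Fin.cases ?_ (fun i => ?_) i) i <;> rfl
      constructor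
      · rintro ⟨x, _, y, _, h5, h6⟩
        obtain ⟨h7, h8⟩ := pr2_inj h5
        rw [hv x y h7.symm h8.symm] at h6
        exact h6
      · intro h5
        exact ⟨v 0, (le_pr2 _ _).1, v 1, (le_pr2 _ _).2, rfl, by rw [hv _ _ rfl rfl]; exact h5⟩

end Pool.Agent.Helper20.Spectra
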