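import Pool.Agent.Helper20.Sparse.BitAr
import Pool.Agent.Helper20.Sparse.Code

/-!
# Bounded formulas on long numbers
-/

set_option autoImplicit false

namespace Pool.Agent.Helper20.Spectra

/-! ## Families of unary predicates -/

/-- one more unary predicate -/
def scons {k : ℕ} (W : (Fin 1 → ℕ) → Prop) (V : SOA (ones k)) : SOA (ones (k + 1)) :=
  Fin.cons (α := fun _ => (Fin 1 → ℕ) → Prop) W V

/-- the number with digits `V j` -/
noncomputable def nm {k : ℕ} (n : ℕ) (V : SOA (ones k)) (j : Fin k) : ℕ :=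
  num n (fun i => V j (fun _ => i))

lemma ESO.ren {k k' m : ℕ} (σ : Fin k → Fin k') {R : SOA (ones k) → (Fin m → ℕ) → Prop}
    (h : ESO (ones k) m R) : ESO (ones k') m (fun V v => R (fun j => V (σ j)) v) :=
  h.subst (b' := ones k') (B := fun j X _ w => X (σ j) w) (fun j => UD.so (b := ones k') (σ j))
    (f := fun i v => v i) (fun i => IsPoly.var i)

lemma ESO.exSet {k m : ℕ} {R : SOA (ones (k + 1)) → (Fin m → ℕ) → Prop}
    (h : ESO (ones (k + 1)) m R) :
    ESO (ones k) m (fun V v => ∃ W : (Fin 1 → ℕ) → Prop, R (scons W V) v) := by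
  have h1 : ESO (Sum.elim (ones k) one) m
      (fun Y v => R (scons (Y (Sum.inr ())) (fun j => Y (Sum.inl j))) v) := by
    refine (h.subst (b' := Sum.elim (ones k) one)
      (B := fun j X _ w => Fin.cases (motive := fun _ => Prop) (X (Sum.inr ()) w)
        (fun j => X (Sum.inl j) w) j) ?_ (f := fun i v => v i) (fun i => IsPoly.var i)).congr ?_
    · intro j
      refine Fin.cases ?_ (fun j => ?_) j
      · exact UD.so (b := Sum.elim (ones k) one) (Sum.inr ())
      · exact UD.so (b := Sum.elim (ones k) one) (Sum.inl j)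
    · intro X v
      refine Iff.of_eq (congrArg (fun Y => R Y v) ?_)
      funext j
      refine Fin.cases ?_ (fun j => ?_) j <;> rfl
  refine h1.exSO.congr (fun V v => ?_)
  constructor
  · rintro ⟨W, hW⟩; exact ⟨fun _ => W, hW⟩
  · rintro ⟨W, hW⟩; exact ⟨W (), hW⟩

lemma exists_nm {n x : ℕ} (h : x < 2 ^ n) : ∃ W : (Fin 1 → ℕ) → Prop,
    num n (fun i => W (fun _ => i)) = x :=
  ⟨fun w => x.testBit (w 0) = true, num_testBit h⟩

/-- addition -/
def AddR {k : ℕ} (a b c : Fin k) (V : SOA (ones k)) (v : Fin 1 → ℕ) : Prop :=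
  nm (v 0) V a + nm (v 0) V b = nm (v 0) V c

lemma eso_addR {k : ℕ} (a b c : Fin k) : ESO (ones k) 1 (AddR a b c) :=
  ESO.ren ![a, b, c] eso_add

/-- multiplication -/
def MulR {k : ℕ} (a b c : Fin k) (V : SOA (ones k)) (v : Fin 1 → ℕ) : Prop :=
  nm (v 0) V a * nm (v 0) V b = nm (v 0) V c

lemma eso_mulR {k : ℕ} (a b c : Fin k) : ESO (ones k) 1 (MulR a b c) :=
  ESO.ren ![a, b, c] eso_mul

/-- renamings -/
def sk1 {k : ℕ} (c : Fin (k + 1 + 1)) : Fin (k + 1) → Fin (k + 1 + 1) :=
  Fin.cases c (fun j => j.succ.succ)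

def sk2 {k : ℕ} (c : Fin (k + 1 + 1 + 1)) : Fin (k + 1) → Fin (k + 1 + 1 + 1) :=
  Fin.cases c (fun j => j.succ.succ.succ)

/-- evaluation of a polynomial at long numbers -/
theorem eso_poly (hP : PowRud) {k : ℕ} (p : MvPolynomial (Fin k) ℕ) :
    ∃ C : ℕ, (∀ s (v : Fin k → ℕ), (∀ j, v j < 2 ^ s) →
        MvPolynomial.eval v p < 2 ^ (C * (s + 1))) ∧
      ∃ R : SOA (ones (k + 1)) → (Fin 1 → ℕ) → Prop, ESO (ones (k + 1)) 1 R ∧
        ∀ (n s : ℕ) (V : SOA (ones (k + 1))), C * (s + 1) ≤ n → (∀ j : Fin k, nm n V j.succ < 2 ^ s) →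
          (R V (fun _ => n) ↔ nm n V 0 = MvPolynomial.eval (fun j => nm n V j.succ) p) := by
  induction p using MvPolynomial.induction_on with
  | C c =>
    refine ⟨c, fun s v _ => ?_, fun V v => ∀ i, i ≤ v 0 → (i < v 0 →
      (V 0 (fun _ => i) ↔ c.testBit i = true)), ESO.of ?_, ?_⟩
    · rw [MvPolynomial.eval_C]
      calc c < 2 ^ c := Nat.lt_two_pow_self
        _ ≤ 2 ^ (c * (s + 1)) := Nat.pow_le_pow_right (by omega) (Nat.le_mul_of_pos_right _ (by omega))
    · exact RudX.all (IsPoly.var 0) (RudX.imp (RudX.lt (IsPoly.var 0) (IsPoly.var 1))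
        (RudX.iff (RudX.so' (a := ones (k + 1)) 0 (fun _ => IsPoly.var 0))
          (RudX.testBit hP (IsPoly.var 0) (IsPoly.const c))))
    · intro n s V hn _
      rw [MvPolynomial.eval_C]
      have hc : c < 2 ^ n := by
        calc c < 2 ^ c := Nat.lt_two_pow_self
          _ ≤ 2 ^ n := Nat.pow_le_pow_right (by omega)
            ((Nat.le_mul_of_pos_right c (show 0 < s + 1 by omega)).trans hn)
      constructor
      · intro h
        have h1 : nm n V 0 = num n (fun i => c.testBit i = true) :=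
          num_congr (fun i hi => h i hi.le hi)
        rw [h1, num_testBit hc]
      · intro h i _ hi
        have hi' : i < n := hi
        have h1 := testBit_num n (fun i => V 0 (fun _ => i)) i
        have h2 : num n (fun i => V 0 (fun _ => i)) = c := h
        rw [h2] at h1
        rw [h1]
        exact ⟨fun h => ⟨hi', h⟩, fun h => h.2⟩
  | add p q ihp ihq =>
    obtain ⟨C1, b1, R1, hR1, h1⟩ := ihp
    obtain ⟨C2, b2, R2, hR2, h2⟩ := ihq
    have hb : ∀ s (v : Fin k → ℕ), (∀ j, v j < 2 ^ s) →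
        MvPolynomial.eval v (p + q) < 2 ^ ((C1 + C2 + 1) * (s + 1)) := by
      intro s v hv
      rw [map_add]
      have e1 := b1 s v hv
      have e2 := b2 s v hv
      have e3 : 2 ^ (C1 * (s + 1)) ≤ 2 ^ ((C1 + C2) * (s + 1)) :=
        Nat.pow_le_pow_right (by omega) (Nat.mul_le_mul_right _ (by omega))
      have e4 : 2 ^ (C2 * (s + 1)) ≤ 2 ^ ((C1 + C2) * (s + 1)) :=
        Nat.pow_le_pow_right (by omega) (Nat.mul_le_mul_right _ (by omega))
      have e5 : 2 ^ ((C1 + C2) * (s + 1) + 1) ≤ 2 ^ ((C1 + C2 + 1) * (s + 1)) := by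
        apply Nat.pow_le_pow_right (by omega)
        rw [add_mul (C1 + C2) 1]
        omega
      rw [pow_succ] at e5
      omega
    refine ⟨C1 + C2 + 1, hb, fun V v => ∃ W1, ∃ W2,
      R1 (fun j => scons W2 (scons W1 V) (sk2 1 j)) v ∧
      R2 (fun j => scons W2 (scons W1 V) (sk2 0 j)) v ∧
      AddR 1 0 2 (scons W2 (scons W1 V)) v, ?_, ?_⟩
    · exact ESO.exSet (ESO.exSet ((ESO.ren (k' := k + 1 + 1 + 1)
        (sk2 1) hR1).and
        ((ESO.ren (k' := k + 1 + 1 + 1) (sk2 0) hR2).and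
          (eso_addR 1 0 2))))
    · intro n s V hn hV
      have hn1 : C1 * (s + 1) ≤ n := le_trans (Nat.mul_le_mul_right _ (by omega)) hn
      have hn2 : C2 * (s + 1) ≤ n := le_trans (Nat.mul_le_mul_right _ (by omega)) hn
      have e1 := fun W1 W2 : (Fin 1 → ℕ) → Prop => h1 n s (fun j => scons W2 (scons W1 V)
        (sk2 1 j)) hn1 hV
      have e2 := fun W1 W2 : (Fin 1 → ℕ) → Prop => h2 n s (fun j => scons W2 (scons W1 V)
        (sk2 0 j)) hn2 hV
      rw [map_add]
      constructor
      · rintro ⟨W1, W2, h3, h4, h5⟩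
        have h3' := (e1 W1 W2).1 h3
        have h4' := (e2 W1 W2).1 h4
        have h5' : num n (fun i => W1 (fun _ => i)) + num n (fun i => W2 (fun _ => i)) =
          nm n V 0 := h5
        have h3'' : num n (fun i => W1 (fun _ => i)) =
          MvPolynomial.eval (fun j => nm n V j.succ) p := h3'
        have h4'' : num n (fun i => W2 (fun _ => i)) =
          MvPolynomial.eval (fun j => nm n V j.succ) q := h4'
        rw [← h5', h3'', h4'']
      · intro h3
        have hb1 := b1 s _ hV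
        have hb2 := b2 s _ hV
        obtain ⟨W1, hW1⟩ := exists_nm (n := n) (hb1.trans_le
          (Nat.pow_le_pow_right (by omega) hn1))
        obtain ⟨W2, hW2⟩ := exists_nm (n := n) (hb2.trans_le
          (Nat.pow_le_pow_right (by omega) hn2))
        refine ⟨W1, W2, (e1 W1 W2).2 hW1, (e2 W1 W2).2 hW2, ?_⟩
        show num n (fun i => W1 (fun _ => i)) + num n (fun i => W2 (fun _ => i)) = nm n V 0
        rw [hW1, hW2, h3]
  | mul_X p i ihp =>
    obtain ⟨C1, b1, R1, hR1, h1⟩ := ihp
    have hb : ∀ s (v : Fin k → ℕ), (∀ j, v j < 2 ^ s) →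
        MvPolynomial.eval v (p * MvPolynomial.X i) < 2 ^ ((C1 + 1) * (s + 1)) := by
      intro s v hv
      rw [map_mul, MvPolynomial.eval_X]
      have e1 := b1 s v hv
      have e2 := hv i
      calc MvPolynomial.eval v p * v i < 2 ^ (C1 * (s + 1)) * 2 ^ s :=
            Nat.mul_lt_mul_of_lt_of_le e1 e2.le (by positivity)
        _ = 2 ^ (C1 * (s + 1) + s) := by rw [pow_add]
        _ ≤ 2 ^ ((C1 + 1) * (s + 1)) := by
            apply Nat.pow_le_pow_right (by omega)
            rw [add_mul]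
            omega
    refine ⟨C1 + 1, hb, fun V v => ∃ W1,
      R1 (fun j => scons W1 V (sk1 0 j)) v ∧
      MulR 0 i.succ.succ 1 (scons W1 V) v, ?_, ?_⟩
    · exact ESO.exSet ((ESO.ren (k' := k + 1 + 1)
        (sk1 0) hR1).and (eso_mulR 0 i.succ.succ 1))
    · intro n s V hn hV
      have hn1 : C1 * (s + 1) ≤ n := le_trans (Nat.mul_le_mul_right _ (by omega)) hn
      have e1 := fun W1 : (Fin 1 → ℕ) → Prop => h1 n s (fun j => scons W1 V
        (sk1 0 j)) hn1 hV
      rw [map_mul, MvPolynomial.eval_X]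
      constructor
      · rintro ⟨W1, h3, h5⟩
        have h5' : num n (fun i => W1 (fun _ => i)) * nm n V i.succ = nm n V 0 := h5
        have h3'' : num n (fun i => W1 (fun _ => i)) =
          MvPolynomial.eval (fun j => nm n V j.succ) p := (e1 W1).1 h3
        rw [← h5', h3'']
      · intro h3
        have hb1 := b1 s _ hV
        obtain ⟨W1, hW1⟩ := exists_nm (n := n) (hb1.trans_le
          (Nat.pow_le_pow_right (by omega) hn1))
        refine ⟨W1, (e1 W1).2 hW1, ?_⟩
        show num n (fun i => W1 (fun _ => i)) * nm n V i.succ = nm n V 0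
        rw [hW1, h3]

lemma nm_bset {k n s : ℕ} {v : Fin k → ℕ} (hv : ∀ j, v j < 2 ^ s) (hn : s ≤ n) (j : Fin k) :
    num n (fun i => bset v j (fun _ => i)) = v j :=
  num_testBit ((hv j).trans_le (Nat.pow_le_pow_right (by omega) hn))

/-- Bounded relations of long numbers are bounded definable, if every existential second-order
condition on the words is bounded definable. -/
theorem trans {ℓ h : ℕ → ℕ} (hC : CapX (words ℓ h)) (hP : PowRud) {k : ℕ}
    {S : Set (Fin k → ℕ)} (hS : Rud k S) :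
    ∃ C : ℕ, ∃ ψ : SOA (ones k) → (Fin 2 → ℕ) → Prop, RudX (ones k) 2 ψ ∧
      ∀ n β s, Room ℓ h n β (C * (s + 1)) → ∀ v : Fin k → ℕ, (∀ j, v j < 2 ^ s) →
        (ψ (bset v) ![n, β] ↔ v ∈ S) := by
  induction hS with
  | atom k p q =>
    obtain ⟨C1, b1, R1, hR1, h1⟩ := eso_poly hP p
    obtain ⟨C2, b2, R2, hR2, h2⟩ := eso_poly hP q
    have hR : ESO (ones k) 2 (fun V w => (fun (V : SOA (ones k)) (v : Fin 1 → ℕ) =>
        ∃ W, R1 (scons W V) v ∧ R2 (scons W V) v) V (fun _ => w 0)) :=
      (ESO.exSet (hR1.and hR2)).substNum (f := fun _ w => w 0) (fun _ => IsPoly.var 0)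
    obtain ⟨ψ, hψ, h3⟩ := multiCap hC hP hR
    refine ⟨C1 + C2 + k + 1, ψ, hψ, fun n β s hRoom v hv => ?_⟩
    have hn := hRoom.le
    have hn1 : C1 * (s + 1) ≤ n := le_trans (Nat.mul_le_mul_right _ (by omega)) hn
    have hn2 : C2 * (s + 1) ≤ n := le_trans (Nat.mul_le_mul_right _ (by omega)) hn
    have hn3 : s ≤ n := by
      have : 1 * (s + 1) ≤ (C1 + C2 + k + 1) * (s + 1) := Nat.mul_le_mul_right _ (by omega)
      omega
    have hks : k * s ≤ (C1 + C2 + k + 1) * (s + 1) :=
      Nat.mul_le_mul (by omega) (by omega)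
    rw [← h3 n β s (hRoom.mono hks) v hv]
    have e0 : ∀ W, (fun j : Fin k => nm n (scons W (bset v)) j.succ) = v := fun W =>
      funext (fun j => nm_bset hv hn3 j)
    have e1 := fun W => h1 n s (scons W (bset v)) hn1 (fun j => by
      have := congrFun (e0 W) j
      beta_reduce at this
      rw [this]; exact hv j)
    have e2 := fun W => h2 n s (scons W (bset v)) hn2 (fun j => by
      have := congrFun (e0 W) j
      beta_reduce at this
      rw [this]; exact hv j)
    simp only [e0] at e1 e2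
    show (∃ W, R1 (scons W (bset v)) (fun _ => n) ∧ R2 (scons W (bset v)) (fun _ => n)) ↔ _
    simp only [e1, e2, Set.mem_ofPred_eq]
    constructor
    · rintro ⟨W, h4, h5⟩
      rw [← h4, ← h5]
    · intro h4
      obtain ⟨W, hW⟩ := exists_nm (n := n) ((b1 s v hv).trans_le
        (Nat.pow_le_pow_right (by omega) hn1))
      exact ⟨W, hW, hW.trans h4⟩
  | compl k S _ ih =>
    obtain ⟨C, ψ, hψ, h1⟩ := ih
    exact ⟨C, _, hψ.not', fun n β s hRoom v hv => not_congr (h1 n β s hRoom v hv)⟩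
  | inter k S T _ _ ih ih' =>
    obtain ⟨C, ψ, hψ, h1⟩ := ih
    obtain ⟨C', ψ', hψ', h1'⟩ := ih'
    refine ⟨C + C', _, hψ.and' hψ', fun n β s hRoom v hv => and_congr
      (h1 n β s (hRoom.mono (Nat.mul_le_mul_right _ (by omega))) v hv)
      (h1' n β s (hRoom.mono (Nat.mul_le_mul_right _ (by omega))) v hv)⟩
  | bex k p S _ ih =>
    obtain ⟨C', ψ', hψ', h1'⟩ := ih
    obtain ⟨C1, b1, R1, hR1, h1⟩ := eso_poly hP p
    -- the sets: 0 = W2, 1 = W1, 2 = W0, and then V
    let σ : Fin (k + 1) → Fin (k + 1 + 1 + 1) := Fin.cases 1 (fun j => j.succ.succ.succ)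
    let Q : SOA (ones (k + 1 + 1 + 1)) → (Fin 2 → ℕ) → Prop := fun X v =>
      ψ' (fun j w => Fin.cases (motive := fun _ => Prop) (X 2 w ∧ w 0 < v 0)
        (fun j => X j.succ.succ.succ w) j) (fun i => v i)
    have hQ : RudX (ones (k + 1 + 1 + 1)) 2 Q := by
      refine substSO (b := ones (k + 1 + 1 + 1)) (m := 2)
        (B := fun j X u w => Fin.cases (motive := fun _ => Prop) (X 2 w ∧ w 0 < u 0)
          (fun j => X j.succ.succ.succ w) j) hψ' ?_ 2 (fun i v => v i)
        (fun i => IsPoly.var i) (fun i v => v i) (fun i => IsPoly.var i)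
      intro j
      refine Fin.cases ?_ (fun j => ?_) j
      · intro l u w hu hw
        exact (RudX.so' (a := ones (k + 1 + 1 + 1)) 2 hw).and' (RudX.lt (hw 0) (hu 0))
      · exact UD.so (b := ones (k + 1 + 1 + 1)) j.succ.succ.succ
    have hE1 : ESO (ones (k + 1 + 1 + 1)) 2 (fun X v => R1 (fun j => X (σ j)) (fun _ => v 0)) :=
      (ESO.ren (k' := k + 1 + 1 + 1) σ hR1).substNum (f := fun _ w => w 0)
        (fun _ => IsPoly.var 0)
    have hE2 : ESO (ones (k + 1 + 1 + 1)) 2 (fun X v => AddR 2 0 1 X (fun _ => v 0)) :=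
      (eso_addR (k := k + 1 + 1 + 1) 2 0 1).substNum (f := fun _ w => w 0)
        (fun _ => IsPoly.var 0)
    have hR := ESO.exSet (ESO.exSet (ESO.exSet (hE1.and (hE2.and (ESO.of hQ)))))
    obtain ⟨ψ, hψ, h3⟩ := multiCap hC hP hR
    refine ⟨C' * (C1 + 1) + k + C1 + 1, ψ, hψ, fun n β s hRoom v hv => ?_⟩
    have hn := hRoom.le
    have hn1 : C1 * (s + 1) ≤ n := le_trans (Nat.mul_le_mul_right _ (by omega)) hn
    have hn3 : s ≤ n := by
      have : 1 * (s + 1) ≤ (C' * (C1 + 1) + k + C1 + 1) * (s + 1) :=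
        Nat.mul_le_mul_right _ (by omega)
      omega
    have hks : k * s ≤ (C' * (C1 + 1) + k + C1 + 1) * (s + 1) :=
      Nat.mul_le_mul (by omega) (by omega)
    have hs' : C' * ((C1 * (s + 1) + s) + 1) ≤ (C' * (C1 + 1) + k + C1 + 1) * (s + 1) := by
      have e : C' * ((C1 * (s + 1) + s) + 1) = (C' * (C1 + 1)) * (s + 1) := by ring
      rw [e]
      exact Nat.mul_le_mul_right _ (by omega)
    have h4 := h1' n β (C1 * (s + 1) + s) (hRoom.mono hs')
    rw [← h3 n β s (hRoom.mono hks) v hv]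
    have e1 : ∀ W0 W1 W2, (R1 (fun j => scons W2 (scons W1 (scons W0 (bset v))) (σ j))
        (fun _ => n) ↔ num n (fun i => W1 (fun _ => i)) = MvPolynomial.eval v p) := by
      intro W0 W1 W2
      have e0 : (fun j : Fin k => nm n (fun j => scons W2 (scons W1 (scons W0 (bset v))) (σ j))
          j.succ) = v := funext (fun j => nm_bset hv hn3 j)
      have := h1 n s (fun j => scons W2 (scons W1 (scons W0 (bset v))) (σ j)) hn1 (fun j => by
        have := congrFun e0 j
        beta_reduce at this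
        rw [this]; exact hv j)
      rw [e0] at this
      exact this
    have e2 : ∀ W0 W1 W2, (Q (scons W2 (scons W1 (scons W0 (bset v)))) ![n, β] ↔
        ψ' (bset (Fin.cons (num n (fun i => W0 (fun _ => i))) v : Fin (k + 1) → ℕ)) ![n, β]) := by
      intro W0 W1 W2
      have e3 : (fun j w => Fin.cases (motive := fun _ => Prop)
          (scons W2 (scons W1 (scons W0 (bset v))) 2 w ∧ w 0 < n)
          (fun j => scons W2 (scons W1 (scons W0 (bset v))) j.succ.succ.succ w) j :
          SOA (ones (k + 1))) =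
          bset (Fin.cons (num n (fun i => W0 (fun _ => i))) v : Fin (k + 1) → ℕ) := by
        funext j w
        refine Fin.cases ?_ (fun j => ?_) j
        · apply propext
          show (W0 w ∧ w 0 < n) ↔ (num n (fun i => W0 (fun _ => i))).testBit (w 0) = true
          rw [testBit_num]
          have hw : w = fun _ => w 0 := by
            funext i
            rw [Subsingleton.elim i 0]
          rw [← hw]
          exact and_comm
        · rfl
      have e4 : (fun i => (![n, β] : Fin 2 → ℕ) i) = ![n, β] := rfl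
      show ψ' (fun j w => Fin.cases (motive := fun _ => Prop)
          (scons W2 (scons W1 (scons W0 (bset v))) 2 w ∧ w 0 < n)
          (fun j => scons W2 (scons W1 (scons W0 (bset v))) j.succ.succ.succ w) j)
        (fun i => (![n, β] : Fin 2 → ℕ) i) ↔ _
      rw [e3]
    have hb := b1 s v hv
    have hbn : MvPolynomial.eval v p < 2 ^ n :=
      hb.trans_le (Nat.pow_le_pow_right (by omega) hn1)
    have hcons : ∀ x, x ≤ MvPolynomial.eval v p → ∀ j : Fin (k + 1),
        (Fin.cons x v : Fin (k + 1) → ℕ) j < 2 ^ (C1 * (s + 1) + s) := by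
      intro x hx j
      refine Fin.cases ?_ (fun j => ?_) j
      · show x < _
        exact lt_of_le_of_lt hx (hb.trans_le (Nat.pow_le_pow_right (by omega) (by omega)))
      · show v j < _
        exact (hv j).trans_le (Nat.pow_le_pow_right (by omega) (by omega))
    constructor
    · rintro ⟨W0, W1, W2, h5, h6, h7⟩
      have h5' := (e1 W0 W1 W2).1 h5
      have h6' : num n (fun i => W0 (fun _ => i)) + num n (fun i => W2 (fun _ => i)) =
        num n (fun i => W1 (fun _ => i)) := h6
      have h7' := (e2 W0 W1 W2).1 h7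
      have hx : num n (fun i => W0 (fun _ => i)) ≤ MvPolynomial.eval v p := by omega
      exact ⟨_, hx, (h4 _ (hcons _ hx)).1 h7'⟩
    · rintro ⟨x, hx, h5⟩
      obtain ⟨W0, hW0⟩ := exists_nm (n := n) (x := x) (by omega)
      obtain ⟨W1, hW1⟩ := exists_nm (n := n) hbn
      obtain ⟨W2, hW2⟩ := exists_nm (n := n) (x := MvPolynomial.eval v p - x) (by omega)
      refine ⟨W0, W1, W2, (e1 W0 W1 W2).2 hW1, ?_, (e2 W0 W1 W2).2 ?_⟩
      · show num n (fun i => W0 (fun _ => i)) + num n (fun i => W2 (fun _ => i)) =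
          num n (fun i => W1 (fun _ => i))
        omega
      · rw [hW0]
        exact (h4 _ (hcons x hx)).2 h5

end Pool.Agent.Helper20.Spectra
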